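import Mathlib

/-!
# Stochastic convolutions: the notions used in the statement

* `TwoSmooth X` : the Banach space `X` is 2-smooth;
* `C0Semigroup X` : strongly continuous semigroups of bounded operators on `X`;
* `timeMeasure` : Lebesgue measure on the time axis `[0,∞)`;
* `IsBrownianMotionOn 𝓕 W P T` : `W` is a standard real `𝓕`-Brownian motion on `[0,T]`;
* `SimpleProcess 𝓕 X` : adapted step processes, with their elementary stochastic integral;
* `IsItoIntegral 𝓕 W P t φ I` : `I` is (a version of) the Ito integral of `φ` over `[0,t]`;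
* `IsStochConvolution 𝓕 W P S T g u` : `u` is (a version of) the stochastic convolution.
-/

open MeasureTheory ProbabilityTheory Filter Topology
open scoped NNReal ENNReal

namespace Pool.Agent.StochConv

/-- The normed space `X` is 2-smooth: there is `D ≥ 1` with
`‖x + y‖² + ‖x - y‖² ≤ 2 ‖x‖² + 2 D² ‖y‖²` for all `x, y`. -/
def TwoSmooth (X : Type*) [NormedAddCommGroup X] : Prop :=
  ∃ D : ℝ, 1 ≤ D ∧ ∀ x y : X,
    ‖x + y‖ ^ 2 + ‖x - y‖ ^ 2 ≤ 2 * ‖x‖ ^ 2 + 2 * D ^ 2 * ‖y‖ ^ 2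

/-- A `C₀`-semigroup on `X`: bounded operators `S(t)`, `t ≥ 0`, with `S(0) = I`,
`S(s+t) = S(s) S(t)`, and `t ↦ S(t) x` continuous for every `x`. -/
structure C0Semigroup (X : Type*) [NormedAddCommGroup X] [NormedSpace ℝ X] where
  /-- the operator `S(t)` -/
  op : ℝ≥0 → X →L[ℝ] X
  op_zero : op 0 = ContinuousLinearMap.id ℝ X
  op_add : ∀ s t : ℝ≥0, op (s + t) = (op s).comp (op t)
  continuous_op : ∀ x : X, Continuous fun t : ℝ≥0 => op t x

/-- Lebesgue measure on the time axis `[0,∞)`. -/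
noncomputable def timeMeasure : Measure ℝ≥0 :=
  (volume : Measure ℝ).comap ((↑) : ℝ≥0 → ℝ)

section

variable {Ω : Type*} {mΩ : MeasurableSpace Ω}

/-- `W` is a standard real Brownian motion on `[0,T]` with respect to the filtration `𝓕` under the
probability measure `P`: `W` is adapted, starts at `0`, has almost surely continuous paths on
`[0,T]`, and for `s ≤ t ≤ T` the increment `W t - W s` is `N(0, t - s)`-distributed and independent
of `𝓕 s`. -/
structure IsBrownianMotionOn (𝓕 : Filtration ℝ≥0 mΩ) (W : ℝ≥0 → Ω → ℝ)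
    (P : Measure Ω) (T : ℝ≥0) : Prop where
  isProbabilityMeasure : IsProbabilityMeasure P
  adapted : ∀ t ≤ T, StronglyMeasurable[𝓕 t] (W t)
  zero : ∀ᵐ ω ∂P, W 0 ω = 0
  continuousOn : ∀ᵐ ω ∂P, ContinuousOn (fun t => W t ω) (Set.Icc 0 T)
  law : ∀ s t : ℝ≥0, s ≤ t → t ≤ T →
    HasLaw (fun ω => W t ω - W s ω) (gaussianReal 0 (t - s)) P
  indep : ∀ s t : ℝ≥0, s ≤ t → t ≤ T →
    Indep (𝓕 s) (MeasurableSpace.comap (fun ω => W t ω - W s ω) inferInstance) P

/-- An adapted step process `∑ i, 1_{(lo i, hi i]}(s) η i`, where `η i` is bounded and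
`𝓕 (lo i)`-measurable with values in `X`. -/
structure SimpleProcess (𝓕 : Filtration ℝ≥0 mΩ) (X : Type*) [NormedAddCommGroup X] where
  /-- the number of terms -/
  n : ℕ
  /-- the left end points -/
  lo : Fin n → ℝ≥0
  /-- the right end points -/
  hi : Fin n → ℝ≥0
  lo_le_hi : ∀ i, lo i ≤ hi i
  /-- the random values -/
  η : Fin n → Ω → X
  measurable_η : ∀ i, StronglyMeasurable[𝓕 (lo i)] (η i)
  bounded_η : ∀ i, ∃ C : ℝ, ∀ ω, ‖η i ω‖ ≤ C

variable {X : Type*} [NormedAddCommGroup X]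

/-- The value at time `s` of an adapted step process. -/
noncomputable def SimpleProcess.val {𝓕 : Filtration ℝ≥0 mΩ} (ψ : SimpleProcess 𝓕 X)
    (s : ℝ≥0) (ω : Ω) : X :=
  ∑ i, (Set.Ioc (ψ.lo i) (ψ.hi i)).indicator (fun _ => ψ.η i ω) s

/-- The elementary stochastic integral over `[0,t]` of an adapted step process:
`∑ i, (W(hi i ∧ t) - W(lo i ∧ t)) η i`. -/
noncomputable def SimpleProcess.integral [NormedSpace ℝ X] {𝓕 : Filtration ℝ≥0 mΩ}
    (ψ : SimpleProcess 𝓕 X) (W : ℝ≥0 → Ω → ℝ) (t : ℝ≥0) (ω : Ω) : X :=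
  ∑ i, (W (min (ψ.hi i) t) ω - W (min (ψ.lo i) t) ω) • ψ.η i ω

/-- `I` is (a version of) the Ito integral `∫₀ᵗ φ dW`: there are adapted step processes converging
to `φ` in `L²([0,t] × Ω; X)` whose elementary integrals converge to `I` in `L²(Ω; X)`. -/
def IsItoIntegral [NormedSpace ℝ X] (𝓕 : Filtration ℝ≥0 mΩ) (W : ℝ≥0 → Ω → ℝ) (P : Measure Ω)
    (t : ℝ≥0) (φ : ℝ≥0 → Ω → X) (I : Ω → X) : Prop :=
  AEStronglyMeasurable I P ∧
  ∃ ψ : ℕ → SimpleProcess 𝓕 X,
    Tendsto (fun n => eLpNorm (fun p : ℝ≥0 × Ω => (ψ n).val p.1 p.2 - φ p.1 p.2) 2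
      ((timeMeasure.restrict (Set.Iic t)).prod P)) atTop (𝓝 0) ∧
    Tendsto (fun n => eLpNorm (fun ω => (ψ n).integral W t ω - I ω) 2 P) atTop (𝓝 0)

/-- `u` is (a version of) the stochastic convolution `u(t) = ∫₀ᵗ S(t-s) g_s dW_s` on `[0,T]`. -/
def IsStochConvolution [NormedSpace ℝ X] (𝓕 : Filtration ℝ≥0 mΩ) (W : ℝ≥0 → Ω → ℝ)
    (P : Measure Ω) (S : C0Semigroup X) (T : ℝ≥0) (g : ℝ≥0 → Ω → X) (u : ℝ≥0 → Ω → X) : Prop :=
  ∀ t ≤ T, IsItoIntegral 𝓕 W P t (fun s ω => S.op (t - s) (g s ω)) (u t)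

/-- `u` has a continuous version on `[0,T]`: a process `v` with `v t = u t` almost surely for each
`t ∈ [0,T]`, all of whose paths are continuous on `[0,T]`. -/
def HasContinuousVersion (P : Measure Ω) (T : ℝ≥0) (u : ℝ≥0 → Ω → X) : Prop :=
  ∃ v : ℝ≥0 → Ω → X, (∀ t ≤ T, v t =ᵐ[P] u t) ∧
    ∀ ω, ContinuousOn (fun t => v t ω) (Set.Icc 0 T)

end

end Pool.Agent.StochConv
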