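import Pool.Agent.StochConv.Stage

/-!
# The full integrand and its stochastic convolution
-/

open MeasureTheory ProbabilityTheory Filter Topology
open scoped NNReal ENNReal

namespace Pool.Agent.StochConv

section total

variable {Ω : Type*} {mΩ : MeasurableSpace Ω}
  {X : Type*} [NormedAddCommGroup X] [InnerProductSpace ℝ X]
  {K : ℕ → ℕ} {q : ℕ → ℕ} {Wt : ℕ → ℕ → ℕ} {a : ℕ → ℕ → ℝ} {e : ℕ → ℕ → X}
  {T : ℝ≥0} {W : ℝ≥0 → Ω → ℝ}

/-- the sum of all the stages -/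
noncomputable def gg (K : ℕ → ℕ) (q : ℕ → ℕ) (Wt : ℕ → ℕ → ℕ) (a : ℕ → ℕ → ℝ) (e : ℕ → ℕ → X)
    (T : ℝ≥0) (W : ℝ≥0 → Ω → ℝ) (τ : ℝ≥0 → ℝ≥0) (s : ℝ≥0) (ω : Ω) : X :=
  ∑' N, hh K q Wt a e T W N τ s ω

/-- the sum of the first `n` stages -/
noncomputable def gn (K : ℕ → ℕ) (q : ℕ → ℕ) (Wt : ℕ → ℕ → ℕ) (a : ℕ → ℕ → ℝ) (e : ℕ → ℕ → X)
    (T : ℝ≥0) (W : ℝ≥0 → Ω → ℝ) (n : ℕ) (τ : ℝ≥0 → ℝ≥0) (s : ℝ≥0) (ω : Ω) : X :=
  ∑ N ∈ Finset.range n, hh K q Wt a e T W N τ s ω

lemma hh_eventually_zero (hK : ∀ N, 0 < K N) (τ : ℝ≥0 → ℝ≥0) (s : ℝ≥0) :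
    ∃ N0, ∀ N ≥ N0, ∀ ω : Ω, hh K q Wt a e T W N τ s ω = 0 := by
  have hcase : ∀ N, (¬ (1 / 2 : ℝ≥0) ^ N ≤ T) → ∀ ω : Ω, hh K q Wt a e T W N τ s ω = 0 :=
    fun N hN ω => hh_eq_zero hN _ _ _
  by_cases hs : s < T
  · have hpos : 0 < T - s := tsub_pos_of_lt hs
    obtain ⟨N0, hN0⟩ := exists_pow_lt_of_lt_one hpos (by norm_num : (1 / 2 : ℝ≥0) < 1)
    refine ⟨N0, fun N hN ω => ?_⟩
    by_cases hNT : (1 / 2 : ℝ≥0) ^ N ≤ T
    · unfold hh
      refine Finset.sum_eq_zero fun k _ => Set.indicator_of_notMem ?_ _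
      intro hmem
      have h1 : (1 / 2 : ℝ≥0) ^ N ≤ T - s :=
        (pow_le_pow_of_le_one (by norm_num) (by norm_num) hN).trans hN0.le
      have h2 : s ≤ T - (1 / 2) ^ N := by
        rw [le_tsub_iff_right hNT]
        rw [le_tsub_iff_left hs.le] at h1
        exact h1
      have h3 : T - (1 / 2) ^ N ≤ tm K T N k := by
        unfold tm; exact le_self_add
      exact absurd hmem.1 (not_lt.2 (h2.trans h3))
    · exact hcase N hNT ω
  · refine ⟨0, fun N _ ω => ?_⟩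
    by_cases hNT : (1 / 2 : ℝ≥0) ^ N ≤ T
    · unfold hh
      refine Finset.sum_eq_zero fun k hk => Set.indicator_of_notMem ?_ _
      intro hmem
      have h1 : tm K T N (k + 1) ≤ T - (1 / 2) ^ (N + 1) :=
        tm_le hK T N hNT (Finset.mem_range.1 hk)
      have h2 : T - (1 / 2) ^ (N + 1) < T := by
        refine tsub_lt_self ?_ (by positivity)
        exact lt_of_lt_of_le (by positivity) hNT
      exact hs (lt_of_le_of_lt (hmem.2.trans h1) h2)
    · exact hcase N hNT ω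

lemma summable_hh (hK : ∀ N, 0 < K N) (τ : ℝ≥0 → ℝ≥0) (s : ℝ≥0) (ω : Ω) :
    Summable fun N => hh K q Wt a e T W N τ s ω := by
  obtain ⟨N0, hN0⟩ := hh_eventually_zero (q := q) (Wt := Wt) (a := a) (e := e) (T := T) (W := W)
    hK τ s
  refine summable_of_ne_finset_zero (s := Finset.range N0) fun N hN => ?_
  exact hN0 N (by simpa using hN) ω

lemma tendsto_gn (hK : ∀ N, 0 < K N) (τ : ℝ≥0 → ℝ≥0) (s : ℝ≥0) (ω : Ω) :
    Tendsto (fun n => gn K q Wt a e T W n τ s ω) atTop (𝓝 (gg K q Wt a e T W τ s ω)) :=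
  (summable_hh hK τ s ω).hasSum.tendsto_sum_nat

variable {𝓕 : Filtration ℝ≥0 mΩ} {P : Measure Ω}

lemma stronglyMeasurable_gn {Z : Type*} [MeasurableSpace Z] {σ : Z → ℝ≥0} {π : Z → Ω}
    (hσ : Measurable σ) (n : ℕ) {τ : ℝ≥0 → ℝ≥0} (hτ : Measurable τ)
    (hac : ∀ N, (1 / 2 : ℝ≥0) ^ N ≤ T → ∀ i, ∀ k < K N, (∃ z, tm K T N k < σ z) →
      Measurable (fun z => ac K q Wt T W N i k (π z))) :
    StronglyMeasurable (fun z => gn K q Wt a e T W n τ (σ z) (π z)) := by
  unfold gn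
  refine Finset.stronglyMeasurable_fun_sum _ fun N _ => ?_
  by_cases hN : (1 / 2 : ℝ≥0) ^ N ≤ T
  · exact stronglyMeasurable_hh hσ N hτ (hac N hN)
  · have e0 : (fun z => hh K q Wt a e T W N τ (σ z) (π z)) = fun _ => (0 : X) := by
      ext z; exact hh_eq_zero hN _ _ _
    rw [e0]
    exact stronglyMeasurable_const

lemma stronglyMeasurable_gg (hK : ∀ N, 0 < K N) {Z : Type*} [MeasurableSpace Z] {σ : Z → ℝ≥0}
    {π : Z → Ω} (hσ : Measurable σ) {τ : ℝ≥0 → ℝ≥0} (hτ : Measurable τ)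
    (hac : ∀ N, (1 / 2 : ℝ≥0) ^ N ≤ T → ∀ i, ∀ k < K N, (∃ z, tm K T N k < σ z) →
      Measurable (fun z => ac K q Wt T W N i k (π z))) :
    StronglyMeasurable (fun z => gg K q Wt a e T W τ (σ z) (π z)) := by
  refine stronglyMeasurable_of_tendsto atTop
    (f := fun n z => gn K q Wt a e T W n τ (σ z) (π z))
    (fun n => stronglyMeasurable_gn hσ n hτ hac) ?_
  rw [tendsto_pi_nhds]
  exact fun z => tendsto_gn hK τ (σ z) (π z)

lemma measurable_gn_full (hW : IsBrownianMotionOn 𝓕 W P T) (hK : ∀ N, 0 < K N)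
    (n : ℕ) {τ : ℝ≥0 → ℝ≥0} (hτ : Measurable τ) :
    StronglyMeasurable (fun p : ℝ≥0 × Ω => gn K q Wt a e T W n τ p.1 p.2) :=
  stronglyMeasurable_gn (σ := Prod.fst) (π := Prod.snd) measurable_fst n hτ
    fun _ hN i _ hk _ =>
      ((measurable_ac hW hK hN i hk.le).mono (𝓕.le _) le_rfl).comp measurable_snd

lemma measurable_gg_full (hW : IsBrownianMotionOn 𝓕 W P T) (hK : ∀ N, 0 < K N)
    {τ : ℝ≥0 → ℝ≥0} (hτ : Measurable τ) :
    StronglyMeasurable (fun p : ℝ≥0 × Ω => gg K q Wt a e T W τ p.1 p.2) :=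
  stronglyMeasurable_gg hK (σ := Prod.fst) (π := Prod.snd) measurable_fst hτ
    fun _ hN i _ hk _ =>
      ((measurable_ac hW hK hN i hk.le).mono (𝓕.le _) le_rfl).comp measurable_snd

/-- the integrand is progressively measurable -/
lemma progressive_gg (hW : IsBrownianMotionOn 𝓕 W P T) (hK : ∀ N, 0 < K N) :
    IsStronglyProgressive 𝓕 (fun s ω => gg K q Wt a e T W id s ω) := by
  intro t
  refine @stronglyMeasurable_gg Ω X _ _ K q Wt a e T W hK (Set.Iic t × Ω)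
      (Subtype.instMeasurableSpace.prod (𝓕 t)) (fun p => (p.1 : ℝ≥0)) (fun p => p.2) ?_
      id measurable_id ?_
  · exact measurable_subtype_coe.comp (@measurable_fst _ _ _ (𝓕 t))
  · rintro N hN i k hk ⟨z, hz⟩
    have h1 : tm K T N k ≤ t := hz.le.trans z.1.2
    have h2 : Measurable[𝓕 t] (fun ω => ac K q Wt T W N i k ω) :=
      (measurable_ac hW hK hN i hk.le).mono (𝓕.mono h1) le_rfl
    exact h2.comp (@measurable_snd _ _ _ (𝓕 t))

/-- convergence of the partial sums in `L²` -/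
lemma eLpNorm_gn_sub_gg (hW : IsBrownianMotionOn 𝓕 W P T) (hK : ∀ N, 0 < K N)
    (hq : ∀ N, 0 < q N) (ha : ∀ N i, 0 < a N i) (he : ∀ N i, ‖e N i‖ ^ 2 ≤ 2)
    (t : ℝ≥0) {τ : ℝ≥0 → ℝ≥0} (hτm : Measurable τ) (hτ : ∀ s ≤ t, s ≤ τ s) (n : ℕ) :
    eLpNorm (fun p : ℝ≥0 × Ω => gn K q Wt a e T W n τ p.1 p.2 - gg K q Wt a e T W τ p.1 p.2) 2
      ((timeMeasure.restrict (Set.Iic t)).prod P)
      ≤ ENNReal.ofReal (8 / √pGauss * (1 / 2) ^ n) := by
  have hP := hW.isProb
  set μ := (timeMeasure.restrict (Set.Iic t)).prod P with hμ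
  have hmeas : ∀ m, AEStronglyMeasurable
      (fun p : ℝ≥0 × Ω => gn K q Wt a e T W n τ p.1 p.2 - gn K q Wt a e T W m τ p.1 p.2) μ :=
    fun m => ((measurable_gn_full hW hK n hτm).sub
      (measurable_gn_full hW hK m hτm)).aestronglyMeasurable
  have hlim : ∀ᵐ p ∂μ, Tendsto
      (fun m => gn K q Wt a e T W n τ p.1 p.2 - gn K q Wt a e T W m τ p.1 p.2) atTop
      (𝓝 (gn K q Wt a e T W n τ p.1 p.2 - gg K q Wt a e T W τ p.1 p.2)) :=
    Eventually.of_forall fun p => tendsto_const_nhds.sub (tendsto_gn hK τ p.1 p.2)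
  refine (Lp.eLpNorm_lim_le_liminf_eLpNorm hmeas _ hlim).trans ?_
  have hbound : ∀ m, n ≤ m → eLpNorm
      (fun p : ℝ≥0 × Ω => gn K q Wt a e T W n τ p.1 p.2 - gn K q Wt a e T W m τ p.1 p.2) 2 μ
      ≤ ENNReal.ofReal (8 / √pGauss * (1 / 2) ^ n) := by
    intro m hm
    have e1 : (fun p : ℝ≥0 × Ω => gn K q Wt a e T W n τ p.1 p.2
        - gn K q Wt a e T W m τ p.1 p.2)
        = -(∑ N ∈ Finset.Ico n m, fun p : ℝ≥0 × Ω => hh K q Wt a e T W N τ p.1 p.2) := by
      ext p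
      simp only [Pi.neg_apply, Finset.sum_apply]
      unfold gn
      rw [Finset.sum_Ico_eq_sub _ hm]
      abel
    rw [e1, eLpNorm_neg]
    have hm1 : ∀ N ∈ Finset.Ico n m, AEStronglyMeasurable
        (fun p : ℝ≥0 × Ω => hh K q Wt a e T W N τ p.1 p.2) μ := by
      intro N _
      by_cases hN : (1 / 2 : ℝ≥0) ^ N ≤ T
      · exact (stronglyMeasurable_hh (σ := Prod.fst) (π := Prod.snd) measurable_fst N hτm
          fun i k hk _ => ((measurable_ac hW hK hN i hk.le).mono (𝓕.le _) le_rfl).comp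
            measurable_snd).aestronglyMeasurable
      · have e0 : (fun p : ℝ≥0 × Ω => hh K q Wt a e T W N τ p.1 p.2) = fun _ => (0 : X) := by
          ext z; exact hh_eq_zero hN _ _ _
        rw [e0]
        exact aestronglyMeasurable_const
    refine (eLpNorm_sum_le hm1 (by norm_num)).trans ?_
    have hp := pGauss_pos
    calc ∑ N ∈ Finset.Ico n m,
          eLpNorm (fun p : ℝ≥0 × Ω => hh K q Wt a e T W N τ p.1 p.2) 2 μ
        ≤ ∑ N ∈ Finset.Ico n m, ENNReal.ofReal (4 / √pGauss * (1 / 2) ^ N) :=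
          Finset.sum_le_sum fun N _ => eLpNorm_hh_le hW hK hq ha he N t hτ
      _ = ENNReal.ofReal (∑ N ∈ Finset.Ico n m, 4 / √pGauss * (1 / 2) ^ N) :=
          (ENNReal.ofReal_sum_of_nonneg fun N _ => by positivity).symm
      _ ≤ ENNReal.ofReal (8 / √pGauss * (1 / 2) ^ n) := by
          refine ENNReal.ofReal_le_ofReal ?_
          rw [← Finset.mul_sum]
          have h2 : ∑ N ∈ Finset.Ico n m, (1 / 2 : ℝ) ^ N ≤ 2 * (1 / 2) ^ n := by
            rw [Finset.sum_Ico_eq_sum_range]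
            have h3 : ∀ i, (1 / 2 : ℝ) ^ (n + i) = (1 / 2) ^ n * (1 / 2) ^ i := fun i =>
              pow_add _ _ _
            simp_rw [h3]
            rw [← Finset.mul_sum]
            have h4 : ∑ i ∈ Finset.range (m - n), (1 / 2 : ℝ) ^ i ≤ 2 :=
              sum_geometric_two_le _
            have h5 : (0 : ℝ) < (1 / 2) ^ n := by positivity
            nlinarith
          calc 4 / √pGauss * ∑ N ∈ Finset.Ico n m, (1 / 2 : ℝ) ^ N
              ≤ 4 / √pGauss * (2 * (1 / 2) ^ n) := by gcongr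
            _ = _ := by ring
  refine liminf_le_of_frequently_le' ?_
  exact (eventually_atTop.2 ⟨n, hbound⟩).frequently

lemma tendsto_eLpNorm_gn (hW : IsBrownianMotionOn 𝓕 W P T) (hK : ∀ N, 0 < K N)
    (hq : ∀ N, 0 < q N) (ha : ∀ N i, 0 < a N i) (he : ∀ N i, ‖e N i‖ ^ 2 ≤ 2)
    (t : ℝ≥0) {τ : ℝ≥0 → ℝ≥0} (hτm : Measurable τ) (hτ : ∀ s ≤ t, s ≤ τ s) :
    Tendsto (fun n => eLpNorm (fun p : ℝ≥0 × Ω => gn K q Wt a e T W n τ p.1 p.2
      - gg K q Wt a e T W τ p.1 p.2) 2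
      ((timeMeasure.restrict (Set.Iic t)).prod P)) atTop (𝓝 0) := by
  refine tendsto_of_tendsto_of_tendsto_of_le_of_le tendsto_const_nhds ?_ (fun _ => bot_le)
    (fun n => eLpNorm_gn_sub_gg hW hK hq ha he t hτm hτ n)
  have h : Tendsto (fun n : ℕ => 8 / √pGauss * (1 / 2 : ℝ) ^ n) atTop
      (𝓝 (8 / √pGauss * 0)) :=
    (tendsto_pow_atTop_nhds_zero_of_lt_one (by norm_num) (by norm_num)).const_mul _
  rw [mul_zero] at h
  have := ENNReal.tendsto_ofReal h
  rwa [ENNReal.ofReal_zero] at this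

lemma memLp_gg (hW : IsBrownianMotionOn 𝓕 W P T) (hK : ∀ N, 0 < K N)
    (hq : ∀ N, 0 < q N) (ha : ∀ N i, 0 < a N i) (he : ∀ N i, ‖e N i‖ ^ 2 ≤ 2)
    (t : ℝ≥0) {τ : ℝ≥0 → ℝ≥0} (hτm : Measurable τ) (hτ : ∀ s ≤ t, s ≤ τ s) :
    MemLp (fun p : ℝ≥0 × Ω => gg K q Wt a e T W τ p.1 p.2) 2
      ((timeMeasure.restrict (Set.Iic t)).prod P) := by
  refine ⟨(measurable_gg_full hW hK hτm).aestronglyMeasurable, ?_⟩
  have h := eLpNorm_gn_sub_gg (Wt := Wt) (T := T) hW hK hq ha he t hτm hτ 0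
  have e1 : (fun p : ℝ≥0 × Ω => gn K q Wt a e T W 0 τ p.1 p.2 - gg K q Wt a e T W τ p.1 p.2)
      = -(fun p : ℝ≥0 × Ω => gg K q Wt a e T W τ p.1 p.2) := by
    ext p; simp [gn]
  rw [e1, eLpNorm_neg] at h
  exact h.trans_lt ENNReal.ofReal_lt_top

/-- the semigroup acts on the integrand -/
lemma semigroup_gg (S : C0Semigroup X) (hK : ∀ N, 0 < K N)
    (hS : ∀ N i, i < q N → ∀ t : ℝ≥0, S.op t (e N i) = Real.exp (-(lam K a N i * t)) • e N i)
    {s t : ℝ≥0} (hst : s ≤ t) (ω : Ω) :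
    S.op (t - s) (gg K q Wt a e T W id s ω) = gg K q Wt a e T W (fun _ => t) s ω := by
  unfold gg
  rw [ContinuousLinearMap.map_tsum _ (summable_hh hK id s ω)]
  congr 1
  ext N
  unfold hh
  rw [map_sum]
  refine Finset.sum_congr rfl fun k _ => ?_
  by_cases hs : s ∈ Set.Ioc (tm K T N k) (tm K T N (k + 1))
  · rw [Set.indicator_of_mem hs, Set.indicator_of_mem hs]
    unfold YY
    rw [map_sum]
    refine Finset.sum_congr rfl fun i hi => ?_
    rw [map_smul, hS N i (Finset.mem_range.1 hi), smul_smul]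
    congr 1
    rw [mul_assoc, ← Real.exp_add, NNReal.coe_sub hst]
    congr 2
    simp only [id]
    ring
  · rw [Set.indicator_of_notMem hs, Set.indicator_of_notMem hs, map_zero]

lemma bounded_YY (N k : ℕ) (t : ℝ≥0) :
    ∃ C : ℝ, ∀ ω : Ω, ‖YY K q Wt a e T W N k t ω‖ ≤ C := by
  refine ⟨∑ i ∈ Finset.range (q N), ‖(cc q T N / √(eta K N)
    * Real.exp (-(lam K a N i * ((t : ℝ) - tm K T N k)))) • e N i‖, fun ω => ?_⟩
  unfold YY
  refine (norm_sum_le _ _).trans (Finset.sum_le_sum fun i _ => ?_)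
  rw [norm_smul, norm_smul]
  refine mul_le_mul_of_nonneg_right ?_ (norm_nonneg _)
  rw [norm_mul, norm_mul, norm_mul (cc q T N / √(eta K N))]
  have h1 := ac_nonneg (K := K) (q := q) (Wt := Wt) (T := T) (W := W) N i k ω
  have h2 := ac_le_one (K := K) (q := q) (Wt := Wt) (T := T) (W := W) N i k ω
  have h3 : ‖ac K q Wt T W N i k ω‖ ≤ 1 := by rwa [Real.norm_eq_abs, abs_of_nonneg h1]
  refine mul_le_mul_of_nonneg_right ?_ (norm_nonneg _)
  exact mul_le_of_le_one_right (norm_nonneg _) h3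

lemma measurable_YY (hW : IsBrownianMotionOn 𝓕 W P T) (hK : ∀ N, 0 < K N) (N : ℕ) {k : ℕ}
    (hk : k ≤ K N) (t : ℝ≥0) : StronglyMeasurable[𝓕 (tm K T N k)] (YY K q Wt a e T W N k t) := by
  by_cases hN : (1 / 2 : ℝ≥0) ^ N ≤ T
  · unfold YY
    refine Finset.stronglyMeasurable_fun_sum _ fun i _ => ?_
    refine StronglyMeasurable.smul_const (Measurable.stronglyMeasurable ?_) _
    exact ((measurable_ac hW hK hN i hk).const_mul _).mul_const _
  · have e0 : YY K q Wt a e T W N k t = fun _ => (0 : X) := by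
      ext ω; exact YY_eq_zero hN _ _ _
    rw [e0]
    exact stronglyMeasurable_const

/-- the approximating step processes -/
lemma exists_approx (hW : IsBrownianMotionOn 𝓕 W P T) (hK : ∀ N, 0 < K N) (n : ℕ)
    (t : ℝ≥0) :
    ∃ ψ : SimpleProcess 𝓕 X,
      (∀ s ω, ψ.val s ω = gn K q Wt a e T W n (fun _ => t) s ω) ∧
      (∀ ω, ψ.integral W t ω = ∑ N ∈ Finset.range n, ∑ k ∈ Finset.range (K N),
        (W (min (tm K T N (k + 1)) t) ω - W (min (tm K T N k) t) ω)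
          • YY K q Wt a e T W N k t ω) := by
  obtain ⟨ψ, h1, h2⟩ := exists_simpleProcess (𝓕 := 𝓕) (X := X)
    (ι := Σ N : Fin n, Fin (K N))
    (fun z => tm K T z.1 z.2) (fun z => tm K T z.1 (z.2 + 1))
    (fun z => tm_mono T _ (Nat.le_succ _))
    (fun z => YY K q Wt a e T W z.1 z.2 t)
    (fun z => measurable_YY hW hK _ z.2.2.le t) (fun z => bounded_YY _ _ t)
  refine ⟨ψ, fun s ω => ?_, fun ω => ?_⟩
  · rw [h1]
    unfold boxVal gn hh
    rw [Fintype.sum_sigma]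
    rw [← Fin.sum_univ_eq_sum_range (fun N => ∑ k ∈ Finset.range (K N),
      (Set.Ioc (tm K T N k) (tm K T N (k + 1))).indicator
        (fun _ => YY K q Wt a e T W N k t ω) s) n]
    refine Finset.sum_congr rfl fun N _ => ?_
    exact Fin.sum_univ_eq_sum_range (fun k =>
      (Set.Ioc (tm K T N k) (tm K T N (k + 1))).indicator
        (fun _ => YY K q Wt a e T W N k t ω) s) (K N)
  · rw [h2]
    unfold boxInt
    rw [Fintype.sum_sigma]
    rw [← Fin.sum_univ_eq_sum_range (fun N => ∑ k ∈ Finset.range (K N),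
      (W (min (tm K T N (k + 1)) t) ω - W (min (tm K T N k) t) ω)
          • YY K q Wt a e T W N k t ω) n]
    refine Finset.sum_congr rfl fun N _ => ?_
    exact Fin.sum_univ_eq_sum_range (fun k =>
      (W (min (tm K T N (k + 1)) t) ω - W (min (tm K T N k) t) ω)
          • YY K q Wt a e T W N k t ω) (K N)

/-- on `[0,t]`, the integrand `S(t-s) g_s` is the sum of the stages seen from time `t` -/
lemma ae_semigroup_gg (S : C0Semigroup X) (hK : ∀ N, 0 < K N) [SFinite P]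
    (hS : ∀ N i, i < q N → ∀ t : ℝ≥0, S.op t (e N i) = Real.exp (-(lam K a N i * t)) • e N i)
    (t : ℝ≥0) :
    (fun p : ℝ≥0 × Ω => S.op (t - p.1) (gg K q Wt a e T W id p.1 p.2))
      =ᵐ[(timeMeasure.restrict (Set.Iic t)).prod P]
      (fun p => gg K q Wt a e T W (fun _ => t) p.1 p.2) := by
  have hae : ∀ᵐ p ∂((timeMeasure.restrict (Set.Iic t)).prod P), p.1 ∈ Set.Iic t :=
    (Measure.quasiMeasurePreserving_fst (μ := timeMeasure.restrict (Set.Iic t)) (ν := P)).ae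
      (ae_restrict_mem measurableSet_Iic)
  filter_upwards [hae] with p hp
  exact semigroup_gg S hK hS hp p.2

section main

variable [CompleteSpace X]

omit [CompleteSpace X] in
/-- There is an approximating sequence for `s ↦ S(t-s) g_s`. -/
lemma exists_approx_seq (S : C0Semigroup X) (hW : IsBrownianMotionOn 𝓕 W P T)
    (hK : ∀ N, 0 < K N)
    (hq : ∀ N, 0 < q N) (ha : ∀ N i, 0 < a N i) (he : ∀ N i, ‖e N i‖ ^ 2 ≤ 2)
    (hS : ∀ N i, i < q N → ∀ t : ℝ≥0, S.op t (e N i) = Real.exp (-(lam K a N i * t)) • e N i)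
    (t : ℝ≥0) :
    ∃ ψ : ℕ → SimpleProcess 𝓕 X,
      (∀ n ω, (ψ n).integral W t ω = ∑ N ∈ Finset.range n, ∑ k ∈ Finset.range (K N),
        (W (min (tm K T N (k + 1)) t) ω - W (min (tm K T N k) t) ω)
          • YY K q Wt a e T W N k t ω) ∧
      Tendsto (fun n => eLpNorm (fun p : ℝ≥0 × Ω => (ψ n).val p.1 p.2
        - S.op (t - p.1) (gg K q Wt a e T W id p.1 p.2)) 2
        ((timeMeasure.restrict (Set.Iic t)).prod P)) atTop (𝓝 0) := by
  have hP := hW.isProb
  choose ψ h1 h2 using fun n => exists_approx (q := q) (Wt := Wt) (a := a) (e := e) (T := T)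
    hW hK n t
  refine ⟨ψ, h2, ?_⟩
  have h3 := tendsto_eLpNorm_gn (Wt := Wt) (T := T) hW hK hq ha he t
    (τ := fun _ => t) measurable_const (fun s hs => hs)
  refine h3.congr fun n => ?_
  refine eLpNorm_congr_ae ?_
  filter_upwards [ae_semigroup_gg (q := q) (Wt := Wt) (a := a) (e := e) (T := T) (W := W)
    (P := P) S hK hS t] with p hp
  rw [hp, h1]

omit [CompleteSpace X] in
lemma aestronglyMeasurable_conv (S : C0Semigroup X) (hW : IsBrownianMotionOn 𝓕 W P T)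
    (hK : ∀ N, 0 < K N)
    (hS : ∀ N i, i < q N → ∀ t : ℝ≥0, S.op t (e N i) = Real.exp (-(lam K a N i * t)) • e N i)
    (t : ℝ≥0) :
    AEStronglyMeasurable (fun p : ℝ≥0 × Ω =>
      S.op (t - p.1) (gg K q Wt a e T W id p.1 p.2))
      ((timeMeasure.restrict (Set.Iic t)).prod P) := by
  have hP := hW.isProb
  exact (measurable_gg_full hW hK measurable_const).aestronglyMeasurable.congr
    (ae_semigroup_gg S hK hS t).symm

/-- The stochastic convolution exists. -/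
lemma exists_stochConvolution (S : C0Semigroup X) (hW : IsBrownianMotionOn 𝓕 W P T)
    (hK : ∀ N, 0 < K N)
    (hq : ∀ N, 0 < q N) (ha : ∀ N i, 0 < a N i) (he : ∀ N i, ‖e N i‖ ^ 2 ≤ 2)
    (hS : ∀ N i, i < q N → ∀ t : ℝ≥0, S.op t (e N i) = Real.exp (-(lam K a N i * t)) • e N i) :
    ∃ u : ℝ≥0 → Ω → X, IsStochConvolution 𝓕 W P S T
      (fun s ω => gg K q Wt a e T W id s ω) u := by
  have h : ∀ t : ℝ≥0, ∃ I : Ω → X, t ≤ T → IsItoIntegral 𝓕 W P t
      (fun s ω => S.op (t - s) (gg K q Wt a e T W id s ω)) I := by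
    intro t
    by_cases ht : t ≤ T
    · obtain ⟨ψ, -, hψ⟩ := exists_approx_seq (Wt := Wt) (T := T) S hW hK hq ha he hS t
      have hm := aestronglyMeasurable_conv (Wt := Wt) (T := T) (P := P) (𝓕 := 𝓕) S hW hK hS t
      obtain ⟨I, hI⟩ := exists_isItoIntegral
        (φ := fun s ω => S.op (t - s) (gg K q Wt a e T W id s ω)) hW ht hm ψ hψ
      exact ⟨I, fun _ => hI⟩
    · exact ⟨fun _ => 0, fun h => absurd h ht⟩
  choose u hu using h
  exact ⟨u, fun t ht => hu t ht⟩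

omit [CompleteSpace X] in
/-- Identification of the components of the stochastic convolution. -/
lemma fun_ito_eq (S : C0Semigroup X) (hW : IsBrownianMotionOn 𝓕 W P T)
    (hK : ∀ N, 0 < K N)
    (hq : ∀ N, 0 < q N) (ha : ∀ N i, 0 < a N i) (he : ∀ N i, ‖e N i‖ ^ 2 ≤ 2)
    (hS : ∀ N i, i < q N → ∀ t : ℝ≥0, S.op t (e N i) = Real.exp (-(lam K a N i * t)) • e N i)
    {φ : ℕ → X →L[ℝ] ℝ} (hφ1 : ∀ N x, |φ N x| ≤ ‖x‖)
    (hφ2 : ∀ N N' i, N ≠ N' → φ N (e N' i) = 0) (N : ℕ) {t : ℝ≥0} (ht : t ≤ T) {I : Ω → X}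
    (hI : IsItoIntegral 𝓕 W P t (fun s ω => S.op (t - s) (gg K q Wt a e T W id s ω)) I) :
    ∀ᵐ ω ∂P, φ N (I ω) = ∑ k ∈ Finset.range (K N),
        (W (min (tm K T N (k + 1)) t) ω - W (min (tm K T N k) t) ω)
          * φ N (YY K q Wt a e T W N k t ω) := by
  have hP := hW.isProb
  obtain ⟨ψ, hψ1, hψ2⟩ := exists_approx_seq (Wt := Wt) (T := T) S hW hK hq ha he hS t
  have hmeas := aestronglyMeasurable_conv (Wt := Wt) (T := T) (P := P) (𝓕 := 𝓕) S hW hK hS t
  obtain ⟨hIm, χ, hχ1, hχ2⟩ := hI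
  -- `I` is the limit of the integrals of `ψ n`
  have hlim : Tendsto (fun n => eLpNorm (fun ω => (ψ n).integral W t ω - I ω) 2 P) atTop
      (𝓝 0) := by
    have hb : ∀ n, eLpNorm (fun ω => (ψ n).integral W t ω - I ω) 2 P
        ≤ (eLpNorm (fun p : ℝ≥0 × Ω => (ψ n).val p.1 p.2
          - S.op (t - p.1) (gg K q Wt a e T W id p.1 p.2)) 2
            ((timeMeasure.restrict (Set.Iic t)).prod P)
          + eLpNorm (fun p : ℝ≥0 × Ω => (χ n).val p.1 p.2
          - S.op (t - p.1) (gg K q Wt a e T W id p.1 p.2)) 2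
            ((timeMeasure.restrict (Set.Iic t)).prod P))
          + eLpNorm (fun ω => (χ n).integral W t ω - I ω) 2 P := by
      intro n
      have m1 := ((ψ n).memLp_integral hW ht).aestronglyMeasurable
      have m2 := ((χ n).memLp_integral hW ht).aestronglyMeasurable
      have v1 := ((ψ n).memLp_val (P := P) t).aestronglyMeasurable
      have v2 := ((χ n).memLp_val (P := P) t).aestronglyMeasurable
      have e1 : (fun ω => (ψ n).integral W t ω - I ω)
          = (fun ω => ((ψ n).integral W t ω - (χ n).integral W t ω))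
            + (fun ω => (χ n).integral W t ω - I ω) := by
        ext ω; simp only [Pi.add_apply]; abel
      rw [e1]
      refine (eLpNorm_add_le (m1.sub m2) (m2.sub hIm) (by norm_num)).trans ?_
      refine add_le_add ?_ le_rfl
      have e2 : (fun p : ℝ≥0 × Ω => (ψ n).val p.1 p.2 - (χ n).val p.1 p.2)
          = (fun p : ℝ≥0 × Ω => (ψ n).val p.1 p.2
            - S.op (t - p.1) (gg K q Wt a e T W id p.1 p.2))
            - (fun p : ℝ≥0 × Ω => (χ n).val p.1 p.2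
            - S.op (t - p.1) (gg K q Wt a e T W id p.1 p.2)) := by
        ext p; simp only [Pi.sub_apply]; abel
      have e3 := SimpleProcess.eLpNorm_integral_sub hW (ψ n) (χ n) ht
      rw [e2] at e3
      refine (le_of_eq e3).trans ?_
      exact eLpNorm_sub_le (v1.sub hmeas) (v2.sub hmeas) (by norm_num)
    have hz : Tendsto (fun n => (eLpNorm (fun p : ℝ≥0 × Ω => (ψ n).val p.1 p.2
          - S.op (t - p.1) (gg K q Wt a e T W id p.1 p.2)) 2
            ((timeMeasure.restrict (Set.Iic t)).prod P)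
          + eLpNorm (fun p : ℝ≥0 × Ω => (χ n).val p.1 p.2
          - S.op (t - p.1) (gg K q Wt a e T W id p.1 p.2)) 2
            ((timeMeasure.restrict (Set.Iic t)).prod P))
          + eLpNorm (fun ω => (χ n).integral W t ω - I ω) 2 P) atTop (𝓝 ((0 + 0) + 0)) :=
      (hψ2.add hχ1).add hχ2
    simp only [add_zero] at hz
    exact tendsto_of_tendsto_of_tendsto_of_le_of_le tendsto_const_nhds hz (fun _ => bot_le) hb
  set J : Ω → ℝ := fun ω => ∑ k ∈ Finset.range (K N),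
        (W (min (tm K T N (k + 1)) t) ω - W (min (tm K T N k) t) ω)
          * φ N (YY K q Wt a e T W N k t ω) with hJ
  have hconst : ∀ n, N < n → ∀ ω, φ N ((ψ n).integral W t ω) = J ω := by
    intro n hn ω
    rw [hψ1, map_sum]
    rw [Finset.sum_eq_single N]
    · rw [map_sum, hJ]
      refine Finset.sum_congr rfl fun k _ => ?_
      rw [map_smul, smul_eq_mul]
    · intro N' _ hN'
      rw [map_sum]
      refine Finset.sum_eq_zero fun k _ => ?_
      rw [map_smul]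
      have : φ N (YY K q Wt a e T W N' k t ω) = 0 := by
        unfold YY
        rw [map_sum]
        refine Finset.sum_eq_zero fun i _ => ?_
        rw [map_smul, hφ2 N N' i (Ne.symm hN'), smul_zero]
      rw [this, smul_zero]
    · intro h
      exact absurd (Finset.mem_range.2 hn) h
  have hle : ∀ n, N < n → eLpNorm (fun ω => φ N (I ω) - J ω) 2 P
      ≤ eLpNorm (fun ω => (ψ n).integral W t ω - I ω) 2 P := by
    intro n hn
    refine eLpNorm_mono fun ω => ?_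
    rw [← hconst n hn ω, ← map_sub, Real.norm_eq_abs, norm_sub_rev]
    exact hφ1 N _
  have h0 : eLpNorm (fun ω => φ N (I ω) - J ω) 2 P = 0 := by
    refine le_antisymm (ge_of_tendsto hlim ?_) bot_le
    exact (eventually_gt_atTop N).mono fun n hn => hle n hn
  have hmJ : AEStronglyMeasurable J P := by
    have h1 := ((ψ (N + 1)).memLp_integral hW ht).aestronglyMeasurable
    have h2 := (φ N).continuous.comp_aestronglyMeasurable h1
    refine h2.congr (Eventually.of_forall fun ω => ?_)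
    exact hconst (N + 1) (Nat.lt_succ_self N) ω
  have hmI : AEStronglyMeasurable (fun ω => φ N (I ω)) P :=
    (φ N).continuous.comp_aestronglyMeasurable hIm
  have h1 := (eLpNorm_eq_zero_iff (hmI.sub hmJ) (by norm_num)).1 h0
  filter_upwards [h1] with ω hω
  simpa [sub_eq_zero] using hω

end main

end total

end Pool.Agent.StochConv
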