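import Pool.Agent.StochConv.Space
import Pool.Agent.StochConv.Total

/-!
# Conclusion: a stochastic convolution in a Hilbert space without continuous version
-/

open MeasureTheory ProbabilityTheory Filter Topology
open scoped NNReal ENNReal

namespace Pool.Agent.StochConv

section final

variable {Ω : Type*} {mΩ : MeasurableSpace Ω}
  {X : Type*} [NormedAddCommGroup X] [InnerProductSpace ℝ X]
  {K : ℕ → ℕ} {q : ℕ → ℕ} {Wt : ℕ → ℕ → ℕ} {a : ℕ → ℕ → ℝ} {e : ℕ → ℕ → X}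
  {T : ℝ≥0} {W : ℝ≥0 → Ω → ℝ}

/-- the components at grid times are the coefficients of the strategy -/
lemma component_eq (hK : ∀ N, 0 < K N) {φ : ℕ → X →L[ℝ] ℝ} (N : ℕ) {k' : ℕ} (hk' : k' ≤ K N)
    (ω : Ω) :
    ∑ k ∈ Finset.range (K N),
        (W (min (tm K T N (k + 1)) (tm K T N k')) ω - W (min (tm K T N k) (tm K T N k')) ω)
          * φ N (YY K q Wt a e T W N k (tm K T N k') ω)
      = cc q T N * ∑ i ∈ Finset.range (q N), φ N (e N i)
        * coef (Wt N) (q N) (Real.exp (-(a N i))) (fun l => xi K T W N l ω) i k' := by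
  have hη : (0 : ℝ) < eta K N := by exact_mod_cast eta_pos hK N
  have hsη : 0 < √(eta K N : ℝ) := Real.sqrt_pos.2 hη
  -- terms with `k ≥ k'` vanish
  have h1 : ∑ k ∈ Finset.range (K N),
        (W (min (tm K T N (k + 1)) (tm K T N k')) ω - W (min (tm K T N k) (tm K T N k')) ω)
          * φ N (YY K q Wt a e T W N k (tm K T N k') ω)
      = ∑ k ∈ Finset.range k',
        (W (min (tm K T N (k + 1)) (tm K T N k')) ω - W (min (tm K T N k) (tm K T N k')) ω)
          * φ N (YY K q Wt a e T W N k (tm K T N k') ω) := by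
    symm
    refine Finset.sum_subset (Finset.range_mono hk') fun k _ hk => ?_
    have hkk : k' ≤ k := by simpa using hk
    rw [min_eq_right (tm_mono T N hkk), min_eq_right (tm_mono T N (hkk.trans (Nat.le_succ k)))]
    simp
  rw [h1]
  have h2 : ∀ k ∈ Finset.range k',
      (W (min (tm K T N (k + 1)) (tm K T N k')) ω - W (min (tm K T N k) (tm K T N k')) ω)
          * φ N (YY K q Wt a e T W N k (tm K T N k') ω)
      = ∑ i ∈ Finset.range (q N), cc q T N * (φ N (e N i)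
        * (Real.exp (-(a N i)) ^ (k' - k)
          * (act (Wt N) (q N) (fun l => xi K T W N l ω) i k * xi K T W N k ω))) := by
    intro k hk
    have hkk : k < k' := Finset.mem_range.1 hk
    rw [min_eq_left (tm_mono T N (by omega : k + 1 ≤ k')), min_eq_left (tm_mono T N hkk.le)]
    unfold YY
    rw [map_sum, Finset.mul_sum]
    refine Finset.sum_congr rfl fun i _ => ?_
    rw [map_smul, smul_eq_mul]
    have h3 : W (tm K T N (k + 1)) ω - W (tm K T N k) ω
        = √(eta K N : ℝ) * xi K T W N k ω := by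
      unfold xi; field_simp
    have h4 : ((tm K T N k' : ℝ≥0) : ℝ) - tm K T N k = ((k' - k : ℕ) : ℝ) * (eta K N : ℝ) := by
      have : tm K T N k' = tm K T N k + ((k' - k : ℕ) : ℝ≥0) * eta K N := by
        rw [← tm_add]; congr 1; omega
      rw [this, NNReal.coe_add, NNReal.coe_mul, NNReal.coe_natCast]
      ring
    have h5 : Real.exp (-(lam K a N i * (((tm K T N k' : ℝ≥0) : ℝ) - tm K T N k)))
        = Real.exp (-(a N i)) ^ (k' - k) := by
      rw [h4, ← Real.exp_nat_mul]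
      congr 1
      unfold lam
      field_simp
    rw [h3, h5]
    unfold ac
    field_simp
  rw [Finset.sum_congr rfl h2, Finset.sum_comm, Finset.mul_sum]
  refine Finset.sum_congr rfl fun i _ => ?_
  unfold coef
  rw [Finset.mul_sum, Finset.mul_sum]

variable [CompleteSpace X] {𝓕 : Filtration ℝ≥0 mΩ} {P : Measure Ω}

omit [CompleteSpace X] in
/-- Almost every path of every version of the stochastic convolution is unbounded. -/
theorem ae_unbounded (S : C0Semigroup X) (hT : 0 < T) (hW : IsBrownianMotionOn 𝓕 W P T)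
    (hK : ∀ N, 0 < K N)
    (hq : ∀ N, 0 < q N) (ha : ∀ N i, 0 < a N i) (he : ∀ N i, ‖e N i‖ ^ 2 ≤ 2)
    (hS : ∀ N i, i < q N → ∀ t : ℝ≥0, S.op t (e N i) = Real.exp (-(lam K a N i * t)) • e N i)
    {φ : ℕ → X →L[ℝ] ℝ} (hφ1 : ∀ N x, |φ N x| ≤ ‖x‖)
    (hφ2 : ∀ N N' i, N ≠ N' → φ N (e N' i) = 0) (hφ3 : ∀ N i, 0 ≤ φ N (e N i))
    (hφ4 : ∀ N : ℕ, (((N : ℝ) + 1) * 2 ^ N) * √(q N) ≤ ∑ i ∈ Finset.range (q N), φ N (e N i))
    (h1 : ∀ N, (∑ i ∈ Finset.range (q N),
      (a N i * (1 + ∑ j ∈ Finset.range i, (1 + (Wt N j : ℝ)) * (1 / pGauss))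
        + Real.exp (-(a N i * Wt N i)) * (1 / pGauss)) ≤ (1 / 2) ^ N))
    (h2 : ∀ N, ∑ j ∈ Finset.range (q N), (1 + (Wt N j : ℝ)) * (1 / pGauss) ≤ (1 / 2) ^ N * K N)
    {u : ℝ≥0 → Ω → X}
    (hu : IsStochConvolution 𝓕 W P S T (fun s ω => gg K q Wt a e T W id s ω) u) :
    ∀ᵐ ω ∂P, ∀ C : ℝ, ∃ t ≤ T, C ≤ ‖u t ω‖ := by
  have hP := hW.isProb
  -- identification at all the grid times
  have hid : ∀ᵐ ω ∂P, ∀ N k : ℕ, k ≤ K N → (1 / 2 : ℝ≥0) ^ N ≤ T →
      φ N (u (tm K T N k) ω) = cc q T N * ∑ i ∈ Finset.range (q N), φ N (e N i)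
        * coef (Wt N) (q N) (Real.exp (-(a N i))) (fun l => xi K T W N l ω) i k := by
    rw [ae_all_iff]; intro N
    rw [ae_all_iff]; intro k
    by_cases hk : k ≤ K N
    · by_cases hN : (1 / 2 : ℝ≥0) ^ N ≤ T
      · have := fun_ito_eq S hW hK hq ha he hS hφ1 hφ2 N (tm_le_T hK T N hN hk)
          (hu (tm K T N k) (tm_le_T hK T N hN hk))
        filter_upwards [this] with ω hω _ _
        rw [hω, component_eq hK N hk]
      · exact Eventually.of_forall fun ω _ h => absurd h hN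
    · exact Eventually.of_forall fun ω h => absurd h hk
  -- Borel-Cantelli
  have hBC : ∀ᵐ ω ∂P, ∀ᶠ N in atTop,
      ω ∉ {ω | (1 / 2 : ℝ≥0) ^ N ≤ T ∧ ω ∈ (goodSet (Wt N) (q N) (K N) (a N) (xi K T W N))ᶜ} := by
    refine ae_eventually_notMem ?_
    have hle : ∀ N,
        P {ω | (1 / 2 : ℝ≥0) ^ N ≤ T ∧ ω ∈ (goodSet (Wt N) (q N) (K N) (a N) (xi K T W N))ᶜ}
        ≤ ENNReal.ofReal (3 * (1 / 2) ^ N) := by
      intro N
      by_cases hN : (1 / 2 : ℝ≥0) ^ N ≤ T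
      · have h := (gaussNoise hW hK hN).measure_goodSet_compl (hK N) (ha N) (h1 N) (h2 N)
        have e0 : {ω | (1 / 2 : ℝ≥0) ^ N ≤ T
            ∧ ω ∈ (goodSet (Wt N) (q N) (K N) (a N) (xi K T W N))ᶜ}
            = (goodSet (Wt N) (q N) (K N) (a N) (xi K T W N))ᶜ := by
          ext ω; exact and_iff_right hN
        rw [e0, ← ENNReal.ofReal_toReal (measure_ne_top P _)]
        exact ENNReal.ofReal_le_ofReal h
      · have e0 : {ω | (1 / 2 : ℝ≥0) ^ N ≤ T
            ∧ ω ∈ (goodSet (Wt N) (q N) (K N) (a N) (xi K T W N))ᶜ} = ∅ := by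
          ext ω
          exact ⟨fun h => absurd h.1 hN, fun h => absurd h (Set.notMem_empty ω)⟩
        rw [e0, measure_empty]
        exact bot_le
    refine ne_top_of_le_ne_top ?_ (ENNReal.tsum_le_tsum hle)
    rw [← ENNReal.ofReal_tsum_of_nonneg (fun N => by positivity)
      (summable_geometric_two.mul_left 3)]
    exact ENNReal.ofReal_ne_top
  have hev : ∀ᶠ N : ℕ in atTop, (1 / 2 : ℝ≥0) ^ N ≤ T := by
    have : Tendsto (fun N : ℕ => (1 / 2 : ℝ≥0) ^ N) atTop (𝓝 0) :=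
      tendsto_pow_atTop_nhds_zero_of_lt_one (by norm_num) (by norm_num)
    exact (this.eventually (gt_mem_nhds hT)).mono fun N h => h.le
  filter_upwards [hid, hBC] with ω hω1 hω2
  intro C
  obtain ⟨N, hN1, hN2, hN3⟩ := (hω2.and (hev.and (eventually_ge_atTop ⌈C⌉₊))).exists
  have hN1' : ω ∈ goodSet (Wt N) (q N) (K N) (a N) (xi K T W N) := by
    by_contra hcon
    exact hN1 ⟨hN2, hcon⟩
  obtain ⟨k, hk, hgood⟩ := hN1'
  refine ⟨tm K T N k, tm_le_T hK T N hN2 hk, ?_⟩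
  have hq' : (0 : ℝ) < √(q N) := Real.sqrt_pos.2 (by exact_mod_cast hq N)
  have e1 := hω1 N k hk hN2
  have hcc : cc q T N = 2 * (1 / 2) ^ N / √(q N) := by
    unfold cc; rw [if_pos hN2]
  have e2 : (1 / 2) * ∑ i ∈ Finset.range (q N), φ N (e N i)
      ≤ ∑ i ∈ Finset.range (q N), φ N (e N i)
        * coef (Wt N) (q N) (Real.exp (-(a N i))) (fun l => xi K T W N l ω) i k := by
    rw [Finset.mul_sum]
    refine Finset.sum_le_sum fun i hi => ?_
    rw [mul_comm]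
    exact mul_le_mul_of_nonneg_left (hgood i (Finset.mem_range.1 hi)) (hφ3 N i)
  have e3 : ((N : ℝ) + 1) ≤ φ N (u (tm K T N k) ω) := by
    rw [e1]
    have hcpos : 0 ≤ cc q T N := cc_nonneg N
    calc ((N : ℝ) + 1) = cc q T N * ((1 / 2) * ((((N : ℝ) + 1) * 2 ^ N) * √(q N))) := by
          rw [hcc]
          have h7 : (1 / 2 : ℝ) ^ N * 2 ^ N = 1 := by rw [← mul_pow]; norm_num
          have h8 : 2 * (1 / 2 : ℝ) ^ N / √(q N) * ((1 / 2) * ((((N : ℝ) + 1) * 2 ^ N) * √(q N)))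
              = ((N : ℝ) + 1) * ((1 / 2 : ℝ) ^ N * 2 ^ N) * (√(q N) / √(q N)) := by ring
          rw [h8, h7, div_self hq'.ne', mul_one, mul_one]
      _ ≤ cc q T N * ((1 / 2) * ∑ i ∈ Finset.range (q N), φ N (e N i)) := by
          gcongr
          exact hφ4 N
      _ ≤ _ := by gcongr
  have e4 : C ≤ N := (Nat.le_ceil C).trans (by exact_mod_cast hN3)
  calc C ≤ (N : ℝ) + 1 := by linarith
    _ ≤ φ N (u (tm K T N k) ω) := e3
    _ ≤ |φ N (u (tm K T N k) ω)| := le_abs_self _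
    _ ≤ _ := hφ1 N _

end final

/-- every real inner product space is 2-smooth with constant `1` -/
lemma twoSmooth_inner (X : Type*) [NormedAddCommGroup X] [InnerProductSpace ℝ X] :
    TwoSmooth X := by
  refine ⟨1, le_rfl, fun x y => ?_⟩
  have := parallelogram_law_with_norm ℝ x y
  nlinarith

lemma IsItoIntegral.congr {Ω : Type*} {mΩ : MeasurableSpace Ω} {X : Type*}
    [NormedAddCommGroup X] [NormedSpace ℝ X] {𝓕 : Filtration ℝ≥0 mΩ} {W : ℝ≥0 → Ω → ℝ}
    {P : Measure Ω} {t : ℝ≥0} {φ : ℝ≥0 → Ω → X} {I J : Ω → X}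
    (h : IsItoIntegral 𝓕 W P t φ I) (hIJ : J =ᵐ[P] I) : IsItoIntegral 𝓕 W P t φ J := by
  obtain ⟨hm, ψ, h1, h2⟩ := h
  refine ⟨hm.congr hIJ.symm, ψ, h1, ?_⟩
  refine h2.congr fun n => ?_
  refine eLpNorm_congr_ae ?_
  filter_upwards [hIJ] with ω hω
  rw [hω]

/-- The general conclusion. -/
theorem exists_no_continuous_version :
    ∃ (X : Type) (_ : NormedAddCommGroup X) (_ : InnerProductSpace ℝ X) (_ : CompleteSpace X)
      (S : C0Semigroup X), TwoSmooth X ∧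
      ∀ (T : ℝ≥0), 0 < T →
      ∀ {Ω : Type*} [mΩ : MeasurableSpace Ω] (𝓕 : Filtration ℝ≥0 mΩ) (W : ℝ≥0 → Ω → ℝ)
        (P : Measure Ω), IsBrownianMotionOn 𝓕 W P T →
      ∃ g : ℝ≥0 → Ω → X, IsStronglyProgressive 𝓕 g ∧
        MemLp (fun p : ℝ≥0 × Ω => g p.1 p.2) 2 ((timeMeasure.restrict (Set.Iic T)).prod P) ∧
        (∃ u, IsStochConvolution 𝓕 W P S T g u) ∧
        ∀ u, IsStochConvolution 𝓕 W P S T g u → ¬ HasContinuousVersion P T u := by
  obtain ⟨q, hq, hX⟩ := exists_space (fun N => ((N : ℝ) + 1) * 2 ^ N)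
  choose Wt a K hK ha hanti h1 h2 using fun N =>
    exists_params (q N) pGauss_pos (δ := (1 / 2 : ℝ) ^ N) (by positivity)
  obtain ⟨X, i1, i2, i3, S, e, φ, hS, he, hφ1, hφ2, hφ3, hφ4⟩ := hX (lam K a)
    (fun N i => div_nonneg (ha N i).le (NNReal.coe_nonneg _))
    (fun N i j hij => div_le_div_of_nonneg_right (hanti N i j hij) (NNReal.coe_nonneg _))
  refine ⟨X, i1, i2, i3, S, twoSmooth_inner X, fun T hT Ω mΩ 𝓕 W P hW => ?_⟩
  have hP := hW.isProb
  refine ⟨fun s ω => gg K q Wt a e T W id s ω, progressive_gg hW hK,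
    memLp_gg hW hK hq ha he T measurable_id (fun s _ => le_rfl),
    exists_stochConvolution S hW hK hq ha he hS, fun u hu => ?_⟩
  rintro ⟨v, hvu, hvc⟩
  have hv : IsStochConvolution 𝓕 W P S T (fun s ω => gg K q Wt a e T W id s ω) v :=
    fun t ht => (hu t ht).congr (hvu t ht)
  have hub := ae_unbounded S hT hW hK hq ha he hS hφ1 hφ2 hφ3 hφ4 h1 h2 hv
  obtain ⟨ω, hω⟩ := hub.exists
  obtain ⟨C, hC⟩ := isCompact_Icc.exists_bound_of_continuousOn (hvc ω)
  obtain ⟨t, ht, htC⟩ := hω (C + 1)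
  have := hC t ⟨bot_le, ht⟩
  linarith

end Pool.Agent.StochConv
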