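import Pool.Agent.StochConv.Defs

/-!
# The Ito isometry for adapted step processes with values in a real inner product space
-/

open MeasureTheory ProbabilityTheory Filter Topology
open scoped NNReal ENNReal

namespace Pool.Agent.StochConv

/-! ### Lebesgue measure on the time axis -/

lemma measurableEmbedding_nnreal_coe : MeasurableEmbedding ((↑) : ℝ≥0 → ℝ) :=
  MeasurableEmbedding.subtype_coe measurableSet_Ici

lemma timeMeasure_apply (s : Set ℝ≥0) :
    timeMeasure s = volume (((↑) : ℝ≥0 → ℝ) '' s) :=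
  measurableEmbedding_nnreal_coe.comap_apply _ _

lemma image_coe_Ioc (a b : ℝ≥0) :
    ((↑) : ℝ≥0 → ℝ) '' (Set.Ioc a b) = Set.Ioc (a : ℝ) b := by
  ext x
  constructor
  · rintro ⟨y, hy, rfl⟩
    exact ⟨by exact_mod_cast hy.1, by exact_mod_cast hy.2⟩
  · intro hx
    refine ⟨⟨x, a.2.trans hx.1.le⟩, ⟨?_, ?_⟩, rfl⟩
    · exact_mod_cast hx.1
    · exact_mod_cast hx.2

lemma timeMeasure_Ioc (a b : ℝ≥0) : timeMeasure (Set.Ioc a b) = ((b - a : ℝ≥0) : ℝ≥0∞) := by
  rw [timeMeasure_apply, image_coe_Ioc, Real.volume_Ioc, NNReal.sub_def]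
  rfl

lemma timeMeasure_singleton (a : ℝ≥0) : timeMeasure {a} = 0 := by
  rw [timeMeasure_apply]; simp

lemma timeMeasure_Iic (a : ℝ≥0) : timeMeasure (Set.Iic a) = (a : ℝ≥0∞) := by
  rw [timeMeasure_apply]
  have : ((↑) : ℝ≥0 → ℝ) '' (Set.Iic a) = Set.Icc (0 : ℝ) a := by
    ext x
    constructor
    · rintro ⟨y, hy, rfl⟩
      exact ⟨y.2, by exact_mod_cast hy⟩
    · intro hx
      exact ⟨⟨x, hx.1⟩, by exact_mod_cast hx.2, rfl⟩
  rw [this, Real.volume_Icc]
  simp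

instance : IsFiniteMeasureOnCompacts timeMeasure where
  lt_top_of_isCompact := by
    intro K hK
    obtain ⟨a, ha⟩ := hK.bddAbove
    refine (measure_mono (fun x hx => Set.mem_Iic.2 (ha hx))).trans_lt ?_
    rw [timeMeasure_Iic]
    exact ENNReal.coe_lt_top

instance (t : ℝ≥0) : IsFiniteMeasure (timeMeasure.restrict (Set.Iic t)) := by
  refine ⟨?_⟩
  rw [Measure.restrict_apply_univ, timeMeasure_Iic]
  exact ENNReal.coe_lt_top

/-! ### Increments of Brownian motion -/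

section incr

variable {Ω : Type*} {mΩ : MeasurableSpace Ω} {𝓕 : Filtration ℝ≥0 mΩ} {W : ℝ≥0 → Ω → ℝ}
  {P : Measure Ω} {T : ℝ≥0}

lemma IsBrownianMotionOn.isProb (hW : IsBrownianMotionOn 𝓕 W P T) :
    IsProbabilityMeasure P := hW.isProbabilityMeasure

lemma IsBrownianMotionOn.stronglyMeasurable_incr (hW : IsBrownianMotionOn 𝓕 W P T)
    {s t u : ℝ≥0} (hs : s ≤ u) (ht : t ≤ u) (hsT : s ≤ T) (htT : t ≤ T) :
    StronglyMeasurable[𝓕 u] (fun ω => W t ω - W s ω) :=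
  ((hW.adapted t htT).mono (𝓕.mono ht)).sub ((hW.adapted s hsT).mono (𝓕.mono hs))

lemma IsBrownianMotionOn.hasLaw (hW : IsBrownianMotionOn 𝓕 W P T)
    {s t : ℝ≥0} (hst : s ≤ t) (htT : t ≤ T) :
    HasLaw (fun ω => W t ω - W s ω) (gaussianReal 0 (t - s)) P := hW.law s t hst htT

lemma IsBrownianMotionOn.memLp (hW : IsBrownianMotionOn 𝓕 W P T)
    {s t : ℝ≥0} (hsT : s ≤ T) (htT : t ≤ T) : MemLp (fun ω => W t ω - W s ω) 2 P := by
  rcases le_total s t with h | h
  · exact (hW.hasLaw h htT).hasGaussianLaw.memLp_two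
  · have h1 : MemLp (fun ω => W s ω - W t ω) 2 P := (hW.hasLaw h hsT).hasGaussianLaw.memLp_two
    have h2 := h1.neg
    refine (memLp_congr_ae (Eventually.of_forall fun ω => ?_)).1 h2
    simp

lemma IsBrownianMotionOn.integrable (hW : IsBrownianMotionOn 𝓕 W P T)
    {s t : ℝ≥0} (hsT : s ≤ T) (htT : t ≤ T) : Integrable (fun ω => W t ω - W s ω) P :=
  have := hW.isProb
  (hW.memLp hsT htT).integrable (by norm_num)

lemma IsBrownianMotionOn.integral_incr (hW : IsBrownianMotionOn 𝓕 W P T)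
    {s t : ℝ≥0} (hst : s ≤ t) (htT : t ≤ T) : ∫ ω, (W t ω - W s ω) ∂P = 0 := by
  rw [(hW.hasLaw hst htT).integral_eq, integral_id_gaussianReal]

lemma IsBrownianMotionOn.integral_incr_sq (hW : IsBrownianMotionOn 𝓕 W P T)
    {s t : ℝ≥0} (hst : s ≤ t) (htT : t ≤ T) : ∫ ω, (W t ω - W s ω) ^ 2 ∂P = t - s := by
  have := hW.isProb
  have h1 := (hW.hasLaw hst htT).variance_eq
  rw [variance_id_gaussianReal, variance_of_integral_eq_zero
    (hW.integrable (hst.trans htT) htT).aemeasurable (hW.integral_incr hst htT)] at h1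
  rw [h1, NNReal.coe_sub hst]

lemma IsBrownianMotionOn.indepFun (hW : IsBrownianMotionOn 𝓕 W P T)
    {s t : ℝ≥0} (hst : s ≤ t) (htT : t ≤ T) {E : Type*} [MeasurableSpace E] {Z : Ω → E}
    (hZ : Measurable[𝓕 s] Z) :
    IndepFun Z (fun ω => W t ω - W s ω) P := by
  rw [IndepFun_iff_Indep]
  exact indep_of_indep_of_le_left (hW.indep s t hst htT) (hZ.comap_le)

/-- An increment after time `s` is orthogonal to every `𝓕 s`-measurable variable. -/
lemma IsBrownianMotionOn.integral_mul_incr (hW : IsBrownianMotionOn 𝓕 W P T)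
    {s t : ℝ≥0} (hst : s ≤ t) (htT : t ≤ T) {Z : Ω → ℝ} (hZ : StronglyMeasurable[𝓕 s] Z) :
    ∫ ω, Z ω * (W t ω - W s ω) ∂P = 0 := by
  have h := (hW.indepFun hst htT hZ.measurable).integral_mul_eq_mul_integral
    (hZ.mono (𝓕.le s)).aestronglyMeasurable
    (hW.integrable (hst.trans htT) htT).aestronglyMeasurable
  rw [hW.integral_incr hst htT, mul_zero] at h
  exact h

lemma IsBrownianMotionOn.integral_mul_incr_sq (hW : IsBrownianMotionOn 𝓕 W P T)
    {s t : ℝ≥0} (hst : s ≤ t) (htT : t ≤ T) {Z : Ω → ℝ} (hZ : StronglyMeasurable[𝓕 s] Z) :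
    ∫ ω, Z ω * (W t ω - W s ω) ^ 2 ∂P = (∫ ω, Z ω ∂P) * (t - s) := by
  have h0 := (hW.indepFun hst htT hZ.measurable).comp (φ := id) (ψ := fun x : ℝ => x ^ 2)
    measurable_id (by fun_prop)
  have h := h0.integral_mul_eq_mul_integral
    (hZ.mono (𝓕.le s)).aestronglyMeasurable
    ((hW.integrable (hst.trans htT) htT).aestronglyMeasurable.pow 2)
  have e := hW.integral_incr_sq hst htT
  simp only [Function.comp_def, id, Pi.mul_apply] at h
  rw [h, e]

/-- Covariance of two boxes. -/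
lemma IsBrownianMotionOn.integral_incr_mul_incr_aux (hW : IsBrownianMotionOn 𝓕 W P T)
    {a b a' b' : ℝ≥0} (haT : a ≤ T) (hbT : b ≤ T) (hb'T : b' ≤ T)
    (hab' : a' ≤ b') (haa' : a ≤ a') {Z : Ω → ℝ}
    (hZ : StronglyMeasurable[𝓕 a'] Z) {C : ℝ} (hC : ∀ ω, ‖Z ω‖ ≤ C) :
    ∫ ω, (W b ω - W a ω) * (W b' ω - W a' ω) * Z ω ∂P
      = ((min b b' - max a a' : ℝ≥0) : ℝ) * ∫ ω, Z ω ∂P := by
  have hP := hW.isProb
  have ha'T : a' ≤ T := hab'.trans hb'T
  have hZm : AEStronglyMeasurable Z P := (hZ.mono (𝓕.le a')).aestronglyMeasurable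
  have key : ∀ s t s' t' : ℝ≥0, s ≤ T → t ≤ T → s' ≤ T → t' ≤ T → Integrable
      (fun ω => Z ω * ((W t ω - W s ω) * (W t' ω - W s' ω))) P := by
    intro s t s' t' h1 h2 h3 h4
    exact ((hW.memLp h1 h2).integrable_mul (hW.memLp h3 h4)).bdd_mul hZm
      (Eventually.of_forall hC)
  rw [max_eq_right haa']
  rcases le_total b a' with hba | hba
  · -- disjoint
    have h0 : (min b b' - a' : ℝ≥0) = 0 := by
      rw [tsub_eq_zero_iff_le]; exact (min_le_left _ _).trans hba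
    rw [h0]
    have hz : StronglyMeasurable[𝓕 a'] (fun ω => (W b ω - W a ω) * Z ω) :=
      (hW.stronglyMeasurable_incr haa' hba haT hbT).mul hZ
    have := hW.integral_mul_incr hab' hb'T hz
    simp only [NNReal.coe_zero, zero_mul]
    rw [← this]
    congr 1
    ext ω; ring
  · -- overlapping
    set m := min b b' with hm
    have ham : a' ≤ m := le_min hba hab'
    have hmT : m ≤ T := (min_le_left _ _).trans hbT
    have hMT : max b b' ≤ T := max_le hbT hb'T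
    -- first part
    have h1 : ∫ ω, (Z ω * (W a' ω - W a ω)) * (W b' ω - W a' ω) ∂P = 0 :=
      hW.integral_mul_incr hab' hb'T
        (hZ.mul (hW.stronglyMeasurable_incr haa' le_rfl haT ha'T))
    have h2 : ∫ ω, Z ω * (W m ω - W a' ω) ^ 2 ∂P = (∫ ω, Z ω ∂P) * (m - a') :=
      hW.integral_mul_incr_sq ham hmT hZ
    have h3 : ∫ ω, (Z ω * (W m ω - W a' ω)) * (W (max b b') ω - W m ω) ∂P = 0 := by
      refine hW.integral_mul_incr (min_le_max) hMT ?_
      exact (hZ.mono (𝓕.mono ham)).mul (hW.stronglyMeasurable_incr ham le_rfl ha'T hmT)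
    have hbb : ∀ ω, (W b ω - W a' ω) * (W b' ω - W a' ω)
        = (W m ω - W a' ω) ^ 2 + (W m ω - W a' ω) * (W (max b b') ω - W m ω) := by
      intro ω
      rcases le_total b b' with h | h
      · rw [hm, min_eq_left h, max_eq_right h]; ring
      · rw [hm, min_eq_right h, max_eq_left h]; ring
    have e : ∀ ω, (W b ω - W a ω) * (W b' ω - W a' ω) * Z ω
        = (Z ω * (W a' ω - W a ω)) * (W b' ω - W a' ω)
          + (Z ω * (W m ω - W a' ω) ^ 2
            + (Z ω * (W m ω - W a' ω)) * (W (max b b') ω - W m ω)) := by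
      intro ω
      have := hbb ω
      linear_combination (Z ω) * this
    have i1 : Integrable (fun ω => (Z ω * (W a' ω - W a ω)) * (W b' ω - W a' ω)) P := by
      refine (key a a' a' b' haT ha'T ha'T hb'T).congr (Eventually.of_forall fun ω => ?_)
      simp only; ring
    have i2 : Integrable (fun ω => Z ω * (W m ω - W a' ω) ^ 2) P := by
      refine (key a' m a' m ha'T hmT ha'T hmT).congr (Eventually.of_forall fun ω => ?_)
      simp only; ring
    have i3 : Integrable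
        (fun ω => (Z ω * (W m ω - W a' ω)) * (W (max b b') ω - W m ω)) P := by
      refine (key a' m m (max b b') ha'T hmT hmT hMT).congr (Eventually.of_forall fun ω => ?_)
      simp only; ring
    have i23 : Integrable (fun ω => Z ω * (W m ω - W a' ω) ^ 2
        + (Z ω * (W m ω - W a' ω)) * (W (max b b') ω - W m ω)) P := i2.add i3
    simp_rw [e]
    rw [integral_add i1 i23, integral_add i2 i3, h1, h2, h3, NNReal.coe_sub ham]
    ring

lemma IsBrownianMotionOn.integral_incr_mul_incr (hW : IsBrownianMotionOn 𝓕 W P T)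
    {a b a' b' : ℝ≥0} (hbT : b ≤ T) (hb'T : b' ≤ T) (hab : a ≤ b) (hab' : a' ≤ b') {Z : Ω → ℝ}
    (hZ : StronglyMeasurable[𝓕 (max a a')] Z) {C : ℝ} (hC : ∀ ω, ‖Z ω‖ ≤ C) :
    ∫ ω, (W b ω - W a ω) * (W b' ω - W a' ω) * Z ω ∂P
      = ((min b b' - max a a' : ℝ≥0) : ℝ) * ∫ ω, Z ω ∂P := by
  rcases le_total a a' with h | h
  · rw [max_eq_right h] at hZ
    exact hW.integral_incr_mul_incr_aux (hab.trans hbT) hbT hb'T hab' h hZ hC
  · rw [max_eq_left h] at hZ
    have := hW.integral_incr_mul_incr_aux (b := b') (hab'.trans hb'T) hb'T hbT hab h hZ hC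
    rw [min_comm, max_comm, ← this]
    congr 1
    ext ω; ring

end incr

/-! ### The isometry for finite families of boxes -/

section isometry

variable {Ω : Type*} {mΩ : MeasurableSpace Ω} {𝓕 : Filtration ℝ≥0 mΩ} {W : ℝ≥0 → Ω → ℝ}
  {P : Measure Ω} {T : ℝ≥0} {X : Type*} [NormedAddCommGroup X] [InnerProductSpace ℝ X]
  {ι : Type*} [Fintype ι]

/-- value of a finite sum of boxes -/
noncomputable def boxVal (lo hi : ι → ℝ≥0) (η : ι → Ω → X) (s : ℝ≥0) (ω : Ω) : X :=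
  ∑ i, (Set.Ioc (lo i) (hi i)).indicator (fun _ => η i ω) s

/-- integral of a finite sum of boxes -/
noncomputable def boxInt (W : ℝ≥0 → Ω → ℝ) (t : ℝ≥0) (lo hi : ι → ℝ≥0) (η : ι → Ω → X)
    (ω : Ω) : X :=
  ∑ i, (W (min (hi i) t) ω - W (min (lo i) t) ω) • η i ω

lemma boxInt_term_memLp (hW : IsBrownianMotionOn 𝓕 W P T) {t : ℝ≥0} (ht : t ≤ T) (a b : ℝ≥0) {η : Ω → X}
    (hη : StronglyMeasurable[𝓕 a] η) (hb : ∃ C : ℝ, ∀ ω, ‖η ω‖ ≤ C) :
    MemLp (fun ω => (W (min b t) ω - W (min a t) ω) • η ω) 2 P := by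
  have := hW.isProb
  obtain ⟨C, hC⟩ := hb
  have h1 : MemLp η ∞ P :=
    memLp_top_of_bound (hη.mono (𝓕.le a)).aestronglyMeasurable C (Eventually.of_forall hC)
  exact h1.smul (hW.memLp ((min_le_right a t).trans ht) ((min_le_right b t).trans ht))

lemma boxInt_memLp (hW : IsBrownianMotionOn 𝓕 W P T) {t : ℝ≥0} (ht : t ≤ T) {lo hi : ι → ℝ≥0}
    {η : ι → Ω → X} (hη : ∀ i, StronglyMeasurable[𝓕 (lo i)] (η i))
    (hb : ∀ i, ∃ C : ℝ, ∀ ω, ‖η i ω‖ ≤ C) :
    MemLp (boxInt W t lo hi η) 2 P := by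
  have : boxInt W t lo hi η
      = fun ω => ∑ i, (W (min (hi i) t) ω - W (min (lo i) t) ω) • η i ω := rfl
  rw [this]
  exact memLp_finsetSum _ fun i _ => boxInt_term_memLp hW ht (lo i) (hi i) (hη i) (hb i)

lemma stronglyMeasurable_inner_max {a a' : ℝ≥0} {η η' : Ω → X}
    (hη : StronglyMeasurable[𝓕 a] η) (hη' : StronglyMeasurable[𝓕 a'] η') :
    StronglyMeasurable[𝓕 (max a a')] (fun ω => (inner ℝ (η ω) (η' ω) : ℝ)) :=
  (hη.mono (𝓕.mono (le_max_left _ _))).inner (hη'.mono (𝓕.mono (le_max_right _ _)))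

lemma bounded_inner {η η' : Ω → X}
    (hb : ∃ C : ℝ, ∀ ω, ‖η ω‖ ≤ C) (hb' : ∃ C : ℝ, ∀ ω, ‖η' ω‖ ≤ C) :
    ∃ C : ℝ, ∀ ω, ‖(inner ℝ (η ω) (η' ω) : ℝ)‖ ≤ C := by
  obtain ⟨C, hC⟩ := hb
  obtain ⟨C', hC'⟩ := hb'
  refine ⟨C * C', fun ω => ?_⟩
  refine (norm_inner_le_norm _ _).trans ?_
  exact mul_le_mul (hC ω) (hC' ω) (norm_nonneg _) ((norm_nonneg _).trans (hC ω))

lemma integral_box_pair (hW : IsBrownianMotionOn 𝓕 W P T) {t : ℝ≥0} (ht : t ≤ T)
    {a b a' b' : ℝ≥0}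
    (hab : a ≤ b) (hab' : a' ≤ b') {η η' : Ω → X}
    (hη : StronglyMeasurable[𝓕 a] η) (hη' : StronglyMeasurable[𝓕 a'] η')
    (hb : ∃ C : ℝ, ∀ ω, ‖η ω‖ ≤ C) (hb' : ∃ C : ℝ, ∀ ω, ‖η' ω‖ ≤ C) :
    ∫ ω, (W (min b t) ω - W (min a t) ω) * (W (min b' t) ω - W (min a' t) ω)
        * (inner ℝ (η ω) (η' ω) : ℝ) ∂P
      = ((min (min b b') t - min (max a a') t : ℝ≥0) : ℝ)
        * ∫ ω, (inner ℝ (η ω) (η' ω) : ℝ) ∂P := by
  obtain ⟨C, hC⟩ := bounded_inner hb hb'
  have hm := stronglyMeasurable_inner_max hη hη'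
  rcases le_total (max a a') t with h | h
  · have ha : min a t = a := min_eq_left ((le_max_left _ _).trans h)
    have ha' : min a' t = a' := min_eq_left ((le_max_right _ _).trans h)
    have e : min (min b b') t = min (min b t) (min b' t) := by
      rw [min_min_min_comm, min_self]
    rw [ha, ha', e, min_eq_left h]
    refine hW.integral_incr_mul_incr ((min_le_right b t).trans ht)
      ((min_le_right b' t).trans ht) ?_ ?_ hm hC
    · exact le_min hab ((le_max_left _ _).trans h)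
    · exact le_min hab' ((le_max_right _ _).trans h)
  · have h0 : (min (min b b') t - min (max a a') t : ℝ≥0) = 0 := by
      rw [tsub_eq_zero_iff_le, min_eq_right h]; exact min_le_right _ _
    rw [h0]
    rcases le_total a a' with h' | h'
    · rw [max_eq_right h'] at h
      have : min b' t = min a' t := by rw [min_eq_right h, min_eq_right (h.trans hab')]
      simp [this]
    · rw [max_eq_left h'] at h
      have : min b t = min a t := by rw [min_eq_right h, min_eq_right (h.trans hab)]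
      simp [this]

lemma integrable_box_pair (hW : IsBrownianMotionOn 𝓕 W P T) {t : ℝ≥0} (ht : t ≤ T)
    {a b a' b' : ℝ≥0}
    {η η' : Ω → X}
    (hη : StronglyMeasurable[𝓕 a] η) (hη' : StronglyMeasurable[𝓕 a'] η')
    (hb : ∃ C : ℝ, ∀ ω, ‖η ω‖ ≤ C) (hb' : ∃ C : ℝ, ∀ ω, ‖η' ω‖ ≤ C) :
    Integrable (fun ω => (W (min b t) ω - W (min a t) ω) * (W (min b' t) ω - W (min a' t) ω)
        * (inner ℝ (η ω) (η' ω) : ℝ)) P := by
  obtain ⟨C, hC⟩ := bounded_inner hb hb'
  have hm := stronglyMeasurable_inner_max hη hη'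
  have h := ((hW.memLp ((min_le_right a t).trans ht) ((min_le_right b t).trans ht)).integrable_mul
    (hW.memLp ((min_le_right a' t).trans ht) ((min_le_right b' t).trans ht))).bdd_mul
    (hm.mono (𝓕.le _)).aestronglyMeasurable (Eventually.of_forall hC)
  refine h.congr (Eventually.of_forall fun ω => ?_)
  simp only [Pi.mul_apply]; ring

lemma integral_norm_sq_boxInt (hW : IsBrownianMotionOn 𝓕 W P T) {t : ℝ≥0} (ht : t ≤ T)
    {lo hi : ι → ℝ≥0} (hle : ∀ i, lo i ≤ hi i)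
    {η : ι → Ω → X} (hη : ∀ i, StronglyMeasurable[𝓕 (lo i)] (η i))
    (hb : ∀ i, ∃ C : ℝ, ∀ ω, ‖η i ω‖ ≤ C) :
    ∫ ω, ‖boxInt W t lo hi η ω‖ ^ 2 ∂P
      = ∑ i, ∑ j, ((min (min (hi i) (hi j)) t - min (max (lo i) (lo j)) t : ℝ≥0) : ℝ)
        * ∫ ω, (inner ℝ (η i ω) (η j ω) : ℝ) ∂P := by
  have e : ∀ ω, ‖boxInt W t lo hi η ω‖ ^ 2
      = ∑ i, ∑ j, (W (min (hi i) t) ω - W (min (lo i) t) ω)
        * (W (min (hi j) t) ω - W (min (lo j) t) ω) * (inner ℝ (η i ω) (η j ω) : ℝ) := by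
    intro ω
    rw [← real_inner_self_eq_norm_sq]
    unfold boxInt
    rw [sum_inner]
    refine Finset.sum_congr rfl fun i _ => ?_
    rw [inner_sum]
    refine Finset.sum_congr rfl fun j _ => ?_
    rw [real_inner_smul_left, real_inner_smul_right]
    ring
  simp_rw [e]
  rw [integral_finsetSum]
  · refine Finset.sum_congr rfl fun i _ => ?_
    rw [integral_finsetSum]
    · refine Finset.sum_congr rfl fun j _ => ?_
      exact integral_box_pair hW ht (hle i) (hle j) (hη i) (hη j) (hb i) (hb j)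
    · exact fun j _ => integrable_box_pair hW ht (hη i) (hη j) (hb i) (hb j)
  · exact fun i _ => integrable_finsetSum _
      fun j _ => integrable_box_pair hW ht (hη i) (hη j) (hb i) (hb j)

lemma integral_norm_sq_boxVal [IsProbabilityMeasure P] (t : ℝ≥0)
    {lo hi : ι → ℝ≥0}
    {η : ι → Ω → X} (hη : ∀ i, StronglyMeasurable[𝓕 (lo i)] (η i))
    (hb : ∀ i, ∃ C : ℝ, ∀ ω, ‖η i ω‖ ≤ C) :
    ∫ p, ‖boxVal lo hi η p.1 p.2‖ ^ 2 ∂((timeMeasure.restrict (Set.Iic t)).prod P)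
      = ∑ i, ∑ j, ((min (min (hi i) (hi j)) t - min (max (lo i) (lo j)) t : ℝ≥0) : ℝ)
        * ∫ ω, (inner ℝ (η i ω) (η j ω) : ℝ) ∂P := by
  have e : ∀ p : ℝ≥0 × Ω, ‖boxVal lo hi η p.1 p.2‖ ^ 2
      = ∑ i, ∑ j, (Set.Ioc (max (lo i) (lo j)) (min (hi i) (hi j))).indicator
          (fun _ => (1 : ℝ)) p.1 * (inner ℝ (η i p.2) (η j p.2) : ℝ) := by
    intro p
    rw [← real_inner_self_eq_norm_sq]
    unfold boxVal
    rw [sum_inner]
    refine Finset.sum_congr rfl fun i _ => ?_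
    rw [inner_sum]
    refine Finset.sum_congr rfl fun j _ => ?_
    rw [← Set.Ioc_inter_Ioc]
    by_cases h1 : p.1 ∈ Set.Ioc (lo i) (hi i) <;> by_cases h2 : p.1 ∈ Set.Ioc (lo j) (hi j) <;>
      simp [Set.indicator, h1, h2, Set.mem_inter_iff]
  have hint : ∀ i j, Integrable (fun p : ℝ≥0 × Ω =>
      (Set.Ioc (max (lo i) (lo j)) (min (hi i) (hi j))).indicator
          (fun _ => (1 : ℝ)) p.1 * (inner ℝ (η i p.2) (η j p.2) : ℝ))
      ((timeMeasure.restrict (Set.Iic t)).prod P) := by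
    intro i j
    obtain ⟨C, hC⟩ := bounded_inner (hb i) (hb j)
    have hm := stronglyMeasurable_inner_max (hη i) (hη j)
    have hm' : Integrable (fun ω => (inner ℝ (η i ω) (η j ω) : ℝ)) P :=
      Integrable.of_bound (hm.mono (𝓕.le _)).aestronglyMeasurable C (Eventually.of_forall hC)
    refine Integrable.mul_prod (f := (Set.Ioc (max (lo i) (lo j)) (min (hi i) (hi j))).indicator
          (fun _ => (1 : ℝ))) ?_ hm'
    exact (integrable_const (1 : ℝ)).indicator measurableSet_Ioc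
  simp_rw [e]
  rw [integral_finsetSum]
  · refine Finset.sum_congr rfl fun i _ => ?_
    rw [integral_finsetSum]
    · refine Finset.sum_congr rfl fun j _ => ?_
      have hprod := integral_prod_mul (μ := timeMeasure.restrict (Set.Iic t)) (ν := P)
        (fun s : ℝ≥0 =>
          (Set.Ioc (max (lo i) (lo j)) (min (hi i) (hi j))).indicator (fun _ => (1 : ℝ)) s)
        (fun ω => (inner ℝ (η i ω) (η j ω) : ℝ))
      rw [hprod]
      congr 1
      rw [integral_indicator measurableSet_Ioc, setIntegral_const, smul_eq_mul, mul_one,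
        measureReal_restrict_apply measurableSet_Ioc]
      have : Set.Ioc (max (lo i) (lo j)) (min (hi i) (hi j)) ∩ Set.Iic t
          = Set.Ioc (max (lo i) (lo j)) (min (min (hi i) (hi j)) t) := by
        rw [Set.Ioc_inter_Iic]
      rw [this, Measure.real, timeMeasure_Ioc, ENNReal.coe_toReal]
      congr 1
      rcases le_total (max (lo i) (lo j)) t with h | h
      · rw [min_eq_left h]
      · rw [min_eq_right h, tsub_eq_zero_of_le ((min_le_right _ _).trans h),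
          tsub_eq_zero_of_le (min_le_right _ _)]
    · exact fun j _ => hint i j
  · exact fun i _ => integrable_finsetSum _ fun j _ => hint i j

omit [InnerProductSpace ℝ X] in
lemma stronglyMeasurable_box (a b : ℝ≥0) {η : Ω → X} (hη : StronglyMeasurable η) :
    StronglyMeasurable (fun p : ℝ≥0 × Ω => (Set.Ioc a b).indicator (fun _ => η p.2) p.1) := by
  have : (fun p : ℝ≥0 × Ω => (Set.Ioc a b).indicator (fun _ => η p.2) p.1)
      = (Set.Ioc a b ×ˢ (Set.univ : Set Ω)).indicator (fun p : ℝ≥0 × Ω => η p.2) := by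
    ext p
    by_cases h : p.1 ∈ Set.Ioc a b <;> simp [Set.indicator, h]
  rw [this]
  exact (hη.comp_measurable measurable_snd).indicator (measurableSet_Ioc.prod MeasurableSet.univ)

omit [InnerProductSpace ℝ X] in
lemma memLp_boxVal [IsProbabilityMeasure P] (t : ℝ≥0) {lo hi : ι → ℝ≥0}
    {η : ι → Ω → X} (hη : ∀ i, StronglyMeasurable (η i))
    (hb : ∀ i, ∃ C : ℝ, ∀ ω, ‖η i ω‖ ≤ C) :
    MemLp (fun p : ℝ≥0 × Ω => boxVal lo hi η p.1 p.2) 2
      ((timeMeasure.restrict (Set.Iic t)).prod P) := by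
  unfold boxVal
  refine memLp_finsetSum _ fun i _ => ?_
  obtain ⟨C, hC⟩ := hb i
  refine MemLp.of_bound (stronglyMeasurable_box _ _ (hη i)).aestronglyMeasurable (max C 0)
    (Eventually.of_forall fun p => ?_)
  by_cases h : p.1 ∈ Set.Ioc (lo i) (hi i)
  · simp only [Set.indicator_of_mem h]; exact (hC p.2).trans (le_max_left _ _)
  · simp only [Set.indicator_of_notMem h]; simp

/-- **Ito isometry** for finite families of boxes. -/
lemma eLpNorm_boxInt (hW : IsBrownianMotionOn 𝓕 W P T) {t : ℝ≥0} (ht : t ≤ T)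
    {lo hi : ι → ℝ≥0} (hle : ∀ i, lo i ≤ hi i)
    {η : ι → Ω → X} (hη : ∀ i, StronglyMeasurable[𝓕 (lo i)] (η i))
    (hb : ∀ i, ∃ C : ℝ, ∀ ω, ‖η i ω‖ ≤ C) :
    eLpNorm (boxInt W t lo hi η) 2 P
      = eLpNorm (fun p : ℝ≥0 × Ω => boxVal lo hi η p.1 p.2) 2
        ((timeMeasure.restrict (Set.Iic t)).prod P) := by
  have := hW.isProb
  rw [(boxInt_memLp hW ht hη hb).eLpNorm_eq_integral_rpow_norm (by norm_num) (by norm_num),
    (memLp_boxVal t (fun i => (hη i).mono (𝓕.le _)) hb).eLpNorm_eq_integral_rpow_norm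
      (by norm_num) (by norm_num)]
  have h1 := integral_norm_sq_boxInt hW ht hle hη hb
  have h2 := integral_norm_sq_boxVal (𝓕 := 𝓕) (P := P) (lo := lo) (hi := hi) t hη hb
  simp only [ENNReal.toReal_ofNat, Real.rpow_two]
  rw [h1, h2]

end isometry

/-! ### Adapted step processes -/

section simple

variable {Ω : Type*} {mΩ : MeasurableSpace Ω} {𝓕 : Filtration ℝ≥0 mΩ} {W : ℝ≥0 → Ω → ℝ}
  {P : Measure Ω} {T : ℝ≥0} {X : Type*} [NormedAddCommGroup X] [InnerProductSpace ℝ X]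

omit [InnerProductSpace ℝ X] in
lemma SimpleProcess.val_eq (ψ : SimpleProcess 𝓕 X) (s : ℝ≥0) (ω : Ω) :
    ψ.val s ω = boxVal ψ.lo ψ.hi ψ.η s ω := rfl

lemma SimpleProcess.integral_eq (ψ : SimpleProcess 𝓕 X) (W : ℝ≥0 → Ω → ℝ) (t : ℝ≥0) (ω : Ω) :
    ψ.integral W t ω = boxInt W t ψ.lo ψ.hi ψ.η ω := rfl

lemma SimpleProcess.memLp_integral (hW : IsBrownianMotionOn 𝓕 W P T)
    (ψ : SimpleProcess 𝓕 X) {t : ℝ≥0} (ht : t ≤ T) : MemLp (ψ.integral W t) 2 P :=
  boxInt_memLp hW ht ψ.measurable_η ψ.bounded_η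

lemma SimpleProcess.memLp_val [IsProbabilityMeasure P] (ψ : SimpleProcess 𝓕 X) (t : ℝ≥0) :
    MemLp (fun p : ℝ≥0 × Ω => ψ.val p.1 p.2) 2 ((timeMeasure.restrict (Set.Iic t)).prod P) :=
  memLp_boxVal t (fun i => (ψ.measurable_η i).mono (𝓕.le _)) ψ.bounded_η

/-- A finite family of boxes indexed by any finite type is an adapted step process. -/
lemma exists_simpleProcess {ι : Type*} [Fintype ι] (lo hi : ι → ℝ≥0) (hle : ∀ i, lo i ≤ hi i)
    (η : ι → Ω → X) (hη : ∀ i, StronglyMeasurable[𝓕 (lo i)] (η i))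
    (hb : ∀ i, ∃ C : ℝ, ∀ ω, ‖η i ω‖ ≤ C) :
    ∃ ψ : SimpleProcess 𝓕 X, (∀ s ω, ψ.val s ω = boxVal lo hi η s ω) ∧
      (∀ (W : ℝ≥0 → Ω → ℝ) (t : ℝ≥0) (ω : Ω), ψ.integral W t ω = boxInt W t lo hi η ω) := by
  let e := (Fintype.equivFin ι).symm
  refine ⟨⟨Fintype.card ι, fun i => lo (e i), fun i => hi (e i), fun i => hle _,
    fun i => η (e i), fun i => hη _, fun i => hb _⟩, ?_, ?_⟩
  · intro s ω
    exact Equiv.sum_comp e (fun i => (Set.Ioc (lo i) (hi i)).indicator (fun _ => η i ω) s)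
  · intro W t ω
    exact Equiv.sum_comp e (fun i => (W (min (hi i) t) ω - W (min (lo i) t) ω) • η i ω)

/-- The isometry for the difference of two step processes. -/
lemma SimpleProcess.eLpNorm_integral_sub (hW : IsBrownianMotionOn 𝓕 W P T)
    (ψ ψ' : SimpleProcess 𝓕 X) {t : ℝ≥0} (ht : t ≤ T) :
    eLpNorm (fun ω => ψ.integral W t ω - ψ'.integral W t ω) 2 P
      = eLpNorm (fun p : ℝ≥0 × Ω => ψ.val p.1 p.2 - ψ'.val p.1 p.2) 2
        ((timeMeasure.restrict (Set.Iic t)).prod P) := by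
  have h := eLpNorm_boxInt (ι := Fin ψ.n ⊕ Fin ψ'.n) hW ht
    (lo := Sum.elim ψ.lo ψ'.lo) (hi := Sum.elim ψ.hi ψ'.hi)
    (η := Sum.elim ψ.η (fun i ω => - ψ'.η i ω)) ?_ ?_ ?_
  · have e1 : (fun ω => ψ.integral W t ω - ψ'.integral W t ω)
        = boxInt W t (Sum.elim ψ.lo ψ'.lo) (Sum.elim ψ.hi ψ'.hi)
          (Sum.elim ψ.η (fun i ω => - ψ'.η i ω)) := by
      ext ω
      simp only [boxInt, Fintype.sum_sum_type, Sum.elim_inl, Sum.elim_inr, smul_neg,
        Finset.sum_neg_distrib, SimpleProcess.integral, sub_eq_add_neg]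
    have e2 : (fun p : ℝ≥0 × Ω => ψ.val p.1 p.2 - ψ'.val p.1 p.2)
        = fun p : ℝ≥0 × Ω => boxVal (Sum.elim ψ.lo ψ'.lo) (Sum.elim ψ.hi ψ'.hi)
          (Sum.elim ψ.η (fun i ω => - ψ'.η i ω)) p.1 p.2 := by
      ext p
      simp only [boxVal, Fintype.sum_sum_type, Sum.elim_inl, Sum.elim_inr, SimpleProcess.val,
        sub_eq_add_neg]
      congr 1
      rw [← Finset.sum_neg_distrib]
      refine Finset.sum_congr rfl fun i _ => ?_
      by_cases hs : p.1 ∈ Set.Ioc (ψ'.lo i) (ψ'.hi i) <;> simp [Set.indicator, hs]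
    rw [e1, e2]
    exact h
  · rintro (i | i)
    · exact ψ.lo_le_hi i
    · exact ψ'.lo_le_hi i
  · rintro (i | i)
    · exact ψ.measurable_η i
    · exact (ψ'.measurable_η i).neg
  · rintro (i | i)
    · exact ψ.bounded_η i
    · obtain ⟨C, hC⟩ := ψ'.bounded_η i
      exact ⟨C, fun ω => by simpa using hC ω⟩

/-- Uniqueness of the Ito integral. -/
theorem IsItoIntegral.ae_eq (hW : IsBrownianMotionOn 𝓕 W P T) {t : ℝ≥0} (ht : t ≤ T)
    {φ : ℝ≥0 → Ω → X} {I J : Ω → X}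
    (hφ : AEStronglyMeasurable (fun p : ℝ≥0 × Ω => φ p.1 p.2)
      ((timeMeasure.restrict (Set.Iic t)).prod P))
    (hI : IsItoIntegral 𝓕 W P t φ I) (hJ : IsItoIntegral 𝓕 W P t φ J) : I =ᵐ[P] J := by
  have := hW.isProb
  obtain ⟨hIm, ψ, hψ, hψI⟩ := hI
  obtain ⟨hJm, χ, hχ, hχJ⟩ := hJ
  set μ := (timeMeasure.restrict (Set.Iic t)).prod P with hμ
  have key : ∀ n, eLpNorm (fun ω => I ω - J ω) 2 P
      ≤ (eLpNorm (fun ω => (ψ n).integral W t ω - I ω) 2 P
        + (eLpNorm (fun p : ℝ≥0 × Ω => (ψ n).val p.1 p.2 - φ p.1 p.2) 2 μ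
          + eLpNorm (fun p : ℝ≥0 × Ω => (χ n).val p.1 p.2 - φ p.1 p.2) 2 μ))
        + eLpNorm (fun ω => (χ n).integral W t ω - J ω) 2 P := by
    intro n
    have m1 := ((ψ n).memLp_integral hW ht).aestronglyMeasurable
    have m2 := ((χ n).memLp_integral hW ht).aestronglyMeasurable
    have v1 := ((ψ n).memLp_val (P := P) t).aestronglyMeasurable
    have v2 := ((χ n).memLp_val (P := P) t).aestronglyMeasurable
    have e1 : (fun ω => I ω - J ω)
        = (fun ω => (-((ψ n).integral W t ω - I ω))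
          + ((ψ n).integral W t ω - (χ n).integral W t ω))
          + (fun ω => (χ n).integral W t ω - J ω) := by
      ext ω; simp only [Pi.add_apply]; abel
    have e2 : eLpNorm (fun ω => (ψ n).integral W t ω - (χ n).integral W t ω) 2 P
        ≤ eLpNorm (fun p : ℝ≥0 × Ω => (ψ n).val p.1 p.2 - φ p.1 p.2) 2 μ
          + eLpNorm (fun p : ℝ≥0 × Ω => (χ n).val p.1 p.2 - φ p.1 p.2) 2 μ := by
      rw [SimpleProcess.eLpNorm_integral_sub hW _ _ ht]
      have : (fun p : ℝ≥0 × Ω => (ψ n).val p.1 p.2 - (χ n).val p.1 p.2)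
          = (fun p : ℝ≥0 × Ω => (ψ n).val p.1 p.2 - φ p.1 p.2)
            - (fun p : ℝ≥0 × Ω => (χ n).val p.1 p.2 - φ p.1 p.2) := by
        ext p; simp only [Pi.sub_apply]; abel
      rw [this]
      exact eLpNorm_sub_le (v1.sub hφ) (v2.sub hφ) (by norm_num)
    rw [e1]
    refine (eLpNorm_add_le ?_ ?_ (by norm_num)).trans ?_
    · exact ((m1.sub hIm).neg.add (m1.sub m2))
    · exact m2.sub hJm
    · gcongr
      refine (eLpNorm_add_le (m1.sub hIm).neg (m1.sub m2) (by norm_num)).trans ?_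
      refine add_le_add ?_ e2
      exact le_of_eq (eLpNorm_neg (f := fun ω => (ψ n).integral W t ω - I ω) (p := 2) (μ := P))
  have lim : Tendsto (fun n => (eLpNorm (fun ω => (ψ n).integral W t ω - I ω) 2 P
        + (eLpNorm (fun p : ℝ≥0 × Ω => (ψ n).val p.1 p.2 - φ p.1 p.2) 2 μ
          + eLpNorm (fun p : ℝ≥0 × Ω => (χ n).val p.1 p.2 - φ p.1 p.2) 2 μ))
        + eLpNorm (fun ω => (χ n).integral W t ω - J ω) 2 P) atTop (𝓝 ((0 + (0 + 0)) + 0)) :=
    (hψI.add (hψ.add hχ)).add hχJ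
  simp only [add_zero] at lim
  have h0 : eLpNorm (fun ω => I ω - J ω) 2 P = 0 :=
    le_antisymm (ge_of_tendsto' lim key) bot_le
  have h1 := (eLpNorm_eq_zero_iff (hIm.sub hJm) (by norm_num)).1 h0
  filter_upwards [h1] with ω hω
  simpa [sub_eq_zero] using hω

/-- Existence of the Ito integral, given an approximating sequence. -/
theorem exists_isItoIntegral [CompleteSpace X] (hW : IsBrownianMotionOn 𝓕 W P T) {t : ℝ≥0}
    (ht : t ≤ T)
    {φ : ℝ≥0 → Ω → X}
    (hφ : AEStronglyMeasurable (fun p : ℝ≥0 × Ω => φ p.1 p.2)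
      ((timeMeasure.restrict (Set.Iic t)).prod P))
    (ψ : ℕ → SimpleProcess 𝓕 X)
    (hψ : Tendsto (fun n => eLpNorm (fun p : ℝ≥0 × Ω => (ψ n).val p.1 p.2 - φ p.1 p.2) 2
      ((timeMeasure.restrict (Set.Iic t)).prod P)) atTop (𝓝 0)) :
    ∃ I : Ω → X, IsItoIntegral 𝓕 W P t φ I := by
  have := hW.isProb
  set μ := (timeMeasure.restrict (Set.Iic t)).prod P with hμ
  have hL : ∀ n, MemLp ((ψ n).integral W t) 2 P := fun n => (ψ n).memLp_integral hW ht
  let F : ℕ → Lp X 2 P := fun n => (hL n).toLp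
  have hdist : ∀ n m, edist (F n) (F m)
      ≤ eLpNorm (fun p : ℝ≥0 × Ω => (ψ n).val p.1 p.2 - φ p.1 p.2) 2 μ
        + eLpNorm (fun p : ℝ≥0 × Ω => (ψ m).val p.1 p.2 - φ p.1 p.2) 2 μ := by
    intro n m
    have v1 := ((ψ n).memLp_val (P := P) t).aestronglyMeasurable
    have v2 := ((ψ m).memLp_val (P := P) t).aestronglyMeasurable
    have h1 : edist (F n) (F m)
        = eLpNorm (fun ω => (ψ n).integral W t ω - (ψ m).integral W t ω) 2 P := by
      rw [Lp.edist_toLp_toLp]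
      rfl
    rw [h1, SimpleProcess.eLpNorm_integral_sub hW _ _ ht]
    have : (fun p : ℝ≥0 × Ω => (ψ n).val p.1 p.2 - (ψ m).val p.1 p.2)
        = (fun p : ℝ≥0 × Ω => (ψ n).val p.1 p.2 - φ p.1 p.2)
          - (fun p : ℝ≥0 × Ω => (ψ m).val p.1 p.2 - φ p.1 p.2) := by
      ext p; simp only [Pi.sub_apply]; abel
    rw [this]
    exact eLpNorm_sub_le (v1.sub hφ) (v2.sub hφ) (by norm_num)
  have hC : CauchySeq F := by
    rw [EMetric.cauchySeq_iff]
    intro ε hε
    have hε2 : 0 < ε / 2 := ENNReal.half_pos hε.ne'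
    obtain ⟨N, hN⟩ := eventually_atTop.1 (hψ.eventually (gt_mem_nhds hε2))
    refine ⟨N, fun n hn m hm => ?_⟩
    calc edist (F n) (F m) ≤ _ := hdist n m
      _ < ε / 2 + ε / 2 := ENNReal.add_lt_add (hN n hn) (hN m hm)
      _ = ε := ENNReal.add_halves ε
  obtain ⟨I, hI⟩ := cauchySeq_tendsto_of_complete hC
  refine ⟨I, (Lp.memLp I).aestronglyMeasurable, ψ, hψ, ?_⟩
  have h2 : ∀ n, eLpNorm (fun ω => (ψ n).integral W t ω - I ω) 2 P = edist (F n) I := by
    intro n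
    rw [Lp.edist_def]
    refine eLpNorm_congr_ae ?_
    filter_upwards [(hL n).coeFn_toLp] with ω hω
    simp only [Pi.sub_apply, F, hω]
  simp_rw [h2]
  exact tendsto_iff_edist_tendsto_0.1 hI

end simple

end Pool.Agent.StochConv
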