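import Mathlib

/-!
# The adaptive strategy, path by path

A state `(r, w)` means: `r` levels remain to be conquered, and we still have to wait `w` steps.
In state `(i+1, 0)` a shot is fired at level `i`; it succeeds if its outcome is `≥ 1`, and then the
state becomes `(i, 0)`; otherwise we wait `Wt i` steps, so that the shot is forgotten.
-/

open Filter Topology

namespace Pool.Agent.StochConv

/-- one step of the strategy -/
noncomputable def mstep (Wt : ℕ → ℕ) (y : ℝ) : ℕ × ℕ → ℕ × ℕ
  | (r, w + 1) => (r, w)
  | (0, 0) => (0, 0)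
  | (i + 1, 0) => open Classical in if 1 ≤ y then (i, 0) else (i + 1, Wt i)

/-- the state after `k` steps when the outcomes are `x 0, x 1, …` -/
noncomputable def mst (Wt : ℕ → ℕ) (q : ℕ) (x : ℕ → ℝ) : ℕ → ℕ × ℕ
  | 0 => (q, 0)
  | k + 1 => mstep Wt (x k) (mst Wt q x k)

/-- indicator that a shot is fired at level `i` at step `k` -/
noncomputable def act (Wt : ℕ → ℕ) (q : ℕ) (x : ℕ → ℝ) (i k : ℕ) : ℝ :=
  if mst Wt q x k = (i + 1, 0) then 1 else 0

/-- number of shots at level `i` before step `k` -/
noncomputable def shots (Wt : ℕ → ℕ) (q : ℕ) (x : ℕ → ℝ) (i k : ℕ) : ℝ :=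
  ∑ l ∈ Finset.range k, act Wt q x i l

/-- total absolute size of the shots at level `i` before step `k` -/
noncomputable def absh (Wt : ℕ → ℕ) (q : ℕ) (x : ℕ → ℝ) (i k : ℕ) : ℝ :=
  ∑ l ∈ Finset.range k, act Wt q x i l * |x l|

/-- the coefficient at level `i` at step `k` -/
noncomputable def coef (Wt : ℕ → ℕ) (q : ℕ) (ρ : ℝ) (x : ℕ → ℝ) (i k : ℕ) : ℝ :=
  ∑ l ∈ Finset.range k, ρ ^ (k - l) * (act Wt q x i l * x l)

/-- number of steps before `k` spent with at most `i` remaining levels -/
noncomputable def low (Wt : ℕ → ℕ) (q : ℕ) (x : ℕ → ℝ) (i k : ℕ) : ℕ :=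
  ∑ l ∈ Finset.range k, if (mst Wt q x l).1 ≤ i then 1 else 0

/-- number of steps before `k` spent at level `j` -/
noncomputable def stps (Wt : ℕ → ℕ) (q : ℕ) (x : ℕ → ℝ) (j k : ℕ) : ℕ :=
  ∑ l ∈ Finset.range k, if (mst Wt q x l).1 = j + 1 then 1 else 0

section path

variable (Wt : ℕ → ℕ) (q : ℕ) (x : ℕ → ℝ)

lemma mst_succ (k : ℕ) : mst Wt q x (k + 1) = mstep Wt (x k) (mst Wt q x k) := rfl

lemma act_nonneg (i k : ℕ) : 0 ≤ act Wt q x i k := by
  unfold act; split <;> norm_num

lemma act_le_one (i k : ℕ) : act Wt q x i k ≤ 1 := by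
  unfold act; split <;> norm_num

lemma shots_nonneg (i k : ℕ) : 0 ≤ shots Wt q x i k :=
  Finset.sum_nonneg fun _ _ => act_nonneg _ _ _ _ _

lemma absh_nonneg (i k : ℕ) : 0 ≤ absh Wt q x i k :=
  Finset.sum_nonneg fun _ _ => mul_nonneg (act_nonneg _ _ _ _ _) (abs_nonneg _)

lemma shots_mono (i : ℕ) {k l : ℕ} (h : k ≤ l) : shots Wt q x i k ≤ shots Wt q x i l :=
  Finset.sum_le_sum_of_subset_of_nonneg (Finset.range_mono h)
    fun _ _ _ => act_nonneg _ _ _ _ _

lemma absh_mono (i : ℕ) {k l : ℕ} (h : k ≤ l) : absh Wt q x i k ≤ absh Wt q x i l :=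
  Finset.sum_le_sum_of_subset_of_nonneg (Finset.range_mono h)
    fun _ _ _ => mul_nonneg (act_nonneg _ _ _ _ _) (abs_nonneg _)

lemma shots_succ (i k : ℕ) :
    shots Wt q x i (k + 1) = shots Wt q x i k + act Wt q x i k := Finset.sum_range_succ _ _

lemma absh_succ (i k : ℕ) :
    absh Wt q x i (k + 1) = absh Wt q x i k + act Wt q x i k * |x k| := Finset.sum_range_succ _ _

lemma low_succ (i k : ℕ) :
    low Wt q x i (k + 1) = low Wt q x i k + if (mst Wt q x k).1 ≤ i then 1 else 0 :=
  Finset.sum_range_succ _ _

lemma stps_succ (i k : ℕ) :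
    stps Wt q x i (k + 1) = stps Wt q x i k + if (mst Wt q x k).1 = i + 1 then 1 else 0 :=
  Finset.sum_range_succ _ _

lemma coef_succ (ρ : ℝ) (i k : ℕ) :
    coef Wt q ρ x i (k + 1) = ρ * (coef Wt q ρ x i k + act Wt q x i k * x k) := by
  unfold coef
  rw [Finset.sum_range_succ, mul_add, Finset.mul_sum]
  congr 1
  · refine Finset.sum_congr rfl fun l hl => ?_
    have : k + 1 - l = (k - l) + 1 := by
      have := Finset.mem_range.1 hl; omega
    rw [this, pow_succ]; ring
  · simp

lemma mstep_fst_le (y : ℝ) (s : ℕ × ℕ) : (mstep Wt y s).1 ≤ s.1 := by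
  rcases s with ⟨r, w⟩
  cases w with
  | succ w => exact le_rfl
  | zero =>
    cases r with
    | zero => exact le_rfl
    | succ i =>
      simp only [mstep]
      split
      · simp
      · simp

lemma mst_antitone {k l : ℕ} (h : k ≤ l) : (mst Wt q x l).1 ≤ (mst Wt q x k).1 := by
  induction l, h using Nat.le_induction with
  | base => exact le_rfl
  | succ l _ ih => exact (mstep_fst_le Wt _ _).trans ih

lemma mst_le (k : ℕ) : (mst Wt q x k).1 ≤ q := mst_antitone Wt q x (Nat.zero_le k)

/-- the main invariant -/
lemma main_inv {ρ : ℝ} (hρ0 : 0 ≤ ρ) (hρ1 : ρ ≤ 1) {i : ℕ} (hi : i < q) (k : ℕ) :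
    ((mst Wt q x k).1 > i + 1 → coef Wt q ρ x i k = 0) ∧
    ((mst Wt q x k).1 = i + 1 → |coef Wt q ρ x i k| ≤ ρ ^ (Wt i - (mst Wt q x k).2)
        * absh Wt q x i k ∧ (mst Wt q x k).2 ≤ Wt i) ∧
    ((mst Wt q x k).1 ≤ i → ρ ^ (1 + low Wt q x i k) - ρ ^ (Wt i) * absh Wt q x i k
        ≤ coef Wt q ρ x i k) ∧
    ((mst Wt q x k).1 > i → low Wt q x i k = 0) := by
  induction k with
  | zero =>
    have e : mst Wt q x 0 = (q, 0) := rfl
    refine ⟨fun _ => by simp [coef], fun _ => ?_, fun h => ?_, fun _ => by simp [low]⟩
    · rw [e]; simp [coef, absh]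
    · rw [e] at h; simp at h; omega
  | succ k ih =>
    obtain ⟨hA, hB, hC, hD⟩ := ih
    have hst := mst_succ Wt q x k
    have hco := coef_succ Wt q x ρ i k
    have hab := absh_succ Wt q x i k
    have hlo := low_succ Wt q x i k
    have hanon := absh_nonneg Wt q x i k
    set a := act Wt q x i k with ha
    have haval : a = if mst Wt q x k = (i + 1, 0) then 1 else 0 := rfl
    rcases hs : mst Wt q x k with ⟨r, w⟩
    rw [hs] at hst hA hB hC hD hlo haval
    simp only at hA hB hC hD hlo
    -- the decay step when already conquered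
    have decay : r ≤ i → a = 0 → (mst Wt q x (k + 1)).1 ≤ i →
        ρ ^ (1 + low Wt q x i (k + 1)) - ρ ^ (Wt i) * absh Wt q x i (k + 1)
        ≤ coef Wt q ρ x i (k + 1) := by
      intro hr h0 _
      rw [hco, hab, hlo, h0, if_pos hr]
      simp only [zero_mul, add_zero]
      have h1 := hC hr
      have h2 : ρ * (ρ ^ (1 + low Wt q x i k) - ρ ^ (Wt i) * absh Wt q x i k)
          ≤ ρ * coef Wt q ρ x i k := mul_le_mul_of_nonneg_left h1 hρ0
      have h3 : ρ * (ρ ^ (Wt i) * absh Wt q x i k) ≤ ρ ^ (Wt i) * absh Wt q x i k :=
        mul_le_of_le_one_left (by positivity) hρ1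
      have h4 : ρ ^ (1 + (low Wt q x i k + 1)) = ρ * ρ ^ (1 + low Wt q x i k) := by
        rw [← add_assoc, pow_succ]; ring
      rw [h4]
      linarith
    cases w with
    | succ w =>
      have hst' : mst Wt q x (k + 1) = (r, w) := hst
      have h0 : a = 0 := by rw [haval]; simp
      rw [hst']
      refine ⟨fun h => ?_, fun h => ?_, fun h => ?_, fun h => ?_⟩
      · simp only at h
        rw [hco, h0, hA h]; simp
      · simp only at h ⊢
        obtain ⟨h1, h2⟩ := hB h
        refine ⟨?_, by omega⟩
        rw [hco, hab, h0]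
        simp only [zero_mul, add_zero]
        rw [abs_mul, abs_of_nonneg hρ0]
        have e : Wt i - w = (Wt i - (w + 1)) + 1 := by omega
        rw [e, pow_succ]
        calc ρ * |coef Wt q ρ x i k| ≤ ρ * (ρ ^ (Wt i - (w + 1)) * absh Wt q x i k) :=
              mul_le_mul_of_nonneg_left h1 hρ0
          _ = _ := by ring
      · simp only at h
        exact decay h h0 (by rw [hst']; exact h)
      · simp only at h
        rw [hlo, hD h, if_neg (by omega)]
    | zero =>
      cases r with
      | zero =>
        have hst' : mst Wt q x (k + 1) = (0, 0) := hst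
        have h0 : a = 0 := by rw [haval]; simp
        rw [hst']
        refine ⟨fun h => ?_, fun h => ?_, fun h => ?_, fun h => ?_⟩
        · simp at h
        · simp at h
        · exact decay (Nat.zero_le _) h0 (by rw [hst']; exact Nat.zero_le _)
        · simp at h
      | succ j =>
        rcases lt_trichotomy j i with hji | hji | hji
        · -- below level i : decay
          have h0 : a = 0 := by
            rw [haval, if_neg]
            intro h
            have := congrArg Prod.fst h
            simp at this; omega
          have hle : (mst Wt q x (k + 1)).1 ≤ i := by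
            have := mstep_fst_le Wt (x k) (j + 1, 0)
            rw [hst]
            simp only at this
            omega
          refine ⟨fun h => by omega, fun h => by omega, fun h => ?_, fun h => by omega⟩
          exact decay (by omega) h0 h
        · -- a shot at level i
          subst hji
          have h1 : a = 1 := by rw [haval]; simp
          obtain ⟨hB1, hB2⟩ := hB rfl
          have hl0 := hD (by omega)
          simp only [tsub_zero] at hB1
          by_cases hx : 1 ≤ x k
          · have hst' : mst Wt q x (k + 1) = (j, 0) := by rw [hst]; simp [mstep, hx]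
            rw [hst']
            refine ⟨fun h => by simp at h, fun h => by simp at h, fun h => ?_,
              fun h => by simp at h⟩
            rw [hco, hab, hlo, h1, hl0, if_neg (by omega)]
            simp only [one_mul, add_zero, pow_one]
            have h2 := neg_le_of_abs_le hB1
            have h3 : 0 ≤ ρ ^ Wt j * |x k| := by positivity
            have h4 : ρ * (1 - ρ ^ Wt j * absh Wt q x j k) ≤ ρ * (coef Wt q ρ x j k + x k) :=
              mul_le_mul_of_nonneg_left (by linarith) hρ0
            have h5 : ρ * (ρ ^ (Wt j) * absh Wt q x j k) ≤ ρ ^ (Wt j) * absh Wt q x j k :=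
              mul_le_of_le_one_left (by positivity) hρ1
            nlinarith
          · have hst' : mst Wt q x (k + 1) = (j + 1, Wt j) := by rw [hst]; simp [mstep, hx]
            rw [hst']
            refine ⟨fun h => by simp at h, fun h => ?_, fun h => by simp at h,
              fun h => ?_⟩
            · refine ⟨?_, le_rfl⟩
              simp only [tsub_self, pow_zero, one_mul]
              rw [hco, hab, h1]
              simp only [one_mul]
              rw [abs_mul, abs_of_nonneg hρ0]
              have h2 : |coef Wt q ρ x j k + x k| ≤ ρ ^ Wt j * absh Wt q x j k + |x k| :=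
                (abs_add_le _ _).trans (by linarith)
              have h3 : ρ ^ Wt j * absh Wt q x j k ≤ absh Wt q x j k :=
                mul_le_of_le_one_left hanon (pow_le_one₀ hρ0 hρ1)
              calc ρ * |coef Wt q ρ x j k + x k| ≤ 1 * |coef Wt q ρ x j k + x k| := by
                    gcongr
                _ ≤ _ := by linarith
            · rw [hlo, hl0, if_neg (by omega)]
        · -- above level i
          have h0 : a = 0 := by
            rw [haval, if_neg]
            intro h
            have := congrArg Prod.fst h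
            simp at this; omega
          have hc0 : coef Wt q ρ x i k = 0 := hA (by omega)
          have hc1 : coef Wt q ρ x i (k + 1) = 0 := by rw [hco, h0, hc0]; simp
          have hl0 : low Wt q x i (k + 1) = 0 := by
            rw [hlo, hD (by omega), if_neg (by omega)]
          refine ⟨fun h => hc1, fun h => ?_, fun h => ?_, fun h => hl0⟩
          · rw [hc1]
            refine ⟨?_, ?_⟩
            · rw [abs_zero]
              exact mul_nonneg (by positivity) (absh_nonneg _ _ _ _ _)
            · by_cases hx : 1 ≤ x k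
              · have hst' : mst Wt q x (k + 1) = (j, 0) := by rw [hst]; simp [mstep, hx]
                rw [hst']; exact Nat.zero_le _
              · have hst' : mst Wt q x (k + 1) = (j + 1, Wt j) := by rw [hst]; simp [mstep, hx]
                rw [hst'] at h
                simp at h
                omega
          · exfalso
            by_cases hx : 1 ≤ x k
            · have hst' : mst Wt q x (k + 1) = (j, 0) := by rw [hst]; simp [mstep, hx]
              rw [hst'] at h
              simp at h
              omega
            · have hst' : mst Wt q x (k + 1) = (j + 1, Wt j) := by rw [hst]; simp [mstep, hx]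
              rw [hst'] at h
              simp at h
              omega

/-- steps spent at level `j` are controlled by the number of shots -/
lemma stps_le_aux (j k : ℕ) :
    (stps Wt q x j k : ℝ) + (if (mst Wt q x k).1 = j + 1 then ((mst Wt q x k).2 : ℝ) else 0)
      ≤ (1 + Wt j) * shots Wt q x j k := by
  induction k with
  | zero =>
    have e : mst Wt q x 0 = (q, 0) := rfl
    rw [e]
    simp [stps, shots]
  | succ k ih =>
    rw [stps_succ, shots_succ]
    have hst := mst_succ Wt q x k
    have haval : act Wt q x j k = if mst Wt q x k = (j + 1, 0) then 1 else 0 := rfl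
    rcases hs : mst Wt q x k with ⟨r, w⟩
    rw [hs] at hst haval ih
    cases w with
    | succ w =>
      have hst' : mst Wt q x (k + 1) = (r, w) := hst
      have h0 : act Wt q x j k = 0 := by rw [haval]; simp
      rw [hst', h0]
      by_cases hr : r = j + 1
      · simp only [hr, if_true] at ih ⊢
        push_cast at ih ⊢
        linarith
      · simp only [hr, if_false] at ih ⊢
        push_cast at ih ⊢
        linarith
    | zero =>
      cases r with
      | zero =>
        have hst' : mst Wt q x (k + 1) = (0, 0) := hst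
        have h0 : act Wt q x j k = 0 := by rw [haval]; simp
        rw [hst', h0]
        simpa using ih
      | succ i =>
        by_cases hij : i = j
        · subst hij
          have h1 : act Wt q x i k = 1 := by rw [haval]; simp
          rw [h1]
          by_cases hx : 1 ≤ x k
          · have hst' : mst Wt q x (k + 1) = (i, 0) := by rw [hst]; simp [mstep, hx]
            rw [hst']
            simp only [if_true] at ih ⊢
            have : (0 : ℝ) ≤ Wt i := Nat.cast_nonneg _
            push_cast at ih ⊢
            rw [if_neg (by omega)]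
            linarith
          · have hst' : mst Wt q x (k + 1) = (i + 1, Wt i) := by rw [hst]; simp [mstep, hx]
            rw [hst']
            simp only [if_true] at ih ⊢
            push_cast at ih ⊢
            linarith
        · have h0 : act Wt q x j k = 0 := by
            rw [haval, if_neg]
            intro h
            have := congrArg Prod.fst h
            simp at this; omega
          rw [h0]
          have hne : ¬ (i + 1 = j + 1) := by omega
          simp only [hne, if_false] at ih ⊢
          by_cases hx : 1 ≤ x k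
          · have hst' : mst Wt q x (k + 1) = (i, 0) := by rw [hst]; simp [mstep, hx]
            rw [hst']
            simp only [Nat.cast_zero, ite_self]
            push_cast
            linarith
          · have hst' : mst Wt q x (k + 1) = (i + 1, Wt i) := by rw [hst]; simp [mstep, hx]
            rw [hst']
            simp only [hne, if_false]
            push_cast
            linarith

lemma stps_le (j k : ℕ) : (stps Wt q x j k : ℝ) ≤ (1 + Wt j) * shots Wt q x j k := by
  have h := stps_le_aux Wt q x j k
  have : (0 : ℝ) ≤ if (mst Wt q x k).1 = j + 1 then ((mst Wt q x k).2 : ℝ) else 0 := by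
    split
    · exact Nat.cast_nonneg _
    · exact le_rfl
  linarith

/-- there is at most one success at each level -/
lemma success_le (j k : ℕ) :
    ∑ l ∈ Finset.range k, act Wt q x j l * (open Classical in if 1 ≤ x l then (1 : ℝ) else 0)
      ≤ if (mst Wt q x k).1 ≤ j then 1 else 0 := by
  induction k with
  | zero =>
    simp only [Finset.range_zero, Finset.sum_empty]
    split <;> norm_num
  | succ k ih =>
    rw [Finset.sum_range_succ]
    have hst := mst_succ Wt q x k
    have hanti := mst_antitone Wt q x (Nat.le_succ k)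
    by_cases hs : mst Wt q x k = (j + 1, 0)
    · have h1 : act Wt q x j k = 1 := by simp [act, hs]
      rw [hs] at hst ih
      rw [h1]
      have h0 : ¬ (j + 1 ≤ j) := by omega
      simp only [h0, if_false] at ih
      by_cases hx : 1 ≤ x k
      · have hst' : mst Wt q x (k + 1) = (j, 0) := by rw [hst]; simp [mstep, hx]
        rw [hst']
        simp only [hx, le_refl, if_true, one_mul]
        linarith
      · simp only [hx, if_false, mul_zero, add_zero]
        refine ih.trans ?_
        split <;> norm_num
    · have h0 : act Wt q x j k = 0 := by simp [act, hs]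
      rw [h0, zero_mul, add_zero]
      refine ih.trans ?_
      by_cases h1 : (mst Wt q x k).1 ≤ j
      · have h2 : (mst Wt q x (k + 1)).1 ≤ j := hanti.trans h1
        simp [h1, h2]
      · simp only [h1, if_false]
        split <;> norm_num

lemma low_eq_sum (i k : ℕ) (h : ∀ l < k, 1 ≤ (mst Wt q x l).1) :
    low Wt q x i k = ∑ j ∈ Finset.range i, stps Wt q x j k := by
  unfold low stps
  rw [Finset.sum_comm]
  refine Finset.sum_congr rfl fun l hl => ?_
  have h1 := h l (Finset.mem_range.1 hl)
  set r := (mst Wt q x l).1 with hr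
  have : ∀ j ∈ Finset.range i, (if r = j + 1 then 1 else 0) = if j = r - 1 then 1 else 0 := by
    intro j _
    by_cases hj : r = j + 1
    · rw [if_pos hj, if_pos (by omega)]
    · rw [if_neg hj, if_neg (by omega)]
  rw [Finset.sum_congr rfl this, Finset.sum_ite_eq']
  by_cases hri : r ≤ i
  · rw [if_pos hri, if_pos (Finset.mem_range.2 (by omega))]
  · rw [if_neg hri, if_neg (by rw [Finset.mem_range]; omega)]

lemma total_steps (K : ℕ) (h : 1 ≤ (mst Wt q x K).1) :
    (K : ℝ) ≤ ∑ j ∈ Finset.range q, (1 + Wt j) * shots Wt q x j K := by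
  have h1 : ∀ l < K, 1 ≤ (mst Wt q x l).1 := fun l hl =>
    h.trans (mst_antitone Wt q x hl.le)
  have h2 := low_eq_sum Wt q x q K h1
  have h3 : low Wt q x q K = K := by
    unfold low
    rw [Finset.sum_congr rfl (fun l _ => if_pos (mst_le Wt q x l))]
    simp
  rw [h3] at h2
  have h4 : (K : ℝ) = ∑ j ∈ Finset.range q, (stps Wt q x j K : ℝ) := by exact_mod_cast h2
  calc (K : ℝ) = ∑ j ∈ Finset.range q, (stps Wt q x j K : ℝ) := h4
    _ ≤ _ := Finset.sum_le_sum fun j _ => stps_le Wt q x j K

/-- The quantity which has to be small. -/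
noncomputable def bad (a : ℕ → ℝ) (K : ℕ) : ℝ :=
  ∑ i ∈ Finset.range q, (a i * (1 + ∑ j ∈ Finset.range i, (1 + Wt j) * shots Wt q x j K)
    + Real.exp (-(a i * Wt i)) * absh Wt q x i K)

/-- If all levels are conquered before `K` and `bad ≤ 1/2`, then at some step all the coefficients
are at least `1/2`. -/
theorem exists_good_step {a : ℕ → ℝ} (ha : ∀ i, 0 ≤ a i) (K : ℕ)
    (h0 : (mst Wt q x K).1 = 0) (hbad : bad Wt q x a K ≤ 1 / 2) :
    ∃ k ≤ K, ∀ i < q, 1 / 2 ≤ coef Wt q (Real.exp (-(a i))) x i k := by
  classical
  have hex : ∃ k, (mst Wt q x k).1 = 0 := ⟨K, h0⟩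
  set k := Nat.find hex with hk
  have hk0 : (mst Wt q x k).1 = 0 := Nat.find_spec hex
  have hkK : k ≤ K := Nat.find_min' hex h0
  have hlt : ∀ l < k, 1 ≤ (mst Wt q x l).1 := fun l hl =>
    Nat.one_le_iff_ne_zero.2 (Nat.find_min hex hl)
  refine ⟨k, hkK, fun i hi => ?_⟩
  set ρ := Real.exp (-(a i)) with hρ
  have hρ0 : 0 ≤ ρ := (Real.exp_pos _).le
  have hρ1 : ρ ≤ 1 := Real.exp_le_one_iff.2 (neg_nonpos.2 (ha i))
  obtain ⟨-, -, hC, -⟩ := main_inv Wt q x hρ0 hρ1 hi k
  have h1 := hC (by omega)
  have h2 : (low Wt q x i k : ℝ) ≤ ∑ j ∈ Finset.range i, (1 + Wt j) * shots Wt q x j K := by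
    rw [low_eq_sum Wt q x i k hlt]
    push_cast
    refine Finset.sum_le_sum fun j _ => (stps_le Wt q x j k).trans ?_
    exact mul_le_mul_of_nonneg_left (shots_mono Wt q x j hkK) (by positivity)
  have h3 : 1 - a i * (1 + low Wt q x i k) ≤ ρ ^ (1 + low Wt q x i k) := by
    rw [hρ, ← Real.exp_nat_mul]
    have := Real.add_one_le_exp (((1 + low Wt q x i k : ℕ) : ℝ) * -(a i))
    push_cast at this ⊢
    linarith
  have h4 : ρ ^ (Wt i) = Real.exp (-(a i * Wt i)) := by
    rw [hρ, ← Real.exp_nat_mul]
    congr 1; ring
  have h5 : ρ ^ (Wt i) * absh Wt q x i k ≤ Real.exp (-(a i * Wt i)) * absh Wt q x i K := by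
    rw [h4]
    exact mul_le_mul_of_nonneg_left (absh_mono Wt q x i hkK) (Real.exp_pos _).le
  have h6 : a i * (1 + low Wt q x i k)
      ≤ a i * (1 + ∑ j ∈ Finset.range i, (1 + Wt j) * shots Wt q x j K) :=
    mul_le_mul_of_nonneg_left (by linarith) (ha i)
  have h7 : a i * (1 + ∑ j ∈ Finset.range i, (1 + Wt j) * shots Wt q x j K)
      + Real.exp (-(a i * Wt i)) * absh Wt q x i K ≤ bad Wt q x a K := by
    unfold bad
    refine Finset.single_le_sum (f := fun i => a i * (1 + ∑ j ∈ Finset.range i,
      (1 + Wt j) * shots Wt q x j K) + Real.exp (-(a i * Wt i)) * absh Wt q x i K)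
      (fun i _ => ?_) (Finset.mem_range.2 hi)
    have := absh_nonneg Wt q x i K
    have h8 : 0 ≤ ∑ j ∈ Finset.range i, (1 + (Wt j : ℝ)) * shots Wt q x j K :=
      Finset.sum_nonneg fun j _ => mul_nonneg (by positivity) (shots_nonneg _ _ _ _ _)
    have h9 := ha i
    positivity
  linarith

end path

end Pool.Agent.StochConv
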