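import Mathlib

/-!
# Choice of the waiting times and of the rates
-/

open Filter Topology

namespace Pool.Agent.StochConv

/-- Choice of the parameters of one stage. -/
theorem exists_params (q : ℕ) {p δ : ℝ} (hp : 0 < p) (hδ : 0 < δ) :
    ∃ (Wt : ℕ → ℕ) (a : ℕ → ℝ) (K : ℕ), 0 < K ∧ (∀ i, 0 < a i) ∧ (∀ i j, i ≤ j → a j ≤ a i) ∧
      (∑ i ∈ Finset.range q, (a i * (1 + ∑ j ∈ Finset.range i, (1 + (Wt j : ℝ)) * (1 / p))
        + Real.exp (-(a i * Wt i)) * (1 / p)) ≤ δ) ∧
      ∑ j ∈ Finset.range q, (1 + (Wt j : ℝ)) * (1 / p) ≤ δ * K := by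
  set m : ℝ := 2 * ((q : ℝ) + 1) with hm
  have hm0 : 0 < m := by positivity
  -- rate as a function of the total `s` of the previous waiting times
  let ra : ℕ → ℝ := fun s => δ / (m * (1 + s * (1 / p)))
  have hra : ∀ s, 0 < ra s := fun s => by
    have : 0 ≤ (s : ℝ) * (1 / p) := by positivity
    exact div_pos hδ (by positivity)
  let wa : ℕ → ℕ := fun s => ⌈Real.log (m / (p * δ)) / ra s⌉₊
  obtain ⟨s, hs0, hs1⟩ : ∃ s : ℕ → ℕ, s 0 = 0 ∧ ∀ i, s (i + 1) = s i + (1 + wa (s i)) :=
    ⟨fun i => Nat.rec 0 (fun _ t => t + (1 + wa t)) i, rfl, fun i => rfl⟩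
  have hsum : ∀ i, ∑ j ∈ Finset.range i, (1 + wa (s j)) = s i := by
    intro i
    induction i with
    | zero => simp [hs0]
    | succ i ih => rw [Finset.sum_range_succ, ih, hs1]
  have hsum' : ∀ i : ℕ, ∑ j ∈ Finset.range i, (1 + (wa (s j) : ℝ)) * (1 / p)
      = ((s i : ℕ) : ℝ) * (1 / p) := by
    intro i
    rw [← Finset.sum_mul]
    congr 1
    have := hsum i
    exact_mod_cast this
  have hmono : ∀ i j, i ≤ j → s i ≤ s j := by
    intro i j hij
    rw [← hsum i, ← hsum j]
    exact Finset.sum_le_sum_of_subset_of_nonneg (Finset.range_mono hij) fun _ _ _ => Nat.zero_le _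
  refine ⟨fun i => wa (s i), fun i => ra (s i), ⌈(s q : ℝ) * (1 / p) / δ⌉₊ + 1,
    Nat.succ_pos _, fun i => hra _, ?_, ?_, ?_⟩
  · intro i j hij
    have h := hmono i j hij
    have h' : (s i : ℝ) ≤ s j := by exact_mod_cast h
    simp only [ra]
    have h1 : 0 ≤ (s i : ℝ) * (1 / p) := by positivity
    refine div_le_div_of_nonneg_left hδ.le (by positivity) ?_
    gcongr
  · have hterm : ∀ i ∈ Finset.range q,
        (ra (s i) * (1 + ∑ j ∈ Finset.range i, (1 + (wa (s j) : ℝ)) * (1 / p))
        + Real.exp (-(ra (s i) * wa (s i))) * (1 / p)) ≤ 2 * (δ / m) := by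
      intro i _
      rw [hsum']
      have h1 : ra (s i) * (1 + (s i : ℝ) * (1 / p)) = δ / m := by
        simp only [ra]
        have : 0 < 1 + (s i : ℝ) * (1 / p) := by positivity
        field_simp
      have h2 : Real.exp (-(ra (s i) * wa (s i))) * (1 / p) ≤ δ / m := by
        have h3 : Real.log (m / (p * δ)) ≤ ra (s i) * wa (s i) := by
          have := Nat.le_ceil (Real.log (m / (p * δ)) / ra (s i))
          rw [div_le_iff₀ (hra _)] at this
          linarith
        have h4 : Real.exp (-(ra (s i) * wa (s i))) ≤ (m / (p * δ))⁻¹ := by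
          rw [← Real.exp_log (show 0 < m / (p * δ) by positivity), ← Real.exp_neg]
          exact Real.exp_le_exp.2 (neg_le_neg h3)
        calc Real.exp (-(ra (s i) * wa (s i))) * (1 / p) ≤ (m / (p * δ))⁻¹ * (1 / p) := by
              gcongr
          _ = δ / m := by field_simp
      linarith
    calc _ ≤ ∑ i ∈ Finset.range q, 2 * (δ / m) := Finset.sum_le_sum hterm
      _ = q * (2 * (δ / m)) := by simp
      _ = (q / (q + 1)) * δ := by rw [hm]; field_simp
      _ ≤ 1 * δ := by
          gcongr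
          rw [div_le_one (by positivity)]
          linarith
      _ = δ := one_mul _
  · rw [hsum']
    have := Nat.le_ceil ((s q : ℝ) * (1 / p) / δ)
    rw [div_le_iff₀ hδ] at this
    push_cast
    nlinarith

end Pool.Agent.StochConv
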