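import Pool.Agent.StochConv.Machine
import Pool.Agent.StochConv.Params

/-!
# The adaptive strategy driven by independent Gaussian variables
-/

open MeasureTheory ProbabilityTheory Filter Topology
open scoped NNReal ENNReal

namespace Pool.Agent.StochConv

/-- the success probability of a shot -/
noncomputable def pGauss : ℝ := (gaussianReal 0 1).real (Set.Ici 1)

lemma pGauss_pos : 0 < pGauss := by
  unfold pGauss
  rw [measureReal_def, ENNReal.toReal_pos_iff]
  refine ⟨?_, measure_lt_top _ _⟩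
  rw [pos_iff_ne_zero]
  intro h
  have := gaussianReal_absolutelyContinuous' 0 (v := 1) one_ne_zero h
  simp at this

/-- an adapted sequence of standard Gaussian variables, each independent of the past -/
structure GaussNoise {Ω : Type*} {mΩ : MeasurableSpace Ω} (P : Measure Ω)
    (𝓖 : ℕ → MeasurableSpace Ω) (ξ : ℕ → Ω → ℝ) (K : ℕ) : Prop where
  isProb : IsProbabilityMeasure P
  le : ∀ k, 𝓖 k ≤ mΩ
  mono : ∀ k, 𝓖 k ≤ 𝓖 (k + 1)
  meas : ∀ k < K, Measurable[𝓖 (k + 1)] (ξ k)
  indep : ∀ k < K, Indep (𝓖 k) (MeasurableSpace.comap (ξ k) inferInstance) P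
  law : ∀ k < K, HasLaw (ξ k) (gaussianReal 0 1) P

lemma measurable_mstep (Wt : ℕ → ℕ) :
    Measurable (fun z : ℝ × (ℕ × ℕ) => mstep Wt z.1 z.2) := by
  refine measurable_from_prod_countable_left fun s => ?_
  rcases s with ⟨r, w⟩
  cases w with
  | succ w => exact measurable_const
  | zero =>
    cases r with
    | zero => exact measurable_const
    | succ i =>
      simp only [mstep]
      exact Measurable.ite measurableSet_Ici measurable_const measurable_const

section

variable {Ω : Type*} {mΩ : MeasurableSpace Ω} {P : Measure Ω} {𝓖 : ℕ → MeasurableSpace Ω}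
  {ξ : ℕ → Ω → ℝ} {K : ℕ}

lemma GaussNoise.measurable_mst (h : GaussNoise P 𝓖 ξ K) (Wt : ℕ → ℕ) (q : ℕ) {k : ℕ}
    (hk : k ≤ K) :
    Measurable[𝓖 k] (fun ω => mst Wt q (fun l => ξ l ω) k) := by
  induction k with
  | zero => exact measurable_const
  | succ k ih =>
    have h1 : Measurable[𝓖 (k + 1)] (fun ω => mst Wt q (fun l => ξ l ω) k) :=
      (ih (by omega)).mono (h.mono k) le_rfl
    exact (measurable_mstep Wt).comp ((h.meas k (by omega)).prodMk h1)

lemma GaussNoise.measurable_act (h : GaussNoise P 𝓖 ξ K) (Wt : ℕ → ℕ) (q i : ℕ) {k : ℕ}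
    (hk : k ≤ K) :
    Measurable[𝓖 k] (fun ω => act Wt q (fun l => ξ l ω) i k) := by
  unfold act
  refine Measurable.ite ?_ measurable_const measurable_const
  exact h.measurable_mst Wt q hk (measurableSet_singleton _)

lemma GaussNoise.measurable_xi (h : GaussNoise P 𝓖 ξ K) {k : ℕ} (hk : k < K) :
    Measurable (ξ k) :=
  (h.meas k hk).mono (h.le _) le_rfl

lemma GaussNoise.integrable_act (h : GaussNoise P 𝓖 ξ K) (Wt : ℕ → ℕ) (q i : ℕ) {k : ℕ}
    (hk : k ≤ K) :
    Integrable (fun ω => act Wt q (fun l => ξ l ω) i k) P := by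
  have := h.isProb
  refine Integrable.of_bound
    ((h.measurable_act Wt q i hk).mono (h.le k) le_rfl).aestronglyMeasurable
    1 (Eventually.of_forall fun ω => ?_)
  rw [Real.norm_eq_abs, abs_of_nonneg (act_nonneg _ _ _ _ _)]
  exact act_le_one _ _ _ _ _

lemma GaussNoise.integrable_abs_xi (h : GaussNoise P 𝓖 ξ K) {k : ℕ} (hk : k < K) :
    Integrable (fun ω => |ξ k ω|) P := by
  have := h.isProb
  exact ((h.law k hk).hasGaussianLaw.memLp_two.integrable (by norm_num)).abs

/-- the factorisation by independence -/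
lemma GaussNoise.integral_act_mul (h : GaussNoise P 𝓖 ξ K) (Wt : ℕ → ℕ) (q i : ℕ) {k : ℕ}
    (hk : k < K) {f : ℝ → ℝ} (hf : Measurable f) :
    ∫ ω, act Wt q (fun l => ξ l ω) i k * f (ξ k ω) ∂P
      = (∫ ω, act Wt q (fun l => ξ l ω) i k ∂P) * ∫ ω, f (ξ k ω) ∂P := by
  have hind : IndepFun (fun ω => act Wt q (fun l => ξ l ω) i k) (ξ k) P := by
    rw [IndepFun_iff_Indep]
    exact indep_of_indep_of_le_left (h.indep k hk) (h.measurable_act Wt q i hk.le).comap_le
  have h2 := hind.comp (φ := id) (ψ := f) measurable_id hf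
  have h3 := h2.integral_mul_eq_mul_integral
    ((h.measurable_act Wt q i hk.le).mono (h.le k) le_rfl).aestronglyMeasurable
    (hf.comp (h.measurable_xi hk)).aestronglyMeasurable
  exact h3

lemma GaussNoise.integral_success (h : GaussNoise P 𝓖 ξ K) {k : ℕ} (hk : k < K) :
    ∫ ω, (open Classical in if 1 ≤ ξ k ω then (1 : ℝ) else 0) ∂P = pGauss := by
  have e : ∀ ω, (open Classical in if 1 ≤ ξ k ω then (1 : ℝ) else 0)
      = ((Set.Ici (1 : ℝ)).indicator (fun _ => (1 : ℝ)) ∘ ξ k) ω := by
    intro ω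
    by_cases hx : 1 ≤ ξ k ω <;> simp [Set.indicator, hx]
  simp_rw [e]
  rw [(h.law k hk).integral_comp
    ((measurable_const.indicator measurableSet_Ici).aestronglyMeasurable)]
  rw [integral_indicator measurableSet_Ici, setIntegral_const]
  simp [pGauss]

lemma GaussNoise.integral_abs_le (h : GaussNoise P 𝓖 ξ K) {k : ℕ} (hk : k < K) :
    ∫ ω, |ξ k ω| ∂P ≤ 1 := by
  have := h.isProb
  have hL : MemLp (ξ k) 2 P := (h.law k hk).hasGaussianLaw.memLp_two
  have h1 : ∫ ω, ξ k ω ∂P = 0 := by
    rw [(h.law k hk).integral_eq, integral_id_gaussianReal]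
  have h2 : ∫ ω, (ξ k ω) ^ 2 ∂P = 1 := by
    have := (h.law k hk).variance_eq
    rw [variance_id_gaussianReal, variance_of_integral_eq_zero
      (h.measurable_xi hk).aemeasurable h1] at this
    rw [this]; simp
  calc ∫ ω, |ξ k ω| ∂P ≤ ∫ ω, (1 / 2 + (ξ k ω) ^ 2 / 2) ∂P := by
        refine integral_mono (h.integrable_abs_xi hk) ?_ fun ω => ?_
        · exact (integrable_const _).add (hL.integrable_sq.div_const _)
        · have := sq_nonneg (|ξ k ω| - 1)
          rw [sub_sq, sq_abs] at this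
          simp only
          linarith
    _ = 1 := by
        rw [integral_add (integrable_const _) (hL.integrable_sq.div_const _),
          integral_div (2 : ℝ) (fun ω => ξ k ω ^ 2), h2]
        simp; norm_num

/-- the expected number of shots at each level is at most `1/p` -/
lemma GaussNoise.integral_shots_le (h : GaussNoise P 𝓖 ξ K) (Wt : ℕ → ℕ) (q i : ℕ) :
    ∑ k ∈ Finset.range K, ∫ ω, act Wt q (fun l => ξ l ω) i k ∂P ≤ 1 / pGauss := by
  classical
  have := h.isProb
  rw [le_div_iff₀ pGauss_pos, Finset.sum_mul]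
  have hf : Measurable (fun y : ℝ => if 1 ≤ y then (1 : ℝ) else 0) :=
    Measurable.ite measurableSet_Ici measurable_const measurable_const
  have e : ∀ k ∈ Finset.range K, (∫ ω, act Wt q (fun l => ξ l ω) i k ∂P) * pGauss
      = ∫ ω, act Wt q (fun l => ξ l ω) i k * (if 1 ≤ ξ k ω then (1 : ℝ) else 0) ∂P := by
    intro k hk
    rw [h.integral_act_mul Wt q i (Finset.mem_range.1 hk) hf]
    congr 1
    rw [← h.integral_success (Finset.mem_range.1 hk)]
  rw [Finset.sum_congr rfl e, ← integral_finsetSum]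
  · calc ∫ ω, ∑ k ∈ Finset.range K, act Wt q (fun l => ξ l ω) i k
          * (if 1 ≤ ξ k ω then (1 : ℝ) else 0) ∂P
        ≤ ∫ ω, (1 : ℝ) ∂P := by
          refine integral_mono_of_nonneg (Eventually.of_forall fun ω => ?_) (integrable_const _)
            (Eventually.of_forall fun ω => ?_)
          · refine Finset.sum_nonneg fun k _ => mul_nonneg (act_nonneg _ _ _ _ _) ?_
            split <;> norm_num
          · have := success_le Wt q (fun l => ξ l ω) i K
            simp only
            refine le_trans ?_ (this.trans ?_)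
            · apply le_of_eq
              refine Finset.sum_congr rfl fun k _ => ?_
              congr
            · split <;> norm_num
      _ = 1 := by simp
  · intro k hk
    have hk' := Finset.mem_range.1 hk
    refine Integrable.mono' (h.integrable_act Wt q i hk'.le) ?_
      (Eventually.of_forall fun ω => ?_)
    · exact (((h.measurable_act Wt q i hk'.le).mono (h.le k) le_rfl).mul
        (hf.comp (h.measurable_xi hk'))).aestronglyMeasurable
    · rw [norm_mul, Real.norm_eq_abs, abs_of_nonneg (act_nonneg _ _ _ _ _)]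
      refine mul_le_of_le_one_right (act_nonneg _ _ _ _ _) ?_
      split <;> simp

lemma GaussNoise.integrable_shots (h : GaussNoise P 𝓖 ξ K) (Wt : ℕ → ℕ) (q i : ℕ) :
    Integrable (fun ω => shots Wt q (fun l => ξ l ω) i K) P := by
  unfold shots
  exact integrable_finsetSum _ fun k hk =>
    h.integrable_act Wt q i (Finset.mem_range.1 hk).le

lemma GaussNoise.integral_shots (h : GaussNoise P 𝓖 ξ K) (Wt : ℕ → ℕ) (q i : ℕ) :
    ∫ ω, shots Wt q (fun l => ξ l ω) i K ∂P ≤ 1 / pGauss := by
  unfold shots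
  rw [integral_finsetSum _ fun k hk => h.integrable_act Wt q i (Finset.mem_range.1 hk).le]
  exact h.integral_shots_le Wt q i

lemma GaussNoise.integrable_act_abs (h : GaussNoise P 𝓖 ξ K) (Wt : ℕ → ℕ) (q i : ℕ) {k : ℕ}
    (hk : k < K) :
    Integrable (fun ω => act Wt q (fun l => ξ l ω) i k * |ξ k ω|) P := by
  refine Integrable.mono' (h.integrable_abs_xi hk) ?_ (Eventually.of_forall fun ω => ?_)
  · exact (((h.measurable_act Wt q i hk.le).mono (h.le k) le_rfl).mul
      (h.measurable_xi hk).norm).aestronglyMeasurable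
  · rw [norm_mul, Real.norm_eq_abs, abs_of_nonneg (act_nonneg _ _ _ _ _), Real.norm_eq_abs,
      abs_abs]
    exact mul_le_of_le_one_left (abs_nonneg _) (act_le_one _ _ _ _ _)

lemma GaussNoise.integrable_absh (h : GaussNoise P 𝓖 ξ K) (Wt : ℕ → ℕ) (q i : ℕ) :
    Integrable (fun ω => absh Wt q (fun l => ξ l ω) i K) P := by
  unfold absh
  exact integrable_finsetSum _ fun k hk =>
    h.integrable_act_abs Wt q i (Finset.mem_range.1 hk)

lemma GaussNoise.integral_absh (h : GaussNoise P 𝓖 ξ K) (Wt : ℕ → ℕ) (q i : ℕ) :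
    ∫ ω, absh Wt q (fun l => ξ l ω) i K ∂P ≤ 1 / pGauss := by
  unfold absh
  rw [integral_finsetSum _ fun k hk => h.integrable_act_abs Wt q i (Finset.mem_range.1 hk)]
  refine le_trans (Finset.sum_le_sum fun k hk => ?_) (h.integral_shots_le Wt q i)
  rw [h.integral_act_mul Wt q i (Finset.mem_range.1 hk) (f := fun y => |y|) (by fun_prop)]
  refine mul_le_of_le_one_right (integral_nonneg fun ω => act_nonneg _ _ _ _ _)
    (h.integral_abs_le (Finset.mem_range.1 hk))

lemma GaussNoise.integrable_bad_term (h : GaussNoise P 𝓖 ξ K) (Wt : ℕ → ℕ) (q : ℕ) (a : ℕ → ℝ)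
    (i : ℕ) :
    Integrable (fun ω => a i * (1 + ∑ j ∈ Finset.range i, (1 + Wt j)
      * shots Wt q (fun l => ξ l ω) j K)
      + Real.exp (-(a i * Wt i)) * absh Wt q (fun l => ξ l ω) i K) P := by
  have := h.isProb
  refine Integrable.add ?_ ((h.integrable_absh Wt q i).const_mul _)
  refine Integrable.const_mul ?_ _
  refine (integrable_const _).add ?_
  exact integrable_finsetSum _ fun j _ => (h.integrable_shots Wt q j).const_mul _

/-- the expectation of the bad quantity -/
lemma GaussNoise.integral_bad (h : GaussNoise P 𝓖 ξ K) (Wt : ℕ → ℕ) (q : ℕ) {a : ℕ → ℝ}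
    (ha : ∀ i, 0 ≤ a i) :
    ∫ ω, bad Wt q (fun l => ξ l ω) a K ∂P
      ≤ ∑ i ∈ Finset.range q, (a i * (1 + ∑ j ∈ Finset.range i, (1 + (Wt j : ℝ)) * (1 / pGauss))
        + Real.exp (-(a i * Wt i)) * (1 / pGauss)) := by
  have := h.isProb
  unfold bad
  rw [integral_finsetSum _ fun i _ => h.integrable_bad_term Wt q a i]
  refine Finset.sum_le_sum fun i _ => ?_
  have i1 : ∀ j, Integrable (fun ω => (1 + (Wt j : ℝ)) * shots Wt q (fun l => ξ l ω) j K) P :=
    fun j => (h.integrable_shots Wt q j).const_mul _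
  have i2 : Integrable (fun ω => ∑ j ∈ Finset.range i, (1 + (Wt j : ℝ))
      * shots Wt q (fun l => ξ l ω) j K) P := integrable_finsetSum _ fun j _ => i1 j
  have i3 : Integrable (fun ω => 1 + ∑ j ∈ Finset.range i, (1 + (Wt j : ℝ))
      * shots Wt q (fun l => ξ l ω) j K) P := (integrable_const _).add i2
  rw [integral_add (i3.const_mul _) ((h.integrable_absh Wt q i).const_mul _),
    integral_const_mul, integral_const_mul, integral_add (integrable_const _) i2,
    integral_finsetSum _ fun j _ => i1 j]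
  simp only [integral_const, probReal_univ, smul_eq_mul, mul_one]
  gcongr with j hj
  · exact ha i
  · rw [integral_const_mul]
    gcongr
    exact h.integral_shots Wt q j
  · exact h.integral_absh Wt q i

/-- the good event of a stage -/
def goodSet (Wt : ℕ → ℕ) (q K : ℕ) (a : ℕ → ℝ) (ξ : ℕ → Ω → ℝ) : Set Ω :=
  {ω | ∃ k ≤ K, ∀ i < q, 1 / 2 ≤ coef Wt q (Real.exp (-(a i))) (fun l => ξ l ω) i k}

/-- **The key probabilistic estimate** -/
theorem GaussNoise.measure_goodSet_compl (h : GaussNoise P 𝓖 ξ K) {Wt : ℕ → ℕ} {q : ℕ}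
    {a : ℕ → ℝ} {δ : ℝ} (hK : 0 < K) (ha : ∀ i, 0 < a i)
    (h1 : (∑ i ∈ Finset.range q,
      (a i * (1 + ∑ j ∈ Finset.range i, (1 + (Wt j : ℝ)) * (1 / pGauss))
        + Real.exp (-(a i * Wt i)) * (1 / pGauss)) ≤ δ))
    (h2 : ∑ j ∈ Finset.range q, (1 + (Wt j : ℝ)) * (1 / pGauss) ≤ δ * K) :
    P.real (goodSet Wt q K a ξ)ᶜ ≤ 3 * δ := by
  have := h.isProb
  set A : Set Ω := {ω | (K : ℝ) ≤ ∑ j ∈ Finset.range q, (1 + (Wt j : ℝ))
    * shots Wt q (fun l => ξ l ω) j K} with hA
  set B : Set Ω := {ω | 1 / 2 ≤ bad Wt q (fun l => ξ l ω) a K} with hB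
  have hsub : (goodSet Wt q K a ξ)ᶜ ⊆ A ∪ B := by
    intro ω hω
    by_contra hcon
    rw [Set.mem_union, not_or] at hcon
    obtain ⟨hnA, hnB⟩ := hcon
    apply hω
    refine exists_good_step Wt q (fun l => ξ l ω) (fun i => (ha i).le) K ?_ ?_
    · by_contra h0
      exact hnA (total_steps Wt q (fun l => ξ l ω) K (Nat.one_le_iff_ne_zero.2 h0))
    · simp only [hB, Set.mem_ofPred_eq, not_le] at hnB
      exact hnB.le
  have hPA : P.real A ≤ δ := by
    have i1 : ∀ j, Integrable (fun ω => (1 + (Wt j : ℝ)) * shots Wt q (fun l => ξ l ω) j K) P :=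
      fun j => (h.integrable_shots Wt q j).const_mul _
    have hm := mul_meas_ge_le_integral_of_nonneg (μ := P)
      (f := fun ω => ∑ j ∈ Finset.range q, (1 + (Wt j : ℝ)) * shots Wt q (fun l => ξ l ω) j K)
      (Eventually.of_forall fun ω => Finset.sum_nonneg fun j _ =>
        mul_nonneg (by positivity) (shots_nonneg _ _ _ _ _))
      (integrable_finsetSum _ fun j _ => i1 j) (K : ℝ)
    rw [integral_finsetSum _ fun j _ => i1 j] at hm
    have h3 : ∑ j ∈ Finset.range q, ∫ ω, (1 + (Wt j : ℝ)) * shots Wt q (fun l => ξ l ω) j K ∂P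
        ≤ δ * K := by
      refine le_trans (Finset.sum_le_sum fun j _ => ?_) h2
      rw [integral_const_mul]
      exact mul_le_mul_of_nonneg_left (h.integral_shots Wt q j) (by positivity)
    have hK' : (0 : ℝ) < K := by exact_mod_cast hK
    have h4 : (K : ℝ) * P.real A ≤ δ * K := hm.trans h3
    by_contra hcon
    push Not at hcon
    nlinarith
  have hPB : P.real B ≤ 2 * δ := by
    have hm := mul_meas_ge_le_integral_of_nonneg (μ := P)
      (f := fun ω => bad Wt q (fun l => ξ l ω) a K)
      (Eventually.of_forall fun ω => ?_) ?_ (1 / 2 : ℝ)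
    · have h3 := (h.integral_bad Wt q (fun i => (ha i).le)).trans h1
      have h4 : (1 / 2 : ℝ) * P.real B ≤ δ := hm.trans h3
      linarith
    · refine Finset.sum_nonneg fun i _ => ?_
      have h5 := absh_nonneg Wt q (fun l => ξ l ω) i K
      have h8 : 0 ≤ ∑ j ∈ Finset.range i, (1 + (Wt j : ℝ)) * shots Wt q (fun l => ξ l ω) j K :=
        Finset.sum_nonneg fun j _ => mul_nonneg (by positivity) (shots_nonneg _ _ _ _ _)
      have h9 := ha i
      positivity
    · unfold bad
      exact integrable_finsetSum _ fun i _ => h.integrable_bad_term Wt q a i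
  calc P.real (goodSet Wt q K a ξ)ᶜ ≤ P.real (A ∪ B) := measureReal_mono hsub
    _ ≤ P.real A + P.real B := measureReal_union_le _ _
    _ ≤ 3 * δ := by linarith

end

end Pool.Agent.StochConv
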