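import Pool.Agent.StochConv.Defs

/-!
# The Hilbert space and the semigroup

Finite dimensional blocks: `ℝ^q` with the norm `‖x‖² = ∑ xᵢ² + ∑ (Kx)ᵢ²`, with the diagonal
semigroup, and their `ℓ²`-direct sum.
-/

open MeasureTheory ProbabilityTheory Filter Topology
open scoped NNReal ENNReal

namespace Pool.Agent.StochConv

/-! ### One block -/

/-- `ℝ^q` with the norm `‖x‖² = ∑ xᵢ² + ∑ (Kx)ᵢ²`. -/
def Blk {q : ℕ} (_K : Matrix (Fin q) (Fin q) ℝ) : Type := Fin q → ℝ

section Blk

variable {q : ℕ} (K : Matrix (Fin q) (Fin q) ℝ)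

noncomputable instance : AddCommGroup (Blk K) := inferInstanceAs (AddCommGroup (Fin q → ℝ))
noncomputable instance : Module ℝ (Blk K) := inferInstanceAs (Module ℝ (Fin q → ℝ))
instance : FiniteDimensional ℝ (Blk K) := inferInstanceAs (FiniteDimensional ℝ (Fin q → ℝ))

/-- the inner product of a block -/
noncomputable def blkInner (x y : Fin q → ℝ) : ℝ :=
  ∑ i, x i * y i + ∑ i, (K.mulVec x) i * (K.mulVec y) i

lemma blkInner_comm (x y : Fin q → ℝ) : blkInner K y x = blkInner K x y := by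
  simp only [blkInner]
  congr 1 <;> exact Finset.sum_congr rfl fun i _ => mul_comm _ _

lemma blkInner_self (x : Fin q → ℝ) :
    blkInner K x x = ∑ i, x i ^ 2 + ∑ i, (K.mulVec x) i ^ 2 := by
  simp only [blkInner, sq]

lemma blkInner_self_nonneg (x : Fin q → ℝ) : 0 ≤ blkInner K x x := by
  rw [blkInner_self]
  exact add_nonneg (Finset.sum_nonneg fun i _ => sq_nonneg _)
      (Finset.sum_nonneg fun i _ => sq_nonneg _)

lemma blkInner_definite (x : Fin q → ℝ) (h : blkInner K x x = 0) : x = 0 := by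
  rw [blkInner_self] at h
  have h1 : 0 ≤ ∑ i, x i ^ 2 := Finset.sum_nonneg fun i _ => sq_nonneg _
  have h2 : 0 ≤ ∑ i, (K.mulVec x) i ^ 2 := Finset.sum_nonneg fun i _ => sq_nonneg _
  have h3 : ∑ i, x i ^ 2 = 0 := by linarith
  rw [Finset.sum_eq_zero_iff_of_nonneg (fun i _ => sq_nonneg _)] at h3
  funext i
  exact pow_eq_zero_iff (two_ne_zero) |>.1 (h3 i (Finset.mem_univ i))

lemma blkInner_add (x y z : Fin q → ℝ) :
    blkInner K (x + y) z = blkInner K x z + blkInner K y z := by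
  simp only [blkInner, K.mulVec_add x y, Pi.add_apply, add_mul, Finset.sum_add_distrib]
  ring

lemma blkInner_smul (x y : Fin q → ℝ) (r : ℝ) :
    blkInner K (r • x) y = r * blkInner K x y := by
  simp only [blkInner, K.mulVec_smul r x, Pi.smul_apply, smul_eq_mul, mul_assoc,
    ← Finset.mul_sum, mul_add]

/-- the inner product structure of a block -/
@[instance_reducible]
noncomputable def blkCore : InnerProductSpace.Core ℝ (Blk K) where
  inner x y := blkInner K x y
  conj_inner_symm x y := blkInner_comm K x y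
  re_inner_nonneg x := blkInner_self_nonneg K x
  add_left x y z := blkInner_add K x y z
  smul_left x y r := blkInner_smul K x y r
  definite x h := blkInner_definite K x h

noncomputable instance : NormedAddCommGroup (Blk K) :=
  @InnerProductSpace.Core.toNormedAddCommGroup ℝ (Blk K) _ _ _ (blkCore K)

noncomputable instance : InnerProductSpace ℝ (Blk K) := InnerProductSpace.ofCore (blkCore K).toCore

instance : CompleteSpace (Blk K) := FiniteDimensional.complete ℝ (Blk K)

lemma blk_norm_sq (x : Blk K) :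
    ‖x‖ ^ 2 = ∑ i : Fin q, (x : Fin q → ℝ) i ^ 2 + ∑ i, (K.mulVec x) i ^ 2 := by
  rw [← real_inner_self_eq_norm_sq]
  exact blkInner_self K x

/-- diagonal operators on a block -/
noncomputable def blkDiag (p : Fin q → ℝ) : Blk K →L[ℝ] Blk K :=
  LinearMap.toContinuousLinearMap
    { toFun := fun x i => p i * x i
      map_add' := fun x y => by funext i; exact mul_add _ _ _
      map_smul' := fun r x => by
        funext i
        show p i * (r * x i) = r * (p i * x i)
        ring }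

lemma blkDiag_apply (p : Fin q → ℝ) (x : Blk K) (i : Fin q) : blkDiag K p x i = p i * x i := rfl

/-- unit vectors -/
noncomputable def blkE (r : Fin q) : Blk K := (Pi.single r (1 : ℝ) : Fin q → ℝ)

lemma blkDiag_blkE (p : Fin q → ℝ) (r : Fin q) : blkDiag K p (blkE K r) = p r • blkE K r := by
  funext i
  show p i * (Pi.single r (1 : ℝ) : Fin q → ℝ) i = p r * (Pi.single r (1 : ℝ) : Fin q → ℝ) i
  by_cases h : i = r
  · subst h; simp
  · simp [h]

/-- The bound on diagonal operators. -/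
lemma norm_blkDiag_le (p : Fin q → ℝ) (hp0 : ∀ i, 0 ≤ p i) (hp1 : ∀ i, p i ≤ 1)
    (hK : ∑ i, ∑ r, (K i r * (p r - p i)) ^ 2 ≤ 1) (x : Blk K) :
    ‖blkDiag K p x‖ ≤ 2 * ‖x‖ := by
  have e1 : ‖blkDiag K p x‖ ^ 2
      = ∑ i : Fin q, (p i * x i) ^ 2 + ∑ i, (K.mulVec (fun i => p i * x i)) i ^ 2 :=
    blk_norm_sq K (blkDiag K p x)
  have e2 := blk_norm_sq K x
  set y : Fin q → ℝ := x with hy
  have h1 : ∑ i : Fin q, (p i * y i) ^ 2 ≤ ∑ i, y i ^ 2 := by
    refine Finset.sum_le_sum fun i _ => ?_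
    rw [mul_pow]
    have := pow_le_one₀ (n := 2) (hp0 i) (hp1 i)
    nlinarith [sq_nonneg (y i)]
  -- decomposition of the second term
  have h2 : ∀ i, K.mulVec (fun i => p i * y i) i
      = p i * K.mulVec y i + ∑ r, (K i r * (p r - p i)) * y r := by
    intro i
    simp only [Matrix.mulVec, dotProduct]
    rw [Finset.mul_sum, ← Finset.sum_add_distrib]
    exact Finset.sum_congr rfl fun r _ => by ring
  have h3 : ∀ i, (K.mulVec (fun i => p i * y i) i) ^ 2
      ≤ 2 * (K.mulVec y i) ^ 2 + 2 * (∑ r, (K i r * (p r - p i)) ^ 2) * ∑ r, y r ^ 2 := by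
    intro i
    rw [h2]
    have c := Finset.sum_mul_sq_le_sq_mul_sq Finset.univ (fun r => K i r * (p r - p i)) y
    have d : (p i * K.mulVec y i) ^ 2 ≤ (K.mulVec y i) ^ 2 := by
      rw [mul_pow]
      have := pow_le_one₀ (n := 2) (hp0 i) (hp1 i)
      nlinarith [sq_nonneg (K.mulVec y i)]
    nlinarith [sq_nonneg (p i * K.mulVec y i - ∑ r, (K i r * (p r - p i)) * y r)]
  have h4 : ∑ i, (K.mulVec (fun i => p i * y i)) i ^ 2
      ≤ 2 * ∑ i, (K.mulVec y i) ^ 2 + 2 * ∑ r, y r ^ 2 := by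
    calc ∑ i, (K.mulVec (fun i => p i * y i)) i ^ 2
        ≤ ∑ i, (2 * (K.mulVec y i) ^ 2
          + 2 * (∑ r, (K i r * (p r - p i)) ^ 2) * ∑ r, y r ^ 2) :=
          Finset.sum_le_sum fun i _ => h3 i
      _ = 2 * ∑ i, (K.mulVec y i) ^ 2
          + 2 * (∑ i, ∑ r, (K i r * (p r - p i)) ^ 2) * ∑ r, y r ^ 2 := by
          rw [Finset.sum_add_distrib, ← Finset.mul_sum, ← Finset.sum_mul, ← Finset.mul_sum]
      _ ≤ _ := by
          have : 0 ≤ ∑ r, y r ^ 2 := Finset.sum_nonneg fun r _ => sq_nonneg _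
          nlinarith
  have h5 : 0 ≤ ∑ i, y i ^ 2 := Finset.sum_nonneg fun r _ => sq_nonneg _
  have h6 : 0 ≤ ∑ i, (K.mulVec y i) ^ 2 := Finset.sum_nonneg fun r _ => sq_nonneg _
  have h7 : ‖blkDiag K p x‖ ^ 2 ≤ (2 * ‖x‖) ^ 2 := by
    rw [e1, mul_pow, e2]
    linarith
  exact abs_le_of_sq_le_sq' h7 (by positivity) |>.2

end Blk


/-! ### The kernel -/

/-- harmonic numbers -/
noncomputable def harm (n : ℕ) : ℝ := ∑ j ∈ Finset.range n, 1 / ((j : ℝ) + 1)

/-- the logarithmic kernel -/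
noncomputable def ker (q : ℕ) : Matrix (Fin q) (Fin q) ℝ := fun i r =>
  if i ≤ r then (√(harm q))⁻¹ / ((((r : ℕ) - (i : ℕ) : ℕ) : ℝ) + 1) else 0

lemma harm_mono {m n : ℕ} (h : m ≤ n) : harm m ≤ harm n :=
  Finset.sum_le_sum_of_subset_of_nonneg (Finset.range_mono h) fun _ _ _ => by positivity

lemma harm_nonneg (n : ℕ) : 0 ≤ harm n := Finset.sum_nonneg fun _ _ => by positivity

lemma tendsto_harm : Tendsto harm atTop atTop := Real.tendsto_sum_range_one_div_nat_succ_atTop

lemma telescope_shift (P : ℕ → ℝ) (hP0 : ∀ n, 0 ≤ P n) (hP1 : ∀ n, P n ≤ 1) (q k : ℕ) :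
    ∑ i ∈ Finset.range q, (P (i + k) - P i) ≤ k := by
  induction k with
  | zero => simp
  | succ k ih =>
    have e : ∑ i ∈ Finset.range q, (P (i + (k + 1)) - P i)
        = ∑ i ∈ Finset.range q, (P (i + k) - P i)
          + ∑ i ∈ Finset.range q, (P (i + 1 + k) - P (i + k)) := by
      rw [← Finset.sum_add_distrib]
      refine Finset.sum_congr rfl fun i _ => ?_
      have : i + (k + 1) = i + 1 + k := by omega
      rw [this]; ring
    rw [e, Finset.sum_range_sub (fun i => P (i + k))]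
    have h0 := hP0 (0 + k)
    have h1 := hP1 (q + k)
    push_cast
    linarith

lemma ker_commutator (q : ℕ) (hq : 0 < harm q) (p : Fin q → ℝ) (hp0 : ∀ i, 0 ≤ p i)
    (hp1 : ∀ i, p i ≤ 1) (hmono : ∀ i r, i ≤ r → p i ≤ p r) :
    ∑ i, ∑ r, (ker q i r * (p r - p i)) ^ 2 ≤ 1 := by
  set P : ℕ → ℝ := fun n => if h : n < q then p ⟨n, h⟩ else 1 with hP
  have hP0 : ∀ n, 0 ≤ P n := by
    intro n; simp only [hP]; split
    · exact hp0 _
    · norm_num
  have hP1 : ∀ n, P n ≤ 1 := by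
    intro n; simp only [hP]; split
    · exact hp1 _
    · norm_num
  have hPm : ∀ n k, P n ≤ P (n + k) := by
    intro n k
    simp only [hP]
    by_cases h1 : n < q
    · by_cases h2 : n + k < q
      · simp only [h1, h2, dite_true]
        exact hmono _ _ (by simp)
      · simp only [h1, h2, dite_true, dite_false]
        exact hp1 _
    · have h2 : ¬ (n + k < q) := by omega
      simp only [h1, h2, dite_false, le_refl]
  have hPi : ∀ i : Fin q, p i = P i := by
    intro i; simp [hP]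
  set a2 : ℝ := (harm q)⁻¹ with ha2
  have ha : ((√(harm q))⁻¹) ^ 2 = a2 := by
    rw [inv_pow, Real.sq_sqrt hq.le]
  have ha2nn : 0 ≤ a2 := inv_nonneg.2 hq.le
  let G : ℕ → ℕ → ℝ := fun i k => a2 / ((k : ℝ) + 1) ^ 2 * (P (i + k) - P i)
  have hG : ∀ i k, 0 ≤ G i k := fun i k =>
    mul_nonneg (div_nonneg ha2nn (by positivity)) (sub_nonneg.2 (hPm i k))
  -- termwise bound
  have step1 : ∀ i : Fin q, ∑ r, (ker q i r * (p r - p i)) ^ 2
      ≤ ∑ k ∈ Finset.range q, G i k := by
    intro i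
    have e : ∑ r : Fin q, (ker q i r * (p r - p i)) ^ 2
        ≤ ∑ r : Fin q, (if (i : ℕ) ≤ (r : ℕ) then G i ((r : ℕ) - i) else 0) := by
      refine Finset.sum_le_sum fun r _ => ?_
      by_cases h : i ≤ r
      · have h' : (i : ℕ) ≤ r := h
        simp only [ker, h, h', if_true]
        have e1 : (i : ℕ) + ((r : ℕ) - i) = r := by omega
        simp only [G, e1]
        rw [mul_pow, div_pow, ha, hPi r, hPi i]
        have h0 := hPm i ((r : ℕ) - i)
        rw [e1] at h0
        have h1 := hP1 r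
        have h2 := hP0 i
        have : (P r - P i) ^ 2 ≤ P r - P i := by nlinarith
        exact mul_le_mul_of_nonneg_left this (div_nonneg ha2nn (by positivity))
      · have h' : ¬ ((i : ℕ) ≤ r) := h
        simp [ker, h, h']
    refine e.trans ?_
    rw [Fin.sum_univ_eq_sum_range (fun r => if (i : ℕ) ≤ r then G i (r - i) else 0) q]
    rw [← Finset.sum_filter]
    have : Finset.filter (fun r => (i : ℕ) ≤ r) (Finset.range q) = Finset.Ico (i : ℕ) q := by
      ext r; simp [and_comm]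
    rw [this, Finset.sum_Ico_eq_sum_range]
    simp only [add_tsub_cancel_left]
    exact Finset.sum_le_sum_of_subset_of_nonneg (Finset.range_mono (by omega))
      fun _ _ _ => hG _ _
  calc ∑ i, ∑ r, (ker q i r * (p r - p i)) ^ 2
      ≤ ∑ i : Fin q, ∑ k ∈ Finset.range q, G i k := Finset.sum_le_sum fun i _ => step1 i
    _ = ∑ i ∈ Finset.range q, ∑ k ∈ Finset.range q, G i k :=
        Fin.sum_univ_eq_sum_range (fun i => ∑ k ∈ Finset.range q, G i k) q
    _ = ∑ k ∈ Finset.range q, a2 / ((k : ℝ) + 1) ^ 2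
          * ∑ i ∈ Finset.range q, (P (i + k) - P i) := by
        rw [Finset.sum_comm]
        refine Finset.sum_congr rfl fun k _ => ?_
        rw [Finset.mul_sum]
    _ ≤ ∑ k ∈ Finset.range q, a2 * (1 / ((k : ℝ) + 1)) := by
        refine Finset.sum_le_sum fun k _ => ?_
        have h := telescope_shift P hP0 hP1 q k
        calc a2 / ((k : ℝ) + 1) ^ 2 * ∑ i ∈ Finset.range q, (P (i + k) - P i)
            ≤ a2 / ((k : ℝ) + 1) ^ 2 * (k + 1) := by
              refine mul_le_mul_of_nonneg_left ?_ (div_nonneg ha2nn (by positivity))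
              linarith
          _ = a2 * (1 / ((k : ℝ) + 1)) := by field_simp
    _ = 1 := by
        rw [← Finset.mul_sum]
        exact inv_mul_cancel₀ hq.ne'

/-- column norms -/
lemma ker_col (q : ℕ) (hq : 0 < harm q) (r : Fin q) : ∑ i, (ker q i r) ^ 2 ≤ 1 := by
  have ha : ((√(harm q))⁻¹) ^ 2 = (harm q)⁻¹ := by
    rw [inv_pow, Real.sq_sqrt hq.le]
  have e : ∀ i : Fin q, (ker q i r) ^ 2
      ≤ (fun n : ℕ => if n ≤ r then (harm q)⁻¹ * (1 / ((((r : ℕ) - n : ℕ) : ℝ) + 1)) else 0) i := by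
    intro i
    by_cases h : i ≤ r
    · have h' : (i : ℕ) ≤ r := h
      simp only [ker, h, h', if_true]
      rw [div_pow, ha]
      rw [div_eq_mul_one_div]
      refine mul_le_mul_of_nonneg_left ?_ (inv_nonneg.2 hq.le)
      rw [div_le_div_iff₀ (by positivity) (by positivity)]
      have : (0 : ℝ) ≤ (((r : ℕ) - (i : ℕ) : ℕ) : ℝ) := Nat.cast_nonneg _
      nlinarith
    · have h' : ¬ ((i : ℕ) ≤ r) := h
      simp [ker, h, h']
  refine (Finset.sum_le_sum fun i _ => e i).trans ?_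
  rw [Fin.sum_univ_eq_sum_range
    (fun n : ℕ => if n ≤ r then (harm q)⁻¹ * (1 / ((((r : ℕ) - n : ℕ) : ℝ) + 1)) else 0) q]
  rw [← Finset.sum_filter]
  have : Finset.filter (fun n => n ≤ (r : ℕ)) (Finset.range q) = Finset.range (r + 1) := by
    ext n; simp; omega
  rw [this, ← Finset.mul_sum]
  have h2 : ∑ n ∈ Finset.range ((r : ℕ) + 1), (1 / ((((r : ℕ) - n : ℕ) : ℝ) + 1))
      = harm (r + 1) := by
    have := Finset.sum_range_reflect (fun j : ℕ => 1 / ((j : ℝ) + 1)) ((r : ℕ) + 1)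
    rw [harm, ← this]
    refine Finset.sum_congr rfl fun n hn => ?_
    have : (r : ℕ) + 1 - 1 - n = r - n := by omega
    rw [this]
  rw [h2]
  calc (harm q)⁻¹ * harm (r + 1) ≤ (harm q)⁻¹ * harm q :=
        mul_le_mul_of_nonneg_left (harm_mono (by omega)) (inv_nonneg.2 hq.le)
    _ = 1 := inv_mul_cancel₀ hq.ne'

/-- column sums -/
lemma ker_col_sum (q : ℕ) (r : Fin q) :
    ∑ i, ker q i r = (√(harm q))⁻¹ * harm (r + 1) := by
  have e : ∀ i : Fin q, ker q i r
      = (fun n : ℕ => if n ≤ r then (√(harm q))⁻¹ * (1 / ((((r : ℕ) - n : ℕ) : ℝ) + 1)) else 0) i := by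
    intro i
    by_cases h : i ≤ r
    · have h' : (i : ℕ) ≤ r := h
      simp only [ker, h, h', if_true]
      rw [div_eq_mul_one_div]
    · have h' : ¬ ((i : ℕ) ≤ r) := h
      simp [ker, h, h']
  rw [Finset.sum_congr rfl fun i _ => e i]
  rw [Fin.sum_univ_eq_sum_range
    (fun n : ℕ => if n ≤ r then (√(harm q))⁻¹ * (1 / ((((r : ℕ) - n : ℕ) : ℝ) + 1)) else 0) q]
  rw [← Finset.sum_filter]
  have : Finset.filter (fun n => n ≤ (r : ℕ)) (Finset.range q) = Finset.range (r + 1) := by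
    ext n; simp; omega
  rw [this, ← Finset.mul_sum]
  congr 1
  have := Finset.sum_range_reflect (fun j : ℕ => 1 / ((j : ℝ) + 1)) ((r : ℕ) + 1)
  rw [harm, ← this]
  refine Finset.sum_congr rfl fun n hn => ?_
  have : (r : ℕ) + 1 - 1 - n = r - n := by omega
  rw [this]

lemma sum_harm (q : ℕ) : (q : ℝ) * (harm q - 1) ≤ ∑ r ∈ Finset.range q, harm (r + 1) := by
  induction q with
  | zero => simp
  | succ q ih =>
    rw [Finset.sum_range_succ]
    have h : harm (q + 1) = harm q + 1 / ((q : ℝ) + 1) := by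
      simp [harm, Finset.sum_range_succ]
    have h2 : (q : ℝ) * (1 / ((q : ℝ) + 1)) ≤ 1 := by
      rw [mul_one_div, div_le_one (by positivity)]; linarith
    push_cast
    rw [h] at *
    nlinarith

/-- total sum of the kernel -/
lemma ker_total (q : ℕ) (hq : 2 ≤ harm q) :
    (√(harm q) / 2) * q ≤ ∑ r, ∑ i, ker q i r := by
  have h0 : 0 < √(harm q) := Real.sqrt_pos.2 (by linarith)
  have h1 : ∑ r, ∑ i, ker q i r = (√(harm q))⁻¹ * ∑ r ∈ Finset.range q, harm (r + 1) := by
    rw [Finset.mul_sum, ← Fin.sum_univ_eq_sum_range (fun r => (√(harm q))⁻¹ * harm (r + 1)) q]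
    exact Finset.sum_congr rfl fun r _ => ker_col_sum q r
  rw [h1]
  have h2 := sum_harm q
  have h3 : (√(harm q)) ^ 2 = harm q := Real.sq_sqrt (by linarith)
  rw [← div_eq_inv_mul, le_div_iff₀ h0]
  calc √(harm q) / 2 * q * √(harm q) = (√(harm q)) ^ 2 / 2 * q := by ring
    _ = harm q / 2 * q := by rw [h3]
    _ ≤ q * (harm q - 1) := by
        have : (0 : ℝ) ≤ q := Nat.cast_nonneg _
        nlinarith
    _ ≤ _ := h2

/-! ### Direct sums of semigroups -/

section direct_sum

variable {E : ℕ → Type} [∀ N, NormedAddCommGroup (E N)] [∀ N, InnerProductSpace ℝ (E N)]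

/-- A uniformly bounded family of operators acts on the `ℓ²`-direct sum. -/
noncomputable def lpMap (T : ∀ N, E N →L[ℝ] E N) (M : ℝ)
    (hM : ∀ N x, ‖T N x‖ ≤ ‖M • x‖) : lp E 2 →L[ℝ] lp E 2 :=
  LinearMap.mkContinuous
    { toFun := fun x => ⟨fun N => T N (x N),
        ((lp.memℓp x).const_smul M).mono' fun N => hM N (x N)⟩
      map_add' := fun x y => by
        ext N
        exact map_add (T N) (x N) (y N)
      map_smul' := fun r x => by
        ext N
        exact map_smul (T N) r (x N) } |M| (fun x => by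
      have h : ‖(⟨fun N => T N (x N),
        ((lp.memℓp x).const_smul M).mono' fun N => hM N (x N)⟩ : lp E 2)‖ ≤ ‖M • x‖ :=
        lp.norm_mono (by norm_num) (fun N => hM N (x N))
      rw [norm_smul, Real.norm_eq_abs] at h
      exact h)

lemma lpMap_apply (T : ∀ N, E N →L[ℝ] E N) (M : ℝ)
    (hM : ∀ N x, ‖T N x‖ ≤ ‖M • x‖) (x : lp E 2) (N : ℕ) :
    lpMap T M hM x N = T N (x N) := rfl

lemma norm_lpMap_le (T : ∀ N, E N →L[ℝ] E N) (M : ℝ)
    (hM : ∀ N x, ‖T N x‖ ≤ ‖M • x‖) (x : lp E 2) : ‖lpMap T M hM x‖ ≤ |M| * ‖x‖ := by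
  have h : ‖lpMap T M hM x‖ ≤ ‖M • x‖ := lp.norm_mono (by norm_num) (fun N => hM N (x N))
  rwa [norm_smul, Real.norm_eq_abs] at h

lemma lpMap_single (T : ∀ N, E N →L[ℝ] E N) (M : ℝ)
    (hM : ∀ N x, ‖T N x‖ ≤ ‖M • x‖) (N : ℕ) (v : E N) :
    lpMap T M hM (lp.single 2 N v) = lp.single 2 N (T N v) := by
  ext N'
  rw [lpMap_apply]
  by_cases h : N' = N
  · subst h; simp
  · rw [lp.single_apply_ne _ _ _ h, lp.single_apply_ne _ _ _ h, map_zero]

/-- The direct sum of uniformly bounded semigroups. -/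
noncomputable def lpSemigroup (S : ∀ N, C0Semigroup (E N)) (M : ℝ)
    (hM : ∀ N t x, ‖(S N).op t x‖ ≤ ‖M • x‖) : C0Semigroup (lp E 2) where
  op t := lpMap (fun N => (S N).op t) M (fun N x => hM N t x)
  op_zero := by
    ext x N
    rw [lpMap_apply, (S N).op_zero]
    rfl
  op_add s t := by
    ext x N
    rw [lpMap_apply, (S N).op_add]
    rfl
  continuous_op x := by
    have hsum := lp.hasSum_single (p := 2) (by norm_num) x
    refine continuous_of_uniform_approx_of_continuous fun u hu => ?_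
    obtain ⟨ε, hε, hεu⟩ := Metric.mem_uniformity_dist.1 hu
    have hε' : 0 < ε / (|M| + 1) := by positivity
    obtain ⟨s, hs⟩ := (Metric.tendsto_nhds.1 hsum _ hε').exists
    refine ⟨fun t => ∑ N ∈ s, lp.single 2 N ((S N).op t (x N)), ?_, fun t => hεu ?_⟩
    · refine continuous_finsetSum _ fun N _ => ?_
      exact (lp.isometry_single (p := 2) (E := E) N).continuous.comp ((S N).continuous_op (x N))
    · set T := lpMap (fun N => (S N).op t) M (fun N x => hM N t x) with hT
      have e : ∑ N ∈ s, lp.single 2 N ((S N).op t (x N))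
          = T (∑ N ∈ s, lp.single 2 N (x N)) := by
        rw [map_sum]
        refine Finset.sum_congr rfl fun N _ => ?_
        exact (lpMap_single (fun N => (S N).op t) M (fun N x => hM N t x) N (x N)).symm
      show dist (T x) (∑ N ∈ s, lp.single 2 N ((S N).op t (x N))) < ε
      rw [e, dist_eq_norm, ← map_sub]
      rw [dist_comm, dist_eq_norm] at hs
      calc ‖T (x - ∑ N ∈ s, lp.single 2 N (x N))‖
          ≤ |M| * ‖x - ∑ N ∈ s, lp.single 2 N (x N)‖ := norm_lpMap_le _ _ _ _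
        _ ≤ (|M| + 1) * ‖x - ∑ N ∈ s, lp.single 2 N (x N)‖ := by
            gcongr; linarith
        _ < (|M| + 1) * (ε / (|M| + 1)) := by
            gcongr
        _ = ε := by field_simp

end direct_sum

/-! ### The example -/

section example_space

variable {q : ℕ}

lemma blk_eq_sum (K : Matrix (Fin q) (Fin q) ℝ) (x : Blk K) :
    x = ∑ i : Fin q, (x : Fin q → ℝ) i • blkE K i := by
  funext j
  have h : ∀ y : Fin q → ℝ, (∑ i : Fin q, y i • (Pi.single i (1 : ℝ) : Fin q → ℝ)) j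
      = y j := by
    intro y
    rw [Finset.sum_apply]
    simp [Pi.single_apply]
  exact (h x).symm

lemma blkDiag_eq_sum (K : Matrix (Fin q) (Fin q) ℝ) (p : Fin q → ℝ) (x : Blk K) :
    blkDiag K p x = ∑ i : Fin q, p i • ((x : Fin q → ℝ) i • blkE K i) := by
  conv_lhs => rw [blk_eq_sum K x]
  rw [map_sum]
  refine Finset.sum_congr rfl fun i _ => ?_
  rw [map_smul, blkDiag_blkE, smul_comm]

/-- the diagonal semigroup on a block -/
noncomputable def blkSemigroup (K : Matrix (Fin q) (Fin q) ℝ) (lam : ℕ → ℝ) :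
    C0Semigroup (Blk K) where
  op t := blkDiag K (fun i => Real.exp (-(lam i * t)))
  op_zero := by
    ext x
    funext i
    rw [blkDiag_apply]
    simp
  op_add s t := by
    ext x
    funext i
    rw [ContinuousLinearMap.comp_apply, blkDiag_apply, blkDiag_apply, blkDiag_apply, ← mul_assoc,
      ← Real.exp_add]
    push_cast
    congr 2
    ring
  continuous_op x := by
    simp_rw [blkDiag_eq_sum]
    refine continuous_finsetSum _ fun i _ => ?_
    have h : Continuous fun t : ℝ≥0 => Real.exp (-(lam i * t)) := by fun_prop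
    exact h.smul continuous_const

lemma blkSemigroup_bound (hq : 0 < harm q) {lam : ℕ → ℝ} (h0 : ∀ i, 0 ≤ lam i)
    (hm : ∀ i j, i ≤ j → lam j ≤ lam i) (t : ℝ≥0) (x : Blk (ker q)) :
    ‖(blkSemigroup (ker q) lam).op t x‖ ≤ ‖(2 : ℝ) • x‖ := by
  rw [norm_smul, Real.norm_eq_abs, abs_two]
  refine norm_blkDiag_le _ _ (fun i => (Real.exp_pos _).le) (fun i => ?_) ?_ x
  · exact Real.exp_le_one_iff.2 (neg_nonpos.2 (mul_nonneg (h0 _) t.2))
  · refine ker_commutator q hq _ (fun i => (Real.exp_pos _).le) (fun i => ?_) (fun i r hir => ?_)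
    · exact Real.exp_le_one_iff.2 (neg_nonpos.2 (mul_nonneg (h0 _) t.2))
    · refine Real.exp_le_exp.2 (neg_le_neg ?_)
      exact mul_le_mul_of_nonneg_right (hm _ _ hir) t.2

/-- the normalised sum functional `x ↦ q^{-1/2} ∑ᵢ (Kx)ᵢ` -/
noncomputable def blkFun (K : Matrix (Fin q) (Fin q) ℝ) : Blk K →L[ℝ] ℝ :=
  LinearMap.toContinuousLinearMap
    { toFun := fun x => (√q)⁻¹ * ∑ i, K.mulVec x i
      map_add' := fun x y => by
        have h : K.mulVec ((x : Fin q → ℝ) + y) = K.mulVec x + K.mulVec y := K.mulVec_add x y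
        show (√q)⁻¹ * ∑ i, K.mulVec ((x : Fin q → ℝ) + y) i = _
        rw [h]
        simp only [Pi.add_apply, Finset.sum_add_distrib, mul_add]
      map_smul' := fun r x => by
        have h : K.mulVec (r • (x : Fin q → ℝ)) = r • K.mulVec x := K.mulVec_smul r x
        show (√q)⁻¹ * ∑ i, K.mulVec (r • (x : Fin q → ℝ)) i = _
        rw [h]
        simp only [Pi.smul_apply, smul_eq_mul, ← Finset.mul_sum, RingHom.id_apply]
        ring }

lemma blkFun_apply (K : Matrix (Fin q) (Fin q) ℝ) (x : Blk K) :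
    blkFun K x = (√q)⁻¹ * ∑ i, K.mulVec x i := rfl

lemma blkFun_le (hq : 0 < q) (K : Matrix (Fin q) (Fin q) ℝ) (x : Blk K) :
    |blkFun K x| ≤ ‖x‖ := by
  rw [blkFun_apply]
  refine abs_le_of_sq_le_sq ?_ (norm_nonneg _)
  rw [blk_norm_sq, mul_pow, inv_pow, Real.sq_sqrt (Nat.cast_nonneg q)]
  have h1 := Finset.sum_mul_sq_le_sq_mul_sq Finset.univ (fun _ : Fin q => (1 : ℝ))
    (fun i => K.mulVec x i)
  simp only [one_mul, one_pow, Finset.sum_const, Finset.card_univ, Fintype.card_fin,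
    nsmul_eq_mul, mul_one] at h1
  have h2 : 0 ≤ ∑ i : Fin q, (x : Fin q → ℝ) i ^ 2 := Finset.sum_nonneg fun i _ => sq_nonneg _
  have hq' : (0 : ℝ) < q := by exact_mod_cast hq
  calc (q : ℝ)⁻¹ * (∑ i, K.mulVec x i) ^ 2
      ≤ (q : ℝ)⁻¹ * (q * ∑ i, K.mulVec x i ^ 2) :=
        mul_le_mul_of_nonneg_left h1 (inv_nonneg.2 hq'.le)
    _ = ∑ i, K.mulVec x i ^ 2 := by field_simp
    _ ≤ _ := by linarith

lemma mulVec_blkE (K : Matrix (Fin q) (Fin q) ℝ) (r i : Fin q) :
    K.mulVec (blkE K r) i = K i r := by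
  have : K.mulVec (Pi.single r (1 : ℝ)) i = K i r := by
    rw [Matrix.mulVec_single_one]; rfl
  exact this

lemma blkFun_blkE (K : Matrix (Fin q) (Fin q) ℝ) (r : Fin q) :
    blkFun K (blkE K r) = (√q)⁻¹ * ∑ i, K i r := by
  rw [blkFun_apply]
  simp_rw [mulVec_blkE]

lemma norm_blkE_sq (hq : 0 < harm q) (r : Fin q) : ‖blkE (ker q) r‖ ^ 2 ≤ 2 := by
  rw [blk_norm_sq]
  have h1 : ∑ i : Fin q, (blkE (ker q) r : Fin q → ℝ) i ^ 2 = 1 := by
    have : ∀ i : Fin q, (blkE (ker q) r : Fin q → ℝ) i ^ 2 = if i = r then 1 else 0 := by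
      intro i
      show (Pi.single r (1 : ℝ) : Fin q → ℝ) i ^ 2 = _
      by_cases h : i = r
      · subst h; simp
      · simp [h]
    simp_rw [this]
    simp
  have h2 : ∑ i, (ker q).mulVec (blkE (ker q) r) i ^ 2 ≤ 1 := by
    simp_rw [mulVec_blkE]
    exact ker_col q hq r
  rw [h1]
  linarith

/-- The Hilbert space, the semigroup, the eigenvectors and the norming functionals. -/
theorem exists_space (R : ℕ → ℝ) : ∃ q : ℕ → ℕ, (∀ N, 0 < q N) ∧
    ∀ lam : ℕ → ℕ → ℝ, (∀ N i, 0 ≤ lam N i) → (∀ N i j, i ≤ j → lam N j ≤ lam N i) →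
    ∃ (X : Type) (_ : NormedAddCommGroup X) (_ : InnerProductSpace ℝ X) (_ : CompleteSpace X)
      (S : C0Semigroup X) (e : ℕ → ℕ → X) (φ : ℕ → X →L[ℝ] ℝ),
      (∀ N i, i < q N → ∀ t : ℝ≥0, S.op t (e N i) = Real.exp (-(lam N i * t)) • e N i) ∧
      (∀ N i, ‖e N i‖ ^ 2 ≤ 2) ∧
      (∀ N x, |φ N x| ≤ ‖x‖) ∧
      (∀ N N' i, N ≠ N' → φ N (e N' i) = 0) ∧
      (∀ N i, 0 ≤ φ N (e N i)) ∧
      (∀ N, R N * √(q N) ≤ ∑ i ∈ Finset.range (q N), φ N (e N i)) := by
  have hex : ∀ N, ∃ q : ℕ, 2 ≤ harm q ∧ R N ≤ √(harm q) / 2 := by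
    intro N
    have h := tendsto_harm
    obtain ⟨q, h1, h2⟩ := ((h.eventually_ge_atTop 2).and
      (h.eventually_ge_atTop ((2 * R N) ^ 2))).exists
    refine ⟨q, h1, ?_⟩
    have h3 : |2 * R N| ≤ √(harm q) := by
      rw [← Real.sqrt_sq_eq_abs]; exact Real.sqrt_le_sqrt h2
    have := le_abs_self (2 * R N)
    linarith
  choose q hq2 hqR using hex
  have hqpos : ∀ N, 0 < harm (q N) := fun N => by linarith [hq2 N]
  have hq0 : ∀ N, 0 < q N := by
    intro N
    rcases Nat.eq_zero_or_pos (q N) with h | h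
    · exfalso
      have := hqpos N
      rw [h] at this
      simp [harm] at this
    · exact h
  refine ⟨q, hq0, fun lam hlam0 hlamm => ?_⟩
  let E : ℕ → Type := fun N => Blk (ker (q N))
  let S : C0Semigroup (lp E 2) := lpSemigroup (fun N => blkSemigroup (ker (q N)) (lam N)) 2
    (fun N t x => blkSemigroup_bound (hqpos N) (hlam0 N) (hlamm N) t x)
  let e : ℕ → ℕ → lp E 2 := fun N i =>
    if h : i < q N then lp.single 2 N (blkE (ker (q N)) ⟨i, h⟩) else 0
  let φ : ℕ → lp E 2 →L[ℝ] ℝ := fun N => (blkFun (ker (q N))).comp (lp.evalCLM ℝ E 2 N)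
  have hφ : ∀ N (x : lp E 2), φ N x = blkFun (ker (q N)) (x N) := fun N x => rfl
  refine ⟨lp E 2, inferInstance, inferInstance, inferInstance, S, e, φ, ?_, ?_, ?_, ?_, ?_, ?_⟩
  · intro N i hi t
    simp only [e, hi, dite_true]
    show lpMap (fun N => (blkSemigroup (ker (q N)) (lam N)).op t) 2
      (fun N x => blkSemigroup_bound (hqpos N) (hlam0 N) (hlamm N) t x)
      (lp.single 2 N (blkE (ker (q N)) ⟨i, hi⟩)) = _
    rw [lpMap_single]
    have : (blkSemigroup (ker (q N)) (lam N)).op t (blkE (ker (q N)) ⟨i, hi⟩)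
        = Real.exp (-(lam N i * t)) • blkE (ker (q N)) ⟨i, hi⟩ :=
      blkDiag_blkE _ _ _
    rw [this, lp.single_smul]
  · intro N i
    by_cases hi : i < q N
    · simp only [e, hi, dite_true]
      rw [lp.norm_single (by norm_num)]
      exact norm_blkE_sq (hqpos N) _
    · simp only [e, hi, dite_false]
      norm_num
  · intro N x
    rw [hφ]
    exact (blkFun_le (hq0 N) _ _).trans (lp.norm_apply_le_norm (by norm_num) x N)
  · intro N N' i hN
    rw [hφ]
    by_cases hi : i < q N'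
    · simp only [e, hi, dite_true]
      rw [lp.single_apply_ne _ _ _ hN, map_zero]
    · simp only [e, hi, dite_false]
      exact map_zero _
  · intro N i
    rw [hφ]
    by_cases hi : i < q N
    · simp only [e, hi, dite_true]
      rw [lp.single_apply_self, blkFun_blkE, ker_col_sum]
      exact mul_nonneg (by positivity) (mul_nonneg (by positivity) (harm_nonneg _))
    · simp only [e, hi, dite_false]
      exact (map_zero (blkFun (ker (q N)))).ge
  · intro N
    have h1 : ∑ i ∈ Finset.range (q N), φ N (e N i)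
        = ∑ r : Fin (q N), (√(q N))⁻¹ * ∑ i, ker (q N) i r := by
      rw [← Fin.sum_univ_eq_sum_range (fun i => φ N (e N i)) (q N)]
      refine Finset.sum_congr rfl fun r _ => ?_
      rw [hφ]
      simp only [e, r.2, dite_true]
      rw [lp.single_apply_self, blkFun_blkE]
    rw [h1, ← Finset.mul_sum]
    have h2 := ker_total (q N) (hq2 N)
    have hq' : (0 : ℝ) < √(q N) := Real.sqrt_pos.2 (by exact_mod_cast hq0 N)
    rw [← div_eq_inv_mul, le_div_iff₀ hq']
    calc R N * √(q N) * √(q N) = R N * (√(q N) * √(q N)) := by ring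
      _ = R N * q N := by rw [Real.mul_self_sqrt (Nat.cast_nonneg _)]
      _ ≤ √(harm (q N)) / 2 * q N := by
          exact mul_le_mul_of_nonneg_right (hqR N) (Nat.cast_nonneg _)
      _ ≤ _ := h2

end example_space

end Pool.Agent.StochConv
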