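import Pool.Agent.StochConv.Ito
import Pool.Agent.StochConv.Prob

/-!
# The integrand of one stage
-/

open MeasureTheory ProbabilityTheory Filter Topology
open scoped NNReal ENNReal

namespace Pool.Agent.StochConv

/-- mesh of stage `N` -/
noncomputable def eta (K : ℕ → ℕ) (N : ℕ) : ℝ≥0 := (1 / 2) ^ (N + 1) / K N

/-- grid times of stage `N` -/
noncomputable def tm (K : ℕ → ℕ) (T : ℝ≥0) (N k : ℕ) : ℝ≥0 := (T - (1 / 2) ^ N) + k * eta K N

/-- amplitude of stage `N` -/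
noncomputable def cc (q : ℕ → ℕ) (T : ℝ≥0) (N : ℕ) : ℝ :=
  open Classical in if (1 / 2 : ℝ≥0) ^ N ≤ T then 2 * (1 / 2) ^ N / √(q N) else 0

/-- the rates of the semigroup -/
noncomputable def lam (K : ℕ → ℕ) (a : ℕ → ℕ → ℝ) (N i : ℕ) : ℝ := a N i / eta K N

section times

variable {K : ℕ → ℕ} (hK : ∀ N, 0 < K N) (T : ℝ≥0)

include hK in
lemma eta_pos (N : ℕ) : 0 < eta K N := by
  unfold eta
  have : (0 : ℝ≥0) < K N := by exact_mod_cast hK N
  positivity

include hK in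
lemma K_mul_eta (N : ℕ) : (K N : ℝ≥0) * eta K N = (1 / 2) ^ (N + 1) := by
  unfold eta
  have : (K N : ℝ≥0) ≠ 0 := by exact_mod_cast (hK N).ne'
  field_simp

lemma tm_mono (N : ℕ) {k l : ℕ} (h : k ≤ l) : tm K T N k ≤ tm K T N l := by
  unfold tm
  gcongr

lemma tm_succ (N k : ℕ) : tm K T N (k + 1) = tm K T N k + eta K N := by
  unfold tm
  push_cast
  ring

lemma tm_add (N k l : ℕ) : tm K T N (k + l) = tm K T N k + l * eta K N := by
  unfold tm
  push_cast
  ring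

include hK in
lemma tm_le (N : ℕ) (hN : (1 / 2 : ℝ≥0) ^ N ≤ T) {k : ℕ} (hk : k ≤ K N) :
    tm K T N k ≤ T - (1 / 2) ^ (N + 1) := by
  have h1 : tm K T N k ≤ tm K T N (K N) := tm_mono T N hk
  refine h1.trans ?_
  unfold tm
  rw [K_mul_eta hK]
  have h2 : (1 / 2 : ℝ≥0) ^ N = (1 / 2) ^ (N + 1) + (1 / 2) ^ (N + 1) := by
    rw [pow_succ, ← mul_add]
    have : (1 / 2 : ℝ≥0) + 1 / 2 = 1 := by norm_num
    rw [this, mul_one]
  rw [h2] at hN ⊢
  apply le_of_eq
  rw [tsub_add_eq_tsub_tsub]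
  exact tsub_add_cancel_of_le (le_tsub_of_add_le_left hN)

include hK in
lemma tm_le_T (N : ℕ) (hN : (1 / 2 : ℝ≥0) ^ N ≤ T) {k : ℕ} (hk : k ≤ K N) :
    tm K T N k ≤ T :=
  (tm_le hK T N hN hk).trans tsub_le_self

end times

section noise

variable {Ω : Type*} {mΩ : MeasurableSpace Ω} {𝓕 : Filtration ℝ≥0 mΩ} {W : ℝ≥0 → Ω → ℝ}
  {P : Measure Ω}

/-- normalised increments of the Brownian motion on the grid of stage `N` -/
noncomputable def xi (K : ℕ → ℕ) (T : ℝ≥0) (W : ℝ≥0 → Ω → ℝ) (N k : ℕ) (ω : Ω) : ℝ :=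
  (W (tm K T N (k + 1)) ω - W (tm K T N k) ω) / √(eta K N)

lemma gaussNoise {T : ℝ≥0} (hW : IsBrownianMotionOn 𝓕 W P T) {K : ℕ → ℕ} (hK : ∀ N, 0 < K N)
    {N : ℕ} (hN : (1 / 2 : ℝ≥0) ^ N ≤ T) :
    GaussNoise P (fun k => 𝓕 (tm K T N k)) (xi K T W N) (K N) where
  isProb := hW.isProb
  le k := 𝓕.le _
  mono k := 𝓕.mono (tm_mono T N (Nat.le_succ k))
  meas k hk := by
    have h := (hW.stronglyMeasurable_incr (tm_mono (K := K) T N (Nat.le_succ k)) le_rfl
      (tm_le_T hK T N hN hk.le) (tm_le_T hK T N hN hk)).measurable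
    exact h.div_const _
  indep k hk := by
    have h := hW.indep _ _ (tm_mono (K := K) T N (Nat.le_succ k)) (tm_le_T hK T N hN hk)
    refine indep_of_indep_of_le_right h ?_
    rintro s ⟨u, hu, rfl⟩
    exact ⟨(fun y => y / √(eta K N)) ⁻¹' u, measurable_id.div_const _ hu, rfl⟩
  law k hk := by
    have h := hW.hasLaw (tm_mono (K := K) T N (Nat.le_succ k)) (tm_le_T hK T N hN hk)
    have h2 := gaussianReal_div_const h (√(eta K N))
    have h3 : tm K T N (k + 1) - tm K T N k = eta K N := by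
      rw [tm_succ, add_tsub_cancel_left]
    have hpos : 0 < (eta K N : ℝ) := by exact_mod_cast eta_pos hK N
    have h4 : (tm K T N (k + 1) - tm K T N k) / NNReal.mk ((√(eta K N)) ^ 2) (sq_nonneg _)
        = 1 := by
      rw [h3]
      apply NNReal.eq
      push_cast
      rw [Real.sq_sqrt hpos.le, div_self hpos.ne']
    rw [zero_div] at h2
    have h5 : (tm K T N k.succ - tm K T N k) / NNReal.mk ((√(eta K N)) ^ 2) (sq_nonneg _)
        = 1 := h4
    rw [h5] at h2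
    exact h2

end noise

section integrand

variable {Ω : Type*} {mΩ : MeasurableSpace Ω}
  {X : Type*} [NormedAddCommGroup X] [InnerProductSpace ℝ X]

/-- indicator of a shot -/
noncomputable def ac (K : ℕ → ℕ) (q : ℕ → ℕ) (Wt : ℕ → ℕ → ℕ) (T : ℝ≥0) (W : ℝ≥0 → Ω → ℝ)
    (N i k : ℕ) (ω : Ω) : ℝ :=
  act (Wt N) (q N) (fun l => xi K T W N l ω) i k

/-- the vector injected at step `k` of stage `N`, seen from time `τ` -/
noncomputable def YY (K : ℕ → ℕ) (q : ℕ → ℕ) (Wt : ℕ → ℕ → ℕ) (a : ℕ → ℕ → ℝ) (e : ℕ → ℕ → X)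
    (T : ℝ≥0) (W : ℝ≥0 → Ω → ℝ) (N k : ℕ) (τ : ℝ≥0) (ω : Ω) : X :=
  ∑ i ∈ Finset.range (q N), (cc q T N / √(eta K N) * ac K q Wt T W N i k ω
    * Real.exp (-(lam K a N i * ((τ : ℝ) - tm K T N k)))) • e N i

/-- the stage `N` of the integrand: `hh N id` for the process itself and `hh N (fun _ => t)` for
its image under the semigroup -/
noncomputable def hh (K : ℕ → ℕ) (q : ℕ → ℕ) (Wt : ℕ → ℕ → ℕ) (a : ℕ → ℕ → ℝ) (e : ℕ → ℕ → X)
    (T : ℝ≥0) (W : ℝ≥0 → Ω → ℝ) (N : ℕ) (τ : ℝ≥0 → ℝ≥0) (s : ℝ≥0) (ω : Ω) : X :=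
  ∑ k ∈ Finset.range (K N), (Set.Ioc (tm K T N k) (tm K T N (k + 1))).indicator
    (fun _ => YY K q Wt a e T W N k (τ s) ω) s

variable {K : ℕ → ℕ} {q : ℕ → ℕ} {Wt : ℕ → ℕ → ℕ} {a : ℕ → ℕ → ℝ} {e : ℕ → ℕ → X}
  {T : ℝ≥0} {W : ℝ≥0 → Ω → ℝ}

lemma ac_nonneg (N i k : ℕ) (ω : Ω) : 0 ≤ ac K q Wt T W N i k ω := act_nonneg _ _ _ _ _

lemma ac_le_one (N i k : ℕ) (ω : Ω) : ac K q Wt T W N i k ω ≤ 1 := act_le_one _ _ _ _ _

lemma sum_act_sq (Wt : ℕ → ℕ) (q : ℕ) (x : ℕ → ℝ) (k : ℕ) :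
    (∑ i ∈ Finset.range q, act Wt q x i k) ≤ 1 := by
  by_cases h : ∃ i ∈ Finset.range q, mst Wt q x k = (i + 1, 0)
  · obtain ⟨i, hi, h⟩ := h
    have : ∀ j ∈ Finset.range q, act Wt q x j k = if j = i then 1 else 0 := by
      intro j _
      unfold act
      rw [h]
      by_cases hj : j = i
      · subst hj; simp
      · rw [if_neg hj, if_neg]
        intro h'
        have := congrArg Prod.fst h'
        simp at this; omega
    rw [Finset.sum_congr rfl this, Finset.sum_ite_eq', if_pos hi]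
  · push Not at h
    rw [Finset.sum_eq_zero]
    · norm_num
    · intro i hi
      unfold act
      rw [if_neg (h i hi)]

lemma cc_nonneg (N : ℕ) : 0 ≤ cc q T N := by
  unfold cc
  split
  · positivity
  · exact le_rfl

/-- pointwise bound on the injected vectors -/
lemma norm_YY_le (ha : ∀ N i, 0 < a N i) (he : ∀ N i, ‖e N i‖ ^ 2 ≤ 2) (N k : ℕ) {τ : ℝ≥0}
    (hτ : tm K T N k ≤ τ) (ω : Ω) :
    ‖YY K q Wt a e T W N k τ ω‖ ≤ cc q T N / √(eta K N) * 2
      * ∑ i ∈ Finset.range (q N), ac K q Wt T W N i k ω := by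
  unfold YY
  refine (norm_sum_le _ _).trans ?_
  rw [Finset.mul_sum]
  refine Finset.sum_le_sum fun i _ => ?_
  rw [norm_smul, Real.norm_eq_abs]
  have h1 : 0 ≤ cc q T N / √(eta K N) := div_nonneg (cc_nonneg N) (Real.sqrt_nonneg _)
  have h2 := ac_nonneg (K := K) (q := q) (Wt := Wt) (T := T) (W := W) N i k ω
  have h3 : Real.exp (-(lam K a N i * ((τ : ℝ) - tm K T N k))) ≤ 1 := by
    rw [Real.exp_le_one_iff, neg_nonpos]
    refine mul_nonneg (div_nonneg (ha N i).le (NNReal.coe_nonneg _)) ?_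
    exact sub_nonneg.2 (by exact_mod_cast hτ)
  have h4 : ‖e N i‖ ≤ 2 := by nlinarith [he N i, norm_nonneg (e N i)]
  rw [abs_of_nonneg (mul_nonneg (mul_nonneg h1 h2) (Real.exp_pos _).le)]
  calc cc q T N / √(eta K N) * ac K q Wt T W N i k ω
        * Real.exp (-(lam K a N i * ((τ : ℝ) - tm K T N k))) * ‖e N i‖
      ≤ cc q T N / √(eta K N) * ac K q Wt T W N i k ω * 1 * 2 := by
        gcongr
    _ = _ := by ring

lemma mem_Ioc_unique (N : ℕ) {k l : ℕ} {s : ℝ≥0}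
    (hk : s ∈ Set.Ioc (tm K T N k) (tm K T N (k + 1)))
    (hl : s ∈ Set.Ioc (tm K T N l) (tm K T N (l + 1))) : k = l := by
  rcases lt_trichotomy k l with h | h | h
  · exact absurd (hk.2.trans (tm_mono T N h)) (not_le.2 hl.1)
  · exact h
  · exact absurd (hl.2.trans (tm_mono T N h)) (not_le.2 hk.1)

/-- the bound function -/
noncomputable def bb (K : ℕ → ℕ) (q : ℕ → ℕ) (Wt : ℕ → ℕ → ℕ) (T : ℝ≥0) (W : ℝ≥0 → Ω → ℝ)
    (N : ℕ) (p : ℝ≥0 × Ω) : ℝ :=
  ∑ k ∈ Finset.range (K N), (Set.Ioc (tm K T N k) (tm K T N (k + 1))).indicator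
    (fun _ => (1 : ℝ)) p.1 * (4 * cc q T N ^ 2 / eta K N
      * ∑ i ∈ Finset.range (q N), ac K q Wt T W N i k p.2)

lemma norm_hh_sq_le (hK : ∀ N, 0 < K N) (ha : ∀ N i, 0 < a N i) (he : ∀ N i, ‖e N i‖ ^ 2 ≤ 2)
    (N : ℕ) {τ : ℝ≥0 → ℝ≥0} {s : ℝ≥0} (hτ : s ≤ τ s) (ω : Ω) :
    ‖hh K q Wt a e T W N τ s ω‖ ^ 2 ≤ bb K q Wt T W N (s, ω) := by
  have hη : (0 : ℝ) < eta K N := by exact_mod_cast eta_pos hK N
  by_cases h : ∃ k ∈ Finset.range (K N), s ∈ Set.Ioc (tm K T N k) (tm K T N (k + 1))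
  · obtain ⟨k, hk, hs⟩ := h
    have hne : ∀ l ∈ Finset.range (K N), l ≠ k →
        s ∉ Set.Ioc (tm K T N l) (tm K T N (l + 1)) := fun l _ hlk hl =>
      hlk (mem_Ioc_unique N hl hs)
    have h1 : hh K q Wt a e T W N τ s ω = YY K q Wt a e T W N k (τ s) ω := by
      unfold hh
      rw [Finset.sum_eq_single k]
      · rw [Set.indicator_of_mem hs]
      · intro l hl hlk
        rw [Set.indicator_of_notMem (hne l hl hlk)]
      · intro h; exact absurd hk h
    have h2 : bb K q Wt T W N (s, ω) = 4 * cc q T N ^ 2 / eta K N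
        * ∑ i ∈ Finset.range (q N), ac K q Wt T W N i k ω := by
      unfold bb
      rw [Finset.sum_eq_single k]
      · rw [Set.indicator_of_mem hs, one_mul]
      · intro l hl hlk
        rw [Set.indicator_of_notMem (hne l hl hlk), zero_mul]
      · intro h; exact absurd hk h
    rw [h1, h2]
    have h3 := norm_YY_le (K := K) (q := q) (Wt := Wt) (a := a) (e := e) (T := T) (W := W) ha he N k
      (hs.1.le.trans hτ) ω
    set A := ∑ i ∈ Finset.range (q N), ac K q Wt T W N i k ω with hA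
    have hA0 : 0 ≤ A := Finset.sum_nonneg fun i _ => ac_nonneg _ _ _ _
    have hA1 : A ≤ 1 := sum_act_sq _ _ _ _
    have h4 : ‖YY K q Wt a e T W N k (τ s) ω‖ ^ 2
        ≤ (cc q T N / √(eta K N) * 2 * A) ^ 2 := by
      gcongr
    refine h4.trans ?_
    have h5 : (cc q T N / √(eta K N) * 2 * A) ^ 2 = 4 * cc q T N ^ 2 / eta K N * A ^ 2 := by
      rw [mul_pow, mul_pow, div_pow, Real.sq_sqrt hη.le]
      ring
    rw [h5]
    have h6 : A ^ 2 ≤ A := by nlinarith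
    exact mul_le_mul_of_nonneg_left h6 (by positivity)
  · push Not at h
    have h1 : hh K q Wt a e T W N τ s ω = 0 := by
      unfold hh
      exact Finset.sum_eq_zero fun k hk => Set.indicator_of_notMem (h k hk) _
    have h2 : bb K q Wt T W N (s, ω) = 0 := by
      unfold bb
      refine Finset.sum_eq_zero fun k hk => ?_
      rw [Set.indicator_of_notMem (h k hk), zero_mul]
    rw [h1, h2]
    simp

/-- joint measurability of the integrand of a stage -/
lemma stronglyMeasurable_hh {Z : Type*} [MeasurableSpace Z] {σ : Z → ℝ≥0} {π : Z → Ω}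
    (hσ : Measurable σ) (N : ℕ) {τ : ℝ≥0 → ℝ≥0} (hτ : Measurable τ)
    (hac : ∀ i, ∀ k < K N, (∃ z, tm K T N k < σ z) →
      Measurable (fun z => ac K q Wt T W N i k (π z))) :
    StronglyMeasurable (fun z => hh K q Wt a e T W N τ (σ z) (π z)) := by
  unfold hh
  refine Finset.stronglyMeasurable_fun_sum _ fun k hk => ?_
  by_cases h : ∃ z, tm K T N k < σ z
  · have e1 : (fun z => (Set.Ioc (tm K T N k) (tm K T N (k + 1))).indicator
        (fun _ => YY K q Wt a e T W N k (τ (σ z)) (π z)) (σ z))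
        = (σ ⁻¹' (Set.Ioc (tm K T N k) (tm K T N (k + 1)))).indicator
          (fun z => YY K q Wt a e T W N k (τ (σ z)) (π z)) := by
      ext z
      by_cases hz : σ z ∈ Set.Ioc (tm K T N k) (tm K T N (k + 1)) <;>
        simp [Set.indicator, hz]
    rw [e1]
    refine StronglyMeasurable.indicator ?_ (hσ measurableSet_Ioc)
    unfold YY
    refine Finset.stronglyMeasurable_fun_sum _ fun i _ => ?_
    refine StronglyMeasurable.smul_const (Measurable.stronglyMeasurable ?_) _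
    have h1 := hac i k (Finset.mem_range.1 hk) h
    have h2 : Measurable (fun z => ((τ (σ z) : ℝ≥0) : ℝ)) :=
      measurable_coe_nnreal_real.comp (hτ.comp hσ)
    exact (h1.const_mul _).mul
      (Real.measurable_exp.comp ((h2.sub_const _).const_mul _).neg)
  · push Not at h
    have e1 : (fun z => (Set.Ioc (tm K T N k) (tm K T N (k + 1))).indicator
        (fun _ => YY K q Wt a e T W N k (τ (σ z)) (π z)) (σ z)) = fun _ => 0 := by
      ext z
      rw [Set.indicator_of_notMem]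
      exact fun hz => absurd hz.1 (not_lt.2 (h z))
    rw [e1]
    exact stronglyMeasurable_const

lemma cc_sq_mul_le (hq : ∀ N, 0 < q N) (N : ℕ) :
    cc q T N ^ 2 * q N ≤ 4 * ((1 / 2) ^ N) ^ 2 := by
  have hq' : (0 : ℝ) < q N := by exact_mod_cast hq N
  unfold cc
  split
  · rw [div_pow, Real.sq_sqrt hq'.le, mul_pow]
    apply le_of_eq
    field_simp
    norm_num
  · simp only [ne_eq, OfNat.ofNat_ne_zero, not_false_eq_true, zero_pow, zero_mul]
    positivity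

lemma cc_eq_zero {N : ℕ} (hN : ¬ (1 / 2 : ℝ≥0) ^ N ≤ T) : cc q T N = 0 := by
  unfold cc; rw [if_neg hN]

lemma YY_eq_zero {N : ℕ} (hN : ¬ (1 / 2 : ℝ≥0) ^ N ≤ T) (k : ℕ) (τ : ℝ≥0) (ω : Ω) :
    YY K q Wt a e T W N k τ ω = 0 := by
  unfold YY
  refine Finset.sum_eq_zero fun i _ => ?_
  rw [cc_eq_zero hN]
  simp

lemma hh_eq_zero {N : ℕ} (hN : ¬ (1 / 2 : ℝ≥0) ^ N ≤ T) (τ : ℝ≥0 → ℝ≥0) (s : ℝ≥0) (ω : Ω) :
    hh K q Wt a e T W N τ s ω = 0 := by
  unfold hh
  refine Finset.sum_eq_zero fun k _ => ?_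
  rw [YY_eq_zero hN]
  simp

lemma measurable_ac {𝓕 : Filtration ℝ≥0 mΩ} {P : Measure Ω}
    (hW : IsBrownianMotionOn 𝓕 W P T) (hK : ∀ N, 0 < K N) {N : ℕ}
    (hN : (1 / 2 : ℝ≥0) ^ N ≤ T) (i : ℕ) {k : ℕ} (hk : k ≤ K N) :
    Measurable[𝓕 (tm K T N k)] (fun ω => ac K q Wt T W N i k ω) :=
  (gaussNoise hW hK hN).measurable_act (Wt N) (q N) i hk

lemma integrable_bb {𝓕 : Filtration ℝ≥0 mΩ} {P : Measure Ω}
    (hW : IsBrownianMotionOn 𝓕 W P T) (hK : ∀ N, 0 < K N) {N : ℕ}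
    (hN : (1 / 2 : ℝ≥0) ^ N ≤ T) (t : ℝ≥0) {k : ℕ} (hk : k ≤ K N) :
    Integrable (fun p : ℝ≥0 × Ω => (Set.Ioc (tm K T N k) (tm K T N (k + 1))).indicator
      (fun _ => (1 : ℝ)) p.1 * (4 * cc q T N ^ 2 / eta K N
      * ∑ i ∈ Finset.range (q N), ac K q Wt T W N i k p.2))
      ((timeMeasure.restrict (Set.Iic t)).prod P) := by
  have hP := hW.isProb
  refine Integrable.mul_prod (f := (Set.Ioc (tm K T N k) (tm K T N (k + 1))).indicator
    (fun _ => (1 : ℝ))) (g := fun ω => 4 * cc q T N ^ 2 / eta K N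
      * ∑ i ∈ Finset.range (q N), ac K q Wt T W N i k ω) ?_ ?_
  · exact (integrable_const (1 : ℝ)).indicator measurableSet_Ioc
  · refine Integrable.const_mul ?_ _
    exact integrable_finsetSum _ fun i _ => (gaussNoise hW hK hN).integrable_act _ _ i hk

lemma integral_bb_le {𝓕 : Filtration ℝ≥0 mΩ} {P : Measure Ω}
    (hW : IsBrownianMotionOn 𝓕 W P T) (hK : ∀ N, 0 < K N) (hq : ∀ N, 0 < q N) {N : ℕ}
    (hN : (1 / 2 : ℝ≥0) ^ N ≤ T) (t : ℝ≥0) :
    ∫ p, bb K q Wt T W N p ∂((timeMeasure.restrict (Set.Iic t)).prod P)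
      ≤ (4 / √pGauss * (1 / 2) ^ N) ^ 2 := by
  have hP := hW.isProb
  have hη : (0 : ℝ) < eta K N := by exact_mod_cast eta_pos hK N
  unfold bb
  rw [integral_finsetSum _ fun k hk => integrable_bb hW hK hN t (Finset.mem_range.1 hk).le]
  have h1 : ∀ k ∈ Finset.range (K N),
      ∫ p : ℝ≥0 × Ω, (Set.Ioc (tm K T N k) (tm K T N (k + 1))).indicator
      (fun _ => (1 : ℝ)) p.1 * (4 * cc q T N ^ 2 / eta K N
      * ∑ i ∈ Finset.range (q N), ac K q Wt T W N i k p.2)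
        ∂((timeMeasure.restrict (Set.Iic t)).prod P)
      ≤ 4 * cc q T N ^ 2
        * ∑ i ∈ Finset.range (q N), ∫ ω, ac K q Wt T W N i k ω ∂P := by
    intro k hk
    have hprod := integral_prod_mul (μ := timeMeasure.restrict (Set.Iic t)) (ν := P)
        (fun s : ℝ≥0 =>
          (Set.Ioc (tm K T N k) (tm K T N (k + 1))).indicator (fun _ => (1 : ℝ)) s)
        (fun ω => 4 * cc q T N ^ 2 / eta K N
      * ∑ i ∈ Finset.range (q N), ac K q Wt T W N i k ω)
    rw [hprod]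
    have h2 : ∫ s, (Set.Ioc (tm K T N k) (tm K T N (k + 1))).indicator (fun _ => (1 : ℝ)) s
        ∂(timeMeasure.restrict (Set.Iic t)) ≤ eta K N := by
      rw [integral_indicator measurableSet_Ioc, setIntegral_const, smul_eq_mul, mul_one,
        measureReal_restrict_apply measurableSet_Ioc]
      have h3 : timeMeasure (Set.Ioc (tm K T N k) (tm K T N (k + 1))) = (eta K N : ℝ≥0∞) := by
        rw [timeMeasure_Ioc, tm_succ, add_tsub_cancel_left]
      have h4 : timeMeasure.real (Set.Ioc (tm K T N k) (tm K T N (k + 1))) = eta K N := by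
        rw [Measure.real, h3, ENNReal.coe_toReal]
      rw [← h4]
      refine measureReal_mono Set.inter_subset_left ?_
      rw [h3]
      exact ENNReal.coe_ne_top
    have h5 : ∫ ω, (4 * cc q T N ^ 2 / eta K N
        * ∑ i ∈ Finset.range (q N), ac K q Wt T W N i k ω) ∂P
        = 4 * cc q T N ^ 2 / eta K N
          * ∑ i ∈ Finset.range (q N), ∫ ω, ac K q Wt T W N i k ω ∂P := by
      rw [integral_const_mul]
      congr 1
      exact integral_finsetSum _ fun i _ =>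
        (gaussNoise hW hK hN).integrable_act _ _ i (Finset.mem_range.1 hk).le
    rw [h5]
    have h6 : 0 ≤ ∑ i ∈ Finset.range (q N), ∫ ω, ac K q Wt T W N i k ω ∂P :=
      Finset.sum_nonneg fun i _ => integral_nonneg fun ω => ac_nonneg _ _ _ _
    calc _ ≤ (eta K N : ℝ) * (4 * cc q T N ^ 2 / eta K N
          * ∑ i ∈ Finset.range (q N), ∫ ω, ac K q Wt T W N i k ω ∂P) :=
          mul_le_mul_of_nonneg_right h2 (by positivity)
      _ = _ := by field_simp
  refine (Finset.sum_le_sum h1).trans ?_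
  rw [← Finset.mul_sum, Finset.sum_comm]
  have h7 : ∑ i ∈ Finset.range (q N), ∑ k ∈ Finset.range (K N), ∫ ω, ac K q Wt T W N i k ω ∂P
      ≤ q N * (1 / pGauss) := by
    calc _ ≤ ∑ i ∈ Finset.range (q N), 1 / pGauss := by
          refine Finset.sum_le_sum fun i _ => ?_
          exact (gaussNoise hW hK hN).integral_shots_le (Wt N) (q N) i
      _ = _ := by simp
  have hp := pGauss_pos
  calc 4 * cc q T N ^ 2 * _ ≤ 4 * cc q T N ^ 2 * (q N * (1 / pGauss)) := by gcongr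
    _ = 4 * (cc q T N ^ 2 * q N) * (1 / pGauss) := by ring
    _ ≤ 4 * (4 * ((1 / 2) ^ N) ^ 2) * (1 / pGauss) := by
        have h8 := cc_sq_mul_le (T := T) hq N
        exact mul_le_mul_of_nonneg_right (mul_le_mul_of_nonneg_left h8 (by norm_num))
          (by positivity)
    _ = _ := by
        rw [mul_pow (4 / √pGauss), div_pow 4 (√pGauss), Real.sq_sqrt hp.le]
        ring

lemma eLpNorm_hh_le {𝓕 : Filtration ℝ≥0 mΩ} {P : Measure Ω}
    (hW : IsBrownianMotionOn 𝓕 W P T) (hK : ∀ N, 0 < K N) (hq : ∀ N, 0 < q N)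
    (ha : ∀ N i, 0 < a N i) (he : ∀ N i, ‖e N i‖ ^ 2 ≤ 2) (N : ℕ)
    (t : ℝ≥0) {τ : ℝ≥0 → ℝ≥0} (hτ : ∀ s ≤ t, s ≤ τ s) :
    eLpNorm (fun p : ℝ≥0 × Ω => hh K q Wt a e T W N τ p.1 p.2) 2
      ((timeMeasure.restrict (Set.Iic t)).prod P) ≤ ENNReal.ofReal (4 / √pGauss * (1 / 2) ^ N) := by
  have hP := hW.isProb
  by_cases hN : (1 / 2 : ℝ≥0) ^ N ≤ T
  swap
  · have e0 : (fun p : ℝ≥0 × Ω => hh K q Wt a e T W N τ p.1 p.2) = fun _ => (0 : X) := by
      ext p; exact hh_eq_zero hN _ _ _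
    rw [e0, eLpNorm_zero']
    exact bot_le
  set μ := (timeMeasure.restrict (Set.Iic t)).prod P with hμ
  have hη : (0 : ℝ) < eta K N := by exact_mod_cast eta_pos hK N
  have hae : ∀ᵐ p ∂μ, p.1 ∈ Set.Iic t :=
    (Measure.quasiMeasurePreserving_fst (μ := timeMeasure.restrict (Set.Iic t)) (ν := P)).ae
      (ae_restrict_mem measurableSet_Iic)
  have hbb : Integrable (bb K q Wt T W N) μ := by
    unfold bb
    exact integrable_finsetSum _ fun k hk =>
      integrable_bb hW hK hN t (Finset.mem_range.1 hk).le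
  have hbb0 : 0 ≤ᵐ[μ] bb K q Wt T W N := by
    filter_upwards [hae] with p hp
    exact (sq_nonneg _).trans (norm_hh_sq_le (K := K) (q := q) (Wt := Wt) (a := a) (e := e)
      (T := T) (W := W) hK ha he N (hτ _ hp) p.2)
  rw [eLpNorm_eq_lintegral_rpow_enorm_toReal (by norm_num) (by norm_num)]
  have h1 : ∫⁻ p, ‖hh K q Wt a e T W N τ p.1 p.2‖ₑ ^ (2 : ℝ≥0∞).toReal ∂μ
      ≤ ENNReal.ofReal ((4 / √pGauss * (1 / 2) ^ N) ^ 2) := by
    calc ∫⁻ p, ‖hh K q Wt a e T W N τ p.1 p.2‖ₑ ^ (2 : ℝ≥0∞).toReal ∂μ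
        ≤ ∫⁻ p, ENNReal.ofReal (bb K q Wt T W N p) ∂μ := by
          refine lintegral_mono_ae ?_
          filter_upwards [hae] with p hp
          have h2 := norm_hh_sq_le (K := K) (q := q) (Wt := Wt) (a := a) (e := e)
            (T := T) (W := W) hK ha he N (hτ _ hp) p.2
          rw [← ofReal_norm, ENNReal.toReal_ofNat, ENNReal.rpow_two,
            ← ENNReal.ofReal_pow (norm_nonneg _)]
          exact ENNReal.ofReal_le_ofReal h2
      _ = ENNReal.ofReal (∫ p, bb K q Wt T W N p ∂μ) :=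
          (ofReal_integral_eq_lintegral_ofReal hbb hbb0).symm
      _ ≤ _ := ENNReal.ofReal_le_ofReal (integral_bb_le hW hK hq hN t)
  have hp := pGauss_pos
  calc _ ≤ (ENNReal.ofReal ((4 / √pGauss * (1 / 2) ^ N) ^ 2)) ^ (1 / (2 : ℝ≥0∞).toReal) := by
        gcongr
    _ = _ := by
        rw [ENNReal.toReal_ofNat, ENNReal.ofReal_rpow_of_nonneg (by positivity) (by norm_num),
          ← Real.sqrt_eq_rpow, Real.sqrt_sq (by positivity)]

end integrand

end Pool.Agent.StochConv
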